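import Pool.Agent.H637W.Spec

set_option autoImplicit false

/-! Task BROM: the Bromwich formula for the reciprocal of the gamma function. -/

namespace Pool.Agent.H637W.MB

open Complex Filter Topology MeasureTheory
open scoped Real FourierTransform

/-- `u^s e^{-u}` for `u > 0`, `0` for `u ≤ 0` -/
noncomputable def bf (s : ℝ) (u : ℝ) : ℂ :=
  Set.indicator (Set.Ioi 0) (fun u : ℝ => ((Real.exp (-u) * u ^ s : ℝ) : ℂ)) u

theorem bf_pos (s : ℝ) {u : ℝ} (hu : 0 < u) : bf s u = ((Real.exp (-u) * u ^ s : ℝ) : ℂ) :=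
  Set.indicator_of_mem (Set.mem_Ioi.2 hu) _

theorem bf_nonpos (s : ℝ) {u : ℝ} (hu : u ≤ 0) : bf s u = 0 :=
  Set.indicator_of_notMem (fun h => absurd (Set.mem_Ioi.1 h) (not_lt.2 hu)) _

theorem bf_int (s : ℝ) (hs : -1 < s) : Integrable (bf s) := by
  have h := Real.GammaIntegral_convergent (show 0 < s + 1 by linarith)
  rw [add_sub_cancel_right] at h
  unfold bf
  exact (integrable_indicator_iff measurableSet_Ioi).2 h.ofReal

theorem bf_integral (s : ℝ) (hs : -1 < s) : ∫ u, bf s u = ((Real.Gamma (s + 1) : ℝ) : ℂ) := by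
  unfold bf
  rw [integral_indicator measurableSet_Ioi, Real.Gamma_eq_integral (by linarith),
    add_sub_cancel_right]
  exact integral_complex_ofReal

theorem bf_mul (s : ℝ) (u : ℝ) : u • bf s u = bf (s + 1) u := by
  rcases lt_or_ge 0 u with hu | hu
  · rw [bf_pos s hu, bf_pos _ hu, Real.rpow_add_one hu.ne', real_smul, ← ofReal_mul]
    congr 1
    ring
  · rw [bf_nonpos s hu, bf_nonpos _ hu, smul_zero]

theorem bf_deriv (x : ℝ) (hx : 1 < x) (u : ℝ) :
    HasDerivAt (bf x) ((x : ℂ) * bf (x - 1) u - bf x u) u := by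
  have hR : ∀ u : ℝ, HasDerivAt (fun u : ℝ => ((Real.exp (-u) * u ^ x : ℝ) : ℂ))
      (((Real.exp (-u) * (-1) * u ^ x + Real.exp (-u) * (x * u ^ (x - 1)) : ℝ)) : ℂ) u := by
    intro u
    apply HasDerivAt.ofReal_comp
    have h1 : HasDerivAt (fun u : ℝ => Real.exp (-u)) (Real.exp (-u) * (-1)) u :=
      (hasDerivAt_neg u).exp
    have h2 : HasDerivAt (fun u : ℝ => u ^ x) (x * u ^ (x - 1)) u :=
      Real.hasDerivAt_rpow_const (Or.inr hx.le)
    exact h1.mul h2
  rcases lt_trichotomy u 0 with hu | hu | hu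
  · have h0 : (x : ℂ) * bf (x - 1) u - bf x u = 0 := by
      rw [bf_nonpos _ hu.le, bf_nonpos _ hu.le]; simp
    rw [h0]
    apply (hasDerivAt_const u (0 : ℂ)).congr_of_eventuallyEq
    filter_upwards [Iio_mem_nhds hu] with v hv
    exact bf_nonpos _ (le_of_lt hv)
  · subst hu
    have h0 : (x : ℂ) * bf (x - 1) 0 - bf x 0 = 0 := by
      rw [bf_nonpos _ le_rfl, bf_nonpos _ le_rfl]; simp
    rw [h0]
    have hL : HasDerivWithinAt (bf x) 0 (Set.Iic 0) 0 := by
      apply (hasDerivWithinAt_const (0 : ℝ) (Set.Iic 0) (0 : ℂ)).congr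
      · intro v hv; exact bf_nonpos _ hv
      · exact bf_nonpos _ le_rfl
    have hRt : HasDerivWithinAt (bf x) 0 (Set.Ici 0) 0 := by
      have h1 := (hR 0).hasDerivWithinAt (s := Set.Ici 0)
      have h2 : (((Real.exp (-0) * (-1) * (0 : ℝ) ^ x
          + Real.exp (-0) * (x * (0 : ℝ) ^ (x - 1)) : ℝ)) : ℂ) = 0 := by
        rw [Real.zero_rpow (by linarith), Real.zero_rpow (by linarith)]
        simp
      rw [h2] at h1
      apply h1.congr
      · intro v hv
        rcases eq_or_lt_of_le (Set.mem_Ici.1 hv) with h | h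
        · rw [← h, bf_nonpos _ le_rfl, Real.zero_rpow (by linarith)]; simp
        · exact bf_pos _ h
      · rw [bf_nonpos _ le_rfl, Real.zero_rpow (by linarith)]; simp
    have := hL.union hRt
    rw [Set.Iic_union_Ici] at this
    exact this.hasDerivAt univ_mem
  · have h1 := hR u
    have h2 : (((Real.exp (-u) * (-1) * u ^ x + Real.exp (-u) * (x * u ^ (x - 1)) : ℝ)) : ℂ)
        = (x : ℂ) * bf (x - 1) u - bf x u := by
      rw [bf_pos _ hu, bf_pos _ hu]
      push_cast
      ring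
    rw [h2] at h1
    apply h1.congr_of_eventuallyEq
    filter_upwards [Ioi_mem_nhds hu] with v hv
    exact bf_pos _ hv

theorem tt_re (w : ℝ) : (tt w).re = 1 := by
  simp [tt]

theorem tt_slit (w : ℝ) : tt w ∈ slitPlane := by
  rw [mem_slitPlane_iff]
  left
  rw [tt_re]
  exact one_pos

theorem tt_ne (w : ℝ) : tt w ≠ 0 := slitPlane_ne_zero (tt_slit w)

theorem tt_deriv (w : ℝ) : HasDerivAt tt (2 * π * I) w := by
  have h1 : HasDerivAt (fun w : ℝ => (((2 * Real.pi * w : ℝ)) : ℂ)) ((2 * Real.pi : ℝ) : ℂ) w := by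
    apply HasDerivAt.ofReal_comp
    simpa using (hasDerivAt_id w).const_mul (2 * Real.pi)
  have h2 : HasDerivAt tt (((2 * Real.pi : ℝ) : ℂ) * I) w := (h1.mul_const I).const_add 1
  have h3 : ((2 * Real.pi : ℝ) : ℂ) * I = 2 * π * I := by push_cast; rfl
  rwa [h3] at h2

theorem four_eq (f : ℝ → ℂ) (w : ℝ) :
    𝓕 f w = ∫ v : ℝ, cexp (((-2 * π * v * w : ℝ) : ℂ) * I) * f v := by
  rw [Real.fourier_real_eq_integral_exp_smul]
  rfl

theorem four_int (f : ℝ → ℂ) (hf : Integrable f) (w : ℝ) :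
    Integrable (fun v : ℝ => cexp (((-2 * π * v * w : ℝ) : ℂ) * I) * f v) := by
  refine hf.norm.mono' ?_ (ae_of_all _ fun v => ?_)
  · have hc : Continuous (fun v : ℝ => cexp (((-2 * π * v * w : ℝ) : ℂ) * I)) := by fun_prop
    exact hc.aestronglyMeasurable.mul hf.aestronglyMeasurable
  · rw [norm_mul, Complex.norm_exp_ofReal_mul_I, one_mul]

theorem four_lin (f g : ℝ → ℂ) (hf : Integrable f) (hg : Integrable g) (c : ℂ) (w : ℝ) :
    𝓕 (fun u => c * f u - g u) w = c * 𝓕 f w - 𝓕 g w := by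
  rw [four_eq, four_eq, four_eq, ← integral_const_mul, ← integral_sub]
  · apply integral_congr_ae
    filter_upwards with v
    ring
  · exact (four_int f hf w).const_mul c
  · exact four_int g hg w

/-- the Fourier transform -/
theorem bf_fourier (x : ℝ) (hx : 1 < x) (w : ℝ) :
    𝓕 (bf (x - 1)) w = ((Real.Gamma x : ℝ) : ℂ) * tt w ^ (-(x : ℂ)) := by
  have hi0 := bf_int (x - 1) (by linarith)
  have hi1 := bf_int x (by linarith)
  have hmul : (fun u : ℝ => u • bf (x - 1) u) = bf x := by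
    funext u
    rw [bf_mul, sub_add_cancel]
  have hd : deriv (bf x) = fun u => (x : ℂ) * bf (x - 1) u - bf x u := by
    funext u
    exact (bf_deriv x hx u).deriv
  have hid : Integrable (deriv (bf x)) := by
    rw [hd]
    exact (hi0.const_mul _).sub hi1
  -- the functional equation
  have hrel : ∀ w : ℝ, tt w * 𝓕 (bf x) w = x * 𝓕 (bf (x - 1)) w := by
    intro w
    have h1 := congrFun (Real.fourier_deriv hi1 (fun u => (bf_deriv x hx u).differentiableAt) hid) w
    have h2 : 𝓕 (deriv (bf x)) w = x * 𝓕 (bf (x - 1)) w - 𝓕 (bf x) w := by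
      rw [hd]
      exact four_lin _ _ hi0 hi1 _ w
    rw [h2] at h1
    have h3 : tt w = 1 + 2 * π * I * w := by
      unfold tt; push_cast; ring
    rw [h3]
    rw [smul_eq_mul] at h1
    linear_combination -h1
  -- the derivative
  have hder : ∀ w : ℝ, HasDerivAt (𝓕 (bf (x - 1))) (-(2 * π * I) * 𝓕 (bf x) w) w := by
    intro w
    have h1 := Real.hasDerivAt_fourier hi0 (by rw [hmul]; exact hi1) w
    have h2 : 𝓕 (fun u : ℝ => (-2 * π * I * u) • bf (x - 1) u) w
        = -(2 * π * I) * 𝓕 (bf x) w := by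
      rw [four_eq, four_eq, ← integral_const_mul]
      apply integral_congr_ae
      filter_upwards with v
      have h3 : bf x v = (v : ℂ) * bf (x - 1) v := by
        rw [← congrFun hmul v, real_smul]
      rw [h3, smul_eq_mul]
      ring
    rwa [h2] at h1
  have hconst : ∀ w : ℝ, 𝓕 (bf (x - 1)) w * tt w ^ (x : ℂ)
      = 𝓕 (bf (x - 1)) 0 * tt 0 ^ (x : ℂ) := by
    have hD : ∀ w : ℝ, HasDerivAt (fun w => 𝓕 (bf (x - 1)) w * tt w ^ (x : ℂ)) 0 w := by
      intro w
      have hc : HasDerivAt (fun w : ℝ => tt w ^ (x : ℂ))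
          ((x : ℂ) * tt w ^ ((x : ℂ) - 1) * (2 * π * I)) w := by
        have h1 := (Complex.hasStrictDerivAt_cpow_const (c := (x : ℂ)) (tt_slit w)).hasDerivAt
        exact h1.comp w (tt_deriv w)
      have h3 : tt w ^ (x : ℂ) = tt w ^ ((x : ℂ) - 1) * tt w := by
        rw [cpow_sub _ _ (tt_ne w), cpow_one, div_mul_cancel₀ _ (tt_ne w)]
      have h4 := hrel w
      have hz : -(2 * π * I) * 𝓕 (bf x) w * tt w ^ (x : ℂ)
          + 𝓕 (bf (x - 1)) w * ((x : ℂ) * tt w ^ ((x : ℂ) - 1) * (2 * π * I)) = 0 := by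
        rw [h3]
        linear_combination (-(2 * π * I) * tt w ^ ((x : ℂ) - 1)) * h4
      have h2 : HasDerivAt (fun w => 𝓕 (bf (x - 1)) w * tt w ^ (x : ℂ))
          (-(2 * π * I) * 𝓕 (bf x) w * tt w ^ (x : ℂ)
            + 𝓕 (bf (x - 1)) w * ((x : ℂ) * tt w ^ ((x : ℂ) - 1) * (2 * π * I))) w :=
        (hder w).mul hc
      rw [hz] at h2
      exact h2
    intro w
    exact is_const_of_deriv_eq_zero (fun w => (hD w).differentiableAt)
      (fun w => (hD w).deriv) w 0
  have h0 : 𝓕 (bf (x - 1)) 0 = ((Real.Gamma x : ℝ) : ℂ) := by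
    rw [four_eq]
    have h1 : ∀ v : ℝ, cexp (((-2 * π * v * 0 : ℝ) : ℂ) * I) * bf (x - 1) v = bf (x - 1) v := by
      intro v
      rw [mul_zero, ofReal_zero, zero_mul, Complex.exp_zero, one_mul]
    simp only [h1]
    rw [bf_integral _ (by linarith), sub_add_cancel]
  have ht0 : tt 0 = 1 := by simp [tt]
  have h1 := hconst w
  rw [h0, ht0, one_cpow, mul_one] at h1
  rw [← h1, mul_assoc, ← cpow_add _ _ (tt_ne w), add_neg_cancel, cpow_zero, mul_one]

theorem tt_norm_sq (w : ℝ) : 1 + w ^ 2 ≤ ‖tt w‖ ^ 2 := by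
  have h1 : ‖tt w‖ ^ 2 = 1 + (2 * Real.pi * w) ^ 2 := by
    rw [← normSq_eq_norm_sq, normSq_apply]
    simp [tt]
    ring
  rw [h1]
  have hp : 1 ≤ (2 * Real.pi) ^ 2 := by nlinarith [Real.pi_gt_three]
  nlinarith [sq_nonneg w, mul_nonneg (sub_nonneg.2 hp) (sq_nonneg w)]

theorem tt_int (x : ℝ) (hx : 1 < x) : Integrable (fun w : ℝ => tt w ^ (-(x : ℂ))) := by
  have hcont : Continuous (fun w : ℝ => tt w ^ (-(x : ℂ))) := by
    have h1 : Continuous tt := by unfold tt; fun_prop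
    exact h1.cpow continuous_const (fun w => tt_slit w)
  have hb := integrable_rpow_neg_one_add_norm_sq (E := ℝ) (μ := volume) (r := x) (by simpa using hx)
  refine hb.mono' hcont.aestronglyMeasurable (ae_of_all _ fun w => ?_)
  rw [← ofReal_neg, norm_cpow_real, Real.norm_eq_abs, sq_abs]
  have hn : 0 < ‖tt w‖ := norm_pos_iff.2 (tt_ne w)
  have h1 : ‖tt w‖ ^ (-x) = (‖tt w‖ ^ 2) ^ (-x / 2) := by
    rw [← Real.rpow_natCast ‖tt w‖ 2, ← Real.rpow_mul hn.le]
    congr 1
    push_cast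
    ring
  rw [h1]
  exact Real.rpow_le_rpow_of_nonpos (by positivity) (tt_norm_sq w) (by linarith)

theorem t_Brom : S_Brom := by
  intro x hx
  have hG : Real.Gamma x ≠ 0 := (Real.Gamma_pos_of_pos (by linarith)).ne'
  have hexp : ∀ w : ℝ, cexp (tt w) = cexp 1 * cexp (((2 * Real.pi * w : ℝ) : ℂ) * I) := by
    intro w
    unfold tt
    rw [Complex.exp_add]
  have hI : Integrable (fun w : ℝ => cexp (tt w) * (tt w) ^ (-(x : ℂ))) := by
    have h1 := tt_int x hx
    refine (h1.norm.const_mul (Real.exp 1)).mono' ?_ (ae_of_all _ fun w => ?_)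
    · have hc : Continuous (fun w : ℝ => cexp (tt w)) := by unfold tt; fun_prop
      exact hc.aestronglyMeasurable.mul h1.aestronglyMeasurable
    · rw [norm_mul, Complex.norm_exp, tt_re]
  refine ⟨hI, ?_⟩
  have hfe : 𝓕 (bf (x - 1)) = fun w : ℝ => ((Real.Gamma x : ℝ) : ℂ) * tt w ^ (-(x : ℂ)) := by
    funext w
    exact bf_fourier x hx w
  have hinv := (bf_int (x - 1) (by linarith)).fourierInv_fourier_eq (v := (1 : ℝ))
    (by rw [hfe]; exact (tt_int x hx).const_mul _) (by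
      have h1 : ContinuousAt (fun u : ℝ => ((Real.exp (-u) * u ^ (x - 1) : ℝ) : ℂ)) 1 := by
        apply Complex.continuous_ofReal.continuousAt.comp
        apply ContinuousAt.mul
        · exact (Real.continuous_exp.comp continuous_neg).continuousAt
        · exact Real.continuousAt_rpow_const 1 _ (Or.inl one_ne_zero)
      apply h1.congr
      filter_upwards [Ioi_mem_nhds (zero_lt_one' ℝ)] with v hv
      exact (bf_pos _ hv).symm)
  rw [hfe, Real.fourierInv_eq', bf_pos _ one_pos, Real.one_rpow, mul_one] at hinv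
  have h2 : ∫ w : ℝ, cexp (tt w) * (tt w) ^ (-(x : ℂ))
      = (cexp 1 / ((Real.Gamma x : ℝ) : ℂ)) * ∫ v : ℝ,
        cexp (((2 * π * inner ℝ v (1 : ℝ) : ℝ) : ℂ) * I) •
          (((Real.Gamma x : ℝ) : ℂ) * tt v ^ (-(x : ℂ))) := by
    rw [← integral_const_mul]
    apply integral_congr_ae
    filter_upwards with v
    have hG' : ((Real.Gamma x : ℝ) : ℂ) ≠ 0 := ofReal_ne_zero.2 hG
    rw [hexp v, smul_eq_mul]
    have h3 : (inner ℝ v (1 : ℝ) : ℝ) = v := by simp
    rw [h3]
    field_simp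
  rw [h2, hinv]
  push_cast
  rw [Complex.exp_neg, one_div, div_mul_eq_mul_div, mul_inv_cancel₀ (Complex.exp_ne_zero 1)]
  simp

end Pool.Agent.H637W.MB
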