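import Pool.Agent.H637W.Spec

set_option autoImplicit false

namespace Pool.Agent.H637W.MB.F

open Complex Filter Topology MeasureTheory

theorem tt_re (w : ℝ) : (tt w).re = 1 := by simp [tt]

theorem tt_slit (w : ℝ) : tt w ∈ slitPlane := by
  left
  rw [tt_re]
  exact one_pos

theorem tt_ne (w : ℝ) : tt w ≠ 0 := slitPlane_ne_zero (tt_slit w)

theorem one_le_norm_tt (w : ℝ) : 1 ≤ ‖tt w‖ := by
  have := Complex.re_le_norm (tt w)
  rwa [tt_re] at this

theorem tt_cont : Continuous tt := by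
  unfold tt
  fun_prop

theorem cpow_cont (y : ℂ) : Continuous (fun w : ℝ => (tt w) ^ y) :=
  tt_cont.cpow continuous_const tt_slit

theorem norm_tt_cpow (w y : ℝ) : ‖(tt w) ^ ((y : ℝ) : ℂ)‖ = ‖tt w‖ ^ y :=
  Complex.norm_cpow_real (tt w) y

theorem norm_exp_tt (w : ℝ) : ‖cexp (tt w)‖ = Real.exp 1 := by
  rw [Complex.norm_exp, tt_re]

theorem arg_tt (w : ℝ) : |(tt w).arg| ≤ Real.pi / 2 :=
  Complex.abs_arg_le_pi_div_two_iff.2 (by rw [tt_re]; exact zero_le_one)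

/-- the sector bound -/
theorem re_bound {δ : ℝ} (h0 : 0 < δ) (h1 : δ < 1) (w : ℝ) :
    Real.cos (δ * (Real.pi / 2)) * ‖(tt w) ^ (-(δ : ℂ))‖ ≤ ((tt w) ^ (-(δ : ℂ))).re := by
  have e : (tt w) ^ (-(δ : ℂ)) = cexp (Complex.log (tt w) * (-(δ : ℂ))) :=
    Complex.cpow_def_of_ne_zero (tt_ne w) _
  have him : (Complex.log (tt w) * (-(δ : ℂ))).im = -(δ * (tt w).arg) := by
    simp [Complex.mul_im, Complex.log_im, Complex.log_re]
    ring
  rw [e, Complex.norm_exp, Complex.exp_re, him, Real.cos_neg, mul_comm]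
  apply mul_le_mul_of_nonneg_left _ (Real.exp_pos _).le
  rw [← Real.cos_abs (δ * (tt w).arg), abs_mul, abs_of_pos h0]
  have ha := arg_tt w
  have hp := Real.pi_pos
  apply Real.cos_le_cos_of_nonneg_of_le_pi (by positivity)
  · nlinarith
  · exact mul_le_mul_of_nonneg_left ha h0.le

theorem cos_pos' {δ : ℝ} (h0 : 0 < δ) (h1 : δ < 1) : 0 < Real.cos (δ * (Real.pi / 2)) := by
  have hp := Real.pi_pos
  apply Real.cos_pos_of_mem_Ioo
  constructor
  · nlinarith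
  · nlinarith

theorem log_tt_cpow {δ : ℝ} (h0 : 0 < δ) (h1 : δ < 1) (w : ℝ) :
    Complex.log ((tt w) ^ (-(δ : ℂ))) = Complex.log (tt w) * (-(δ : ℂ)) := by
  have e : (tt w) ^ (-(δ : ℂ)) = cexp (Complex.log (tt w) * (-(δ : ℂ))) :=
    Complex.cpow_def_of_ne_zero (tt_ne w) _
  have him : (Complex.log (tt w) * (-(δ : ℂ))).im = -(δ * (tt w).arg) := by
    simp [Complex.mul_im, Complex.log_im, Complex.log_re]
    ring
  have ha := abs_le.1 (arg_tt w)
  have hp := Real.pi_pos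
  rw [e, Complex.log_exp]
  · rw [him]
    nlinarith [ha.1, ha.2]
  · rw [him]
    nlinarith [ha.1, ha.2]

theorem KK_cont {a b : ℝ} (ha : 0 < a) (hb : 0 < b) : Continuous (KK a b) := by
  unfold KK
  apply intervalIntegral.continuous_parametric_intervalIntegral_of_continuous'
  apply Complex.continuous_exp.comp
  apply Continuous.neg
  apply Continuous.mul continuous_fst
  apply Complex.continuous_ofReal.comp
  exact (continuous_snd.rpow_const fun _ => Or.inr ha.le).mul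
    ((continuous_const.sub continuous_snd).rpow_const fun _ => Or.inr hb.le)

/-- the integrand of the representation -/
noncomputable def FF (a b δ β r : ℝ) (w s : ℝ) : ℂ :=
  ((s * (1 - s) ^ (β - 1) : ℝ) : ℂ) * (cexp (tt w) * (tt w) ^ (-(β : ℂ))) *
    KK a b ((r : ℂ) * (((s ^ (a + b) * (1 - s) ^ δ : ℝ) : ℂ) * (tt w) ^ (-(δ : ℂ))))

theorem FF_cont {a b δ β : ℝ} (ha : 0 < a) (hb : 0 < b) (hδ : 0 < δ) (hβ : 1 < β) (r : ℝ) :
    Continuous (Function.uncurry (FF a b δ β r)) := by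
  unfold FF Function.uncurry
  apply Continuous.mul
  · apply Continuous.mul
    · apply Complex.continuous_ofReal.comp
      exact continuous_snd.mul
        ((continuous_const.sub continuous_snd).rpow_const fun _ => Or.inr (by linarith))
    · exact (Complex.continuous_exp.comp (tt_cont.comp continuous_fst)).mul
        ((cpow_cont _).comp continuous_fst)
  · apply (KK_cont ha hb).comp
    apply Continuous.mul continuous_const
    apply Continuous.mul
    · apply Complex.continuous_ofReal.comp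
      exact (continuous_snd.rpow_const fun _ => Or.inr (by linarith)).mul
        ((continuous_const.sub continuous_snd).rpow_const fun _ => Or.inr hδ.le)
    · exact (cpow_cont _).comp continuous_fst

/-- the limit weight -/
noncomputable def AA (a b δ β : ℝ) (s : ℝ) : ℝ := s ^ (-(b / a)) * (1 - s) ^ (β - δ / a - 1)

theorem AA_int {a b δ β : ℝ} (ha : 0 < a) (hba : b < a) (hβ : 1 + δ / a < β) :
    IntervalIntegrable (AA a b δ β) volume 0 1 := by
  unfold AA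
  apply IntervalIntegrable.mul_continuousOn
  · apply intervalIntegral.intervalIntegrable_rpow'
    have : b / a < 1 := (div_lt_one ha).2 hba
    linarith
  · apply Continuous.continuousOn
    exact (continuous_const.sub continuous_id).rpow_const fun _ => Or.inr (by linarith)

theorem AA_pos {a b δ β : ℝ} (ha : 0 < a) (hba : b < a) (hβ : 1 + δ / a < β) :
    0 < ∫ s in (0 : ℝ)..1, AA a b δ β s := by
  apply intervalIntegral.intervalIntegral_pos_of_pos_on (AA_int ha hba hβ) _ one_pos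
  intro s hs
  unfold AA
  have h1 : 0 < s := hs.1
  have h2 : 0 < 1 - s := by linarith [hs.2]
  positivity

theorem algebra1 {a b δ β s : ℝ} (ha : 0 < a) (hs : 0 < s) (hs1 : 0 < 1 - s) :
    s * (1 - s) ^ (β - 1) * (s ^ (a + b) * (1 - s) ^ δ) ^ (-(1 / a)) = AA a b δ β s := by
  unfold AA
  rw [Real.mul_rpow (by positivity) (by positivity), ← Real.rpow_mul hs.le,
    ← Real.rpow_mul hs1.le]
  have e1 : s * s ^ ((a + b) * -(1 / a)) = s ^ (-(b / a)) := by
    nth_rewrite 1 [← Real.rpow_one s]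
    rw [← Real.rpow_add hs]
    congr 1
    field_simp
    ring
  have e2 : (1 - s) ^ (β - 1) * (1 - s) ^ (δ * -(1 / a)) = (1 - s) ^ (β - δ / a - 1) := by
    rw [← Real.rpow_add hs1]
    congr 1
    ring
  rw [← e1, ← e2]
  ring

/-- pointwise limit -/
theorem pw_lim (h2 : S_K2) {a b δ β : ℝ} (hb : 0 < b) (hba : b < a) (hδ : 0 < δ) (hδ1 : δ < 1)
    (w : ℝ) {s : ℝ} (hs : 0 < s) (hs1 : s < 1) :
    Tendsto (fun r : ℝ => ((r ^ (1 / a) : ℝ) : ℂ) * FF a b δ β r w s) atTop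
      (𝓝 (((AA a b δ β s : ℝ) : ℂ) * (cexp (tt w) * (tt w) ^ (-((β - δ / a : ℝ) : ℂ)) *
        ((Real.Gamma (1 + 1 / a) : ℝ) : ℂ)))) := by
  have ha : 0 < a := by linarith
  have hs1' : 0 < 1 - s := by linarith
  set ρ : ℝ := s ^ (a + b) * (1 - s) ^ δ with hρ
  have hρ0 : 0 < ρ := by positivity
  set ζ : ℂ := (ρ : ℂ) * (tt w) ^ (-(δ : ℂ)) with hζ
  have hre : 0 < ((tt w) ^ (-(δ : ℂ))).re := by
    refine lt_of_lt_of_le ?_ (re_bound hδ hδ1 w)
    apply mul_pos (cos_pos' hδ hδ1)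
    rw [norm_pos_iff]
    exact (Complex.cpow_ne_zero_iff_of_exponent_ne_zero (by
      rw [neg_ne_zero]
      exact_mod_cast hδ.ne')).2 (tt_ne w)
  have hζre : 0 < ζ.re := by
    rw [hζ, Complex.re_ofReal_mul]
    positivity
  have h3 := h2 a b hb hba ζ hζre
  have hne : (tt w) ^ (-(δ : ℂ)) ≠ 0 := by
    intro h
    rw [h] at hre
    simp at hre
  have hζne : ζ ≠ 0 := mul_ne_zero (by exact_mod_cast hρ0.ne') hne
  have e : ζ ^ (((-(1 / a) : ℝ)) : ℂ) = ((ρ ^ (-(1 / a)) : ℝ) : ℂ) * (tt w) ^ (((δ / a : ℝ)) : ℂ) := by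
    rw [Complex.cpow_def_of_ne_zero hζne, hζ, Complex.log_ofReal_mul hρ0 hne,
      log_tt_cpow hδ hδ1, Complex.cpow_def_of_ne_zero (tt_ne w), Complex.ofReal_cpow hρ0.le,
      Complex.cpow_def_of_ne_zero (by exact_mod_cast hρ0.ne'), ← Complex.exp_add,
      Complex.ofReal_log hρ0.le]
    congr 1
    push_cast
    ring
  have h4 := h3.const_mul (((s * (1 - s) ^ (β - 1) : ℝ) : ℂ) *
    (cexp (tt w) * (tt w) ^ (-(β : ℂ))))
  rw [e] at h4
  have e5 : ((s * (1 - s) ^ (β - 1) : ℝ) : ℂ) * (cexp (tt w) * (tt w) ^ (-(β : ℂ))) *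
      (((ρ ^ (-(1 / a)) : ℝ) : ℂ) * (tt w) ^ (((δ / a : ℝ)) : ℂ) *
        ((Real.Gamma (1 + 1 / a) : ℝ) : ℂ)) =
      ((AA a b δ β s : ℝ) : ℂ) * (cexp (tt w) * (tt w) ^ (-((β - δ / a : ℝ) : ℂ)) *
        ((Real.Gamma (1 + 1 / a) : ℝ) : ℂ)) := by
    have e6 : (tt w) ^ (-((β - δ / a : ℝ) : ℂ)) =
        (tt w) ^ (-(β : ℂ)) * (tt w) ^ (((δ / a : ℝ)) : ℂ) := by
      rw [← Complex.cpow_add _ _ (tt_ne w)]
      congr 1
      push_cast
      ring
    rw [e6, ← algebra1 (b := b) (δ := δ) (β := β) ha hs hs1']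
    push_cast
    ring
  rw [e5] at h4
  refine h4.congr fun r => ?_
  unfold FF
  ring

/-- the bound -/
theorem pw_bound {a b δ β c₀ K₁ : ℝ} (hb : 0 < b) (hba : b < a) (hδ : 0 < δ) (hδ1 : δ < 1)
    (hc₀ : c₀ = Real.cos (δ * (Real.pi / 2)))
    (hK : ∀ ζ : ℂ, c₀ * ‖ζ‖ ≤ ζ.re → ‖ζ‖ ^ (1 / a) * ‖KK a b ζ‖ ≤ K₁) {r : ℝ} (hr : 0 < r)
    (w : ℝ) {s : ℝ} (hs : 0 < s) (hs1 : s < 1) :
    ‖((r ^ (1 / a) : ℝ) : ℂ) * FF a b δ β r w s‖ ≤
      AA a b δ β s * (K₁ * ‖cexp (tt w) * (tt w) ^ (-((β - δ / a : ℝ) : ℂ))‖) := by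
  have ha : 0 < a := by linarith
  have hs1' : 0 < 1 - s := by linarith
  set ρ : ℝ := s ^ (a + b) * (1 - s) ^ δ with hρ
  have hρ0 : 0 < ρ := by positivity
  set T : ℝ := ‖tt w‖ with hT
  have hT1 : 1 ≤ T := one_le_norm_tt w
  have hT0 : 0 < T := by linarith
  have hnd : ‖(tt w) ^ (-(δ : ℂ))‖ = T ^ (-δ) := by
    have := norm_tt_cpow w (-δ)
    rw [← this]
    congr 2
    push_cast
    ring
  have hnb : ‖(tt w) ^ (-(β : ℂ))‖ = T ^ (-β) := by
    have := norm_tt_cpow w (-β)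
    rw [← this]
    congr 2
    push_cast
    ring
  have hnx : ‖(tt w) ^ (-((β - δ / a : ℝ) : ℂ))‖ = T ^ (-(β - δ / a)) := by
    have := norm_tt_cpow w (-(β - δ / a))
    rw [← this]
    congr 2
    push_cast
    ring
  set ζ : ℂ := (r : ℂ) * ((ρ : ℂ) * (tt w) ^ (-(δ : ℂ))) with hζ
  have hnζ : ‖ζ‖ = r * (ρ * T ^ (-δ)) := by
    rw [hζ, norm_mul, norm_mul, hnd, Complex.norm_real, Complex.norm_real,
      Real.norm_of_nonneg hr.le, Real.norm_of_nonneg hρ0.le]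
  have hζre : c₀ * ‖ζ‖ ≤ ζ.re := by
    have h1 := re_bound hδ hδ1 w
    rw [← hc₀, hnd] at h1
    rw [hnζ, hζ, Complex.re_ofReal_mul, Complex.re_ofReal_mul]
    calc c₀ * (r * (ρ * T ^ (-δ))) = r * (ρ * (c₀ * T ^ (-δ))) := by ring
      _ ≤ r * (ρ * ((tt w) ^ (-(δ : ℂ))).re) := by gcongr
  have h5 := hK ζ hζre
  rw [hnζ, Real.mul_rpow hr.le (by positivity)] at h5
  have hTd : 0 < T ^ (-δ) := by positivity
  have hρT : 0 < (ρ * T ^ (-δ)) ^ (1 / a) := by positivity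
  have h6 : r ^ (1 / a) * ‖KK a b ζ‖ ≤ K₁ * (ρ ^ (-(1 / a)) * T ^ (δ / a)) := by
    have e7 : (ρ * T ^ (-δ)) ^ (1 / a) * (ρ ^ (-(1 / a)) * T ^ (δ / a)) = 1 := by
      rw [Real.mul_rpow hρ0.le hTd.le, ← Real.rpow_mul hT0.le]
      calc ρ ^ (1 / a) * T ^ (-δ * (1 / a)) * (ρ ^ (-(1 / a)) * T ^ (δ / a))
          = (ρ ^ (1 / a) * ρ ^ (-(1 / a))) * (T ^ (-δ * (1 / a)) * T ^ (δ / a)) := by ring
        _ = 1 := by
          rw [← Real.rpow_add hρ0, ← Real.rpow_add hT0, add_neg_cancel, Real.rpow_zero,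
            show -δ * (1 / a) + δ / a = 0 by ring, Real.rpow_zero, one_mul]
    have hpos : 0 < ρ ^ (-(1 / a)) * T ^ (δ / a) := by positivity
    calc r ^ (1 / a) * ‖KK a b ζ‖
        = (r ^ (1 / a) * (ρ * T ^ (-δ)) ^ (1 / a) * ‖KK a b ζ‖) *
            (ρ ^ (-(1 / a)) * T ^ (δ / a)) := by
          calc r ^ (1 / a) * ‖KK a b ζ‖ = r ^ (1 / a) * ‖KK a b ζ‖ * 1 := by ring
            _ = r ^ (1 / a) * ‖KK a b ζ‖ *
                ((ρ * T ^ (-δ)) ^ (1 / a) * (ρ ^ (-(1 / a)) * T ^ (δ / a))) := by rw [e7]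
            _ = _ := by ring
      _ ≤ K₁ * (ρ ^ (-(1 / a)) * T ^ (δ / a)) := mul_le_mul_of_nonneg_right h5 hpos.le
  have hs2 : 0 < s * (1 - s) ^ (β - 1) := by positivity
  have e8 : ‖((r ^ (1 / a) : ℝ) : ℂ) * FF a b δ β r w s‖ =
      (s * (1 - s) ^ (β - 1)) * (Real.exp 1 * T ^ (-β)) * (r ^ (1 / a) * ‖KK a b ζ‖) := by
    unfold FF
    rw [norm_mul, norm_mul, norm_mul, norm_mul, hnb, norm_exp_tt, Complex.norm_real,
      Complex.norm_real, Real.norm_of_nonneg (by positivity), Real.norm_of_nonneg hs2.le]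
    ring
  rw [e8, norm_mul, hnx, norm_exp_tt, ← algebra1 (b := b) (δ := δ) (β := β) ha hs hs1']
  have e9 : T ^ (-(β - δ / a)) = T ^ (-β) * T ^ (δ / a) := by
    rw [← Real.rpow_add hT0]
    congr 1
    ring
  rw [e9]
  calc (s * (1 - s) ^ (β - 1)) * (Real.exp 1 * T ^ (-β)) * (r ^ (1 / a) * ‖KK a b ζ‖)
      ≤ (s * (1 - s) ^ (β - 1)) * (Real.exp 1 * T ^ (-β)) *
          (K₁ * (ρ ^ (-(1 / a)) * T ^ (δ / a))) :=
        mul_le_mul_of_nonneg_left h6 (by positivity)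
    _ = _ := by ring

theorem t_Fin (hB : S_Brom) (h1 : S_K1) (h2 : S_K2) (hR : S_Rep) {a b δ β : ℝ} (hb : 0 < b)
    (hba : b < a) (hδ : 0 < δ) (hδ1 : δ < 1) (hβ : 1 + δ / a < β) :
    ∃ R : ℝ, ∀ r : ℝ, R < r →
      (∑' k : ℕ, ((Real.Gamma (a * k + 1) * Real.Gamma (b * k + 1) /
        Real.Gamma ((a + b + δ) * k + (β + 1) + 1) : ℝ) : ℂ) *
        ((-(r : ℂ)) ^ k / (k.factorial : ℂ))) ≠ 0 := by
  have ha : 0 < a := by linarith
  have hda : 0 < δ / a := by positivity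
  have hβ1 : 1 < β := by linarith
  set x : ℝ := β - δ / a with hx
  have hx1 : 1 < x := by linarith
  obtain ⟨K₁, hK⟩ := h1 a b (Real.cos (δ * (Real.pi / 2))) hb hba (cos_pos' hδ hδ1)
  obtain ⟨hBi, hBv⟩ := hB x hx1
  set J : ℝ := ∫ s in (0 : ℝ)..1, AA a b δ β s with hJ
  have hJ0 : 0 < J := AA_pos ha hba hβ
  set G : ℝ := Real.Gamma (1 + 1 / a) with hG
  have hG0 : 0 < G := Real.Gamma_pos_of_pos (by positivity)
  -- the inner limit
  have hin : ∀ w : ℝ, Tendsto (fun r : ℝ => ((r ^ (1 / a) : ℝ) : ℂ) *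
      ∫ s in (0 : ℝ)..1, FF a b δ β r w s) atTop
      (𝓝 ((J : ℂ) * (cexp (tt w) * (tt w) ^ (-((x : ℝ) : ℂ)) * ((G : ℝ) : ℂ)))) := by
    intro w
    have e1 : (J : ℂ) * (cexp (tt w) * (tt w) ^ (-((x : ℝ) : ℂ)) * ((G : ℝ) : ℂ)) =
        ∫ s in (0 : ℝ)..1, ((AA a b δ β s : ℝ) : ℂ) *
          (cexp (tt w) * (tt w) ^ (-((x : ℝ) : ℂ)) * ((G : ℝ) : ℂ)) := by
      rw [intervalIntegral.integral_mul_const, intervalIntegral.integral_ofReal]
    rw [e1]
    have e2 : (fun r : ℝ => ((r ^ (1 / a) : ℝ) : ℂ) * ∫ s in (0 : ℝ)..1, FF a b δ β r w s) =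
        fun r : ℝ => ∫ s in (0 : ℝ)..1, ((r ^ (1 / a) : ℝ) : ℂ) * FF a b δ β r w s := by
      funext r
      rw [intervalIntegral.integral_const_mul]
    rw [e2]
    apply intervalIntegral.tendsto_integral_filter_of_dominated_convergence
      (fun s => AA a b δ β s * (K₁ * ‖cexp (tt w) * (tt w) ^ (-((x : ℝ) : ℂ))‖))
    · refine Eventually.of_forall fun r => ?_
      have hc : Continuous (fun s => ((r ^ (1 / a) : ℝ) : ℂ) * FF a b δ β r w s) :=
        continuous_const.mul ((FF_cont ha hb hδ hβ1 r).comp (Continuous.prodMk_right w))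
      exact hc.aestronglyMeasurable
    · filter_upwards [eventually_gt_atTop 0] with r hr
      have hne : ∀ᵐ s : ℝ, s ≠ 1 := by
        rw [ae_iff]
        simp
      filter_upwards [hne] with s hs1 hs
      rw [Set.uIoc_of_le zero_le_one] at hs
      exact pw_bound hb hba hδ hδ1 rfl hK hr w hs.1 (lt_of_le_of_ne hs.2 hs1)
    · exact (AA_int ha hba hβ).mul_const _
    · have hne : ∀ᵐ s : ℝ, s ≠ 1 := by
        rw [ae_iff]
        simp
      filter_upwards [hne] with s hs1 hs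
      rw [Set.uIoc_of_le zero_le_one] at hs
      exact pw_lim h2 hb hba hδ hδ1 w hs.1 (lt_of_le_of_ne hs.2 hs1)
  -- the outer limit
  have hout : Tendsto (fun r : ℝ => ((r ^ (1 / a) : ℝ) : ℂ) *
      ∫ w : ℝ, ∫ s in (0 : ℝ)..1, FF a b δ β r w s) atTop
      (𝓝 ((J : ℂ) * (((1 / Real.Gamma x : ℝ) : ℂ) * ((G : ℝ) : ℂ)))) := by
    have e1 : (J : ℂ) * (((1 / Real.Gamma x : ℝ) : ℂ) * ((G : ℝ) : ℂ)) =
        ∫ w : ℝ, (J : ℂ) * (cexp (tt w) * (tt w) ^ (-((x : ℝ) : ℂ)) * ((G : ℝ) : ℂ)) := by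
      rw [integral_const_mul, integral_mul_const, hBv]
    rw [e1]
    have e2 : (fun r : ℝ => ((r ^ (1 / a) : ℝ) : ℂ) *
        ∫ w : ℝ, ∫ s in (0 : ℝ)..1, FF a b δ β r w s) =
        fun r : ℝ => ∫ w : ℝ, ((r ^ (1 / a) : ℝ) : ℂ) * ∫ s in (0 : ℝ)..1, FF a b δ β r w s := by
      funext r
      rw [integral_const_mul]
    rw [e2]
    apply tendsto_integral_filter_of_dominated_convergence
      (fun w => J * (K₁ * ‖cexp (tt w) * (tt w) ^ (-((x : ℝ) : ℂ))‖))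
    · refine Eventually.of_forall fun r => ?_
      have hc : Continuous (fun w => ((r ^ (1 / a) : ℝ) : ℂ) *
          ∫ s in (0 : ℝ)..1, FF a b δ β r w s) :=
        continuous_const.mul
          (intervalIntegral.continuous_parametric_intervalIntegral_of_continuous'
            (FF_cont ha hb hδ hβ1 r) 0 1)
      exact hc.aestronglyMeasurable
    · filter_upwards [eventually_gt_atTop 0] with r hr
      refine Eventually.of_forall fun w => ?_
      rw [← intervalIntegral.integral_const_mul]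
      have h7 : ‖∫ s in (0 : ℝ)..1, ((r ^ (1 / a) : ℝ) : ℂ) * FF a b δ β r w s‖ ≤
          ∫ s in (0 : ℝ)..1, AA a b δ β s * (K₁ * ‖cexp (tt w) * (tt w) ^ (-((x : ℝ) : ℂ))‖) := by
        apply intervalIntegral.norm_integral_le_of_norm_le zero_le_one
        · have hne : ∀ᵐ s : ℝ, s ≠ 1 := by
            rw [ae_iff]
            simp
          filter_upwards [hne] with s hs1 hs
          exact pw_bound hb hba hδ hδ1 rfl hK hr w hs.1 (lt_of_le_of_ne hs.2 hs1)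
        · exact (AA_int ha hba hβ).mul_const _
      rw [intervalIntegral.integral_mul_const] at h7
      exact h7
    · exact ((hBi.norm.const_mul K₁).const_mul J)
    · exact Eventually.of_forall fun w => hin w
  -- conclusion
  have hΓx : 0 < Real.Gamma x := Real.Gamma_pos_of_pos (by linarith)
  have hCne : (J : ℂ) * (((1 / Real.Gamma x : ℝ) : ℂ) * ((G : ℝ) : ℂ)) ≠ 0 := by
    have : (0 : ℝ) < J * (1 / Real.Gamma x * G) := by positivity
    exact_mod_cast this.ne'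
  have hev := hout.eventually_ne hCne
  obtain ⟨R, hR'⟩ := eventually_atTop.1 hev
  refine ⟨max R 0, fun r hr => ?_⟩
  have hr0 : 0 < r := lt_of_le_of_lt (le_max_right _ _) hr
  rw [hR a b δ β r ha hb hδ hδ1 hβ1 hr0.le]
  have h8 := hR' r (le_of_lt (lt_of_le_of_lt (le_max_left _ _) hr))
  intro h9
  apply h8
  show ((r ^ (1 / a) : ℝ) : ℂ) * ∫ w : ℝ, ∫ s in (0 : ℝ)..1, FF a b δ β r w s = 0
  unfold FF
  rw [h9, mul_zero]

end Pool.Agent.H637W.MB.F
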