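import Pool.Agent.H637W.Spec2
import Pool.Agent.H637W.Fin

set_option autoImplicit false

namespace Pool.Agent.H637W.MB.F

open Complex Filter Topology MeasureTheory

/-- `e^{iφ} t^{-δ}` as an exponential -/
theorem q_exp (δ φ w : ℝ) : cexp (φ * I) * (tt w) ^ (-(δ : ℂ)) =
    cexp (φ * I + Complex.log (tt w) * (-(δ : ℂ))) := by
  rw [Complex.cpow_def_of_ne_zero (tt_ne w), Complex.exp_add]

theorem q_im (δ φ w : ℝ) : (φ * I + Complex.log (tt w) * (-(δ : ℂ))).im = φ - δ * (tt w).arg := by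
  simp [Complex.mul_im, Complex.log_im, Complex.log_re]
  ring

theorem q_abs {δ φ η : ℝ} (h0 : 0 < δ) (hφ : |φ| ≤ η) (w : ℝ) :
    |φ - δ * (tt w).arg| ≤ δ * (Real.pi / 2) + η := by
  have ha := arg_tt w
  calc |φ - δ * (tt w).arg| ≤ |φ| + |δ * (tt w).arg| := abs_sub _ _
    _ ≤ η + δ * (Real.pi / 2) := by
        rw [abs_mul, abs_of_pos h0]
        gcongr
    _ = _ := by ring

theorem norm_q (δ φ w : ℝ) : ‖cexp (φ * I) * (tt w) ^ (-(δ : ℂ))‖ = ‖(tt w) ^ (-(δ : ℂ))‖ := by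
  rw [norm_mul, Complex.norm_exp_ofReal_mul_I, one_mul]

theorem re_boundC {δ φ η : ℝ} (h0 : 0 < δ) (hφ : |φ| ≤ η) (hη : δ * (Real.pi / 2) + η < Real.pi / 2)
    (w : ℝ) : Real.cos (δ * (Real.pi / 2) + η) * ‖(tt w) ^ (-(δ : ℂ))‖ ≤
      (cexp (φ * I) * (tt w) ^ (-(δ : ℂ))).re := by
  rw [← norm_q δ φ w, q_exp, Complex.norm_exp, Complex.exp_re, q_im, mul_comm]
  apply mul_le_mul_of_nonneg_left _ (Real.exp_pos _).le
  rw [← Real.cos_abs (φ - δ * (tt w).arg)]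
  have hp := Real.pi_pos
  apply Real.cos_le_cos_of_nonneg_of_le_pi (abs_nonneg _) (by linarith) (q_abs h0 hφ w)

theorem log_q {δ φ η : ℝ} (h0 : 0 < δ) (hφ : |φ| ≤ η) (hη : δ * (Real.pi / 2) + η < Real.pi / 2)
    (w : ℝ) : Complex.log (cexp (φ * I) * (tt w) ^ (-(δ : ℂ))) =
      φ * I + Complex.log (tt w) * (-(δ : ℂ)) := by
  have h1 := abs_le.1 (q_abs h0 hφ w)
  have hp := Real.pi_pos
  rw [q_exp, Complex.log_exp]
  · rw [q_im]
    linarith [h1.1]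
  · rw [q_im]
    linarith [h1.2]

/-- the integrand of the representation, complex version -/
noncomputable def FC (a b δ β : ℝ) (z : ℂ) (w s : ℝ) : ℂ :=
  ((s * (1 - s) ^ (β - 1) : ℝ) : ℂ) * (cexp (tt w) * (tt w) ^ (-(β : ℂ))) *
    KK a b (z * (((s ^ (a + b) * (1 - s) ^ δ : ℝ) : ℂ) * (tt w) ^ (-(δ : ℂ))))

theorem FC_cont {a b δ β : ℝ} (ha : 0 < a) (hb : 0 < b) (hδ : 0 < δ) (hβ : 1 < β) (z : ℂ) :
    Continuous (Function.uncurry (FC a b δ β z)) := by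
  unfold FC Function.uncurry
  apply Continuous.mul
  · apply Continuous.mul
    · apply Complex.continuous_ofReal.comp
      exact continuous_snd.mul
        ((continuous_const.sub continuous_snd).rpow_const fun _ => Or.inr (by linarith))
    · exact (Complex.continuous_exp.comp (tt_cont.comp continuous_fst)).mul
        ((cpow_cont _).comp continuous_fst)
  · apply (KK_cont ha hb).comp
    apply Continuous.mul continuous_const
    apply Continuous.mul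
    · apply Complex.continuous_ofReal.comp
      exact (continuous_snd.rpow_const fun _ => Or.inr (by linarith)).mul
        ((continuous_const.sub continuous_snd).rpow_const fun _ => Or.inr hδ.le)
    · exact (cpow_cont _).comp continuous_fst

/-- pointwise limit -/
theorem pwC_lim (h2 : S_K2) {a b δ β φ η : ℝ} (hb : 0 < b) (hba : b < a) (hδ : 0 < δ)
    (hφ : |φ| ≤ η) (hη : δ * (Real.pi / 2) + η < Real.pi / 2)
    (w : ℝ) {s : ℝ} (hs : 0 < s) (hs1 : s < 1) :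
    Tendsto (fun R : ℝ => ((R ^ (1 / a) : ℝ) : ℂ) * FC a b δ β ((R : ℂ) * cexp (φ * I)) w s) atTop
      (𝓝 (((AA a b δ β s : ℝ) : ℂ) * (cexp (tt w) * (tt w) ^ (-((β - δ / a : ℝ) : ℂ)) *
        (((Real.Gamma (1 + 1 / a) : ℝ) : ℂ) * cexp (-((1 / a : ℝ) * φ * I)))))) := by
  have ha : 0 < a := by linarith
  have hs1' : 0 < 1 - s := by linarith
  set ρ : ℝ := s ^ (a + b) * (1 - s) ^ δ with hρ
  have hρ0 : 0 < ρ := by positivity
  set q : ℂ := cexp (φ * I) * (tt w) ^ (-(δ : ℂ)) with hq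
  set ζ : ℂ := (ρ : ℂ) * q with hζ
  have hp := Real.pi_pos
  have hη0 : 0 ≤ η := le_trans (abs_nonneg _) hφ
  have hcos : 0 < Real.cos (δ * (Real.pi / 2) + η) := by
    apply Real.cos_pos_of_mem_Ioo
    constructor
    · have : 0 < δ * (Real.pi / 2) := by positivity
      linarith
    · exact hη
  have hre : 0 < q.re := by
    refine lt_of_lt_of_le ?_ (re_boundC hδ hφ hη w)
    apply mul_pos hcos
    rw [norm_pos_iff]
    exact (Complex.cpow_ne_zero_iff_of_exponent_ne_zero (by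
      rw [neg_ne_zero]
      exact_mod_cast hδ.ne')).2 (tt_ne w)
  have hζre : 0 < ζ.re := by
    rw [hζ, Complex.re_ofReal_mul]
    positivity
  have h3 := h2 a b hb hba ζ hζre
  have hne : q ≠ 0 := by
    intro h
    rw [h] at hre
    simp at hre
  have hζne : ζ ≠ 0 := mul_ne_zero (by exact_mod_cast hρ0.ne') hne
  have e : ζ ^ (((-(1 / a) : ℝ)) : ℂ) = ((ρ ^ (-(1 / a)) : ℝ) : ℂ) *
      ((tt w) ^ (((δ / a : ℝ)) : ℂ) * cexp (-((1 / a : ℝ) * φ * I))) := by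
    rw [Complex.cpow_def_of_ne_zero hζne, hζ, Complex.log_ofReal_mul hρ0 hne, hq,
      log_q hδ hφ hη, Complex.cpow_def_of_ne_zero (tt_ne w), Complex.ofReal_cpow hρ0.le,
      Complex.cpow_def_of_ne_zero (by exact_mod_cast hρ0.ne'), ← Complex.exp_add,
      ← Complex.exp_add, Complex.ofReal_log hρ0.le]
    congr 1
    push_cast
    ring
  have h4 := h3.const_mul (((s * (1 - s) ^ (β - 1) : ℝ) : ℂ) *
    (cexp (tt w) * (tt w) ^ (-(β : ℂ))))
  rw [e] at h4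
  have e5 : ((s * (1 - s) ^ (β - 1) : ℝ) : ℂ) * (cexp (tt w) * (tt w) ^ (-(β : ℂ))) *
      (((ρ ^ (-(1 / a)) : ℝ) : ℂ) *
      ((tt w) ^ (((δ / a : ℝ)) : ℂ) * cexp (-((1 / a : ℝ) * φ * I))) *
        ((Real.Gamma (1 + 1 / a) : ℝ) : ℂ)) =
      ((AA a b δ β s : ℝ) : ℂ) * (cexp (tt w) * (tt w) ^ (-((β - δ / a : ℝ) : ℂ)) *
        (((Real.Gamma (1 + 1 / a) : ℝ) : ℂ) * cexp (-((1 / a : ℝ) * φ * I)))) := by
    have e6 : (tt w) ^ (-((β - δ / a : ℝ) : ℂ)) =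
        (tt w) ^ (-(β : ℂ)) * (tt w) ^ (((δ / a : ℝ)) : ℂ) := by
      rw [← Complex.cpow_add _ _ (tt_ne w)]
      congr 1
      push_cast
      ring
    rw [e6, ← algebra1 (b := b) (δ := δ) (β := β) ha hs hs1']
    push_cast
    ring
  rw [e5] at h4
  refine h4.congr fun R => ?_
  unfold FC
  rw [show (R : ℂ) * cexp (φ * I) * (((s ^ (a + b) * (1 - s) ^ δ : ℝ) : ℂ) *
    (tt w) ^ (-(δ : ℂ))) = (R : ℂ) * ζ by rw [hζ, hq, hρ]; ring]
  ring

/-- the bound -/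
theorem pwC_bound {a b δ β c₀ K₁ φ η : ℝ} (hb : 0 < b) (hba : b < a) (hδ : 0 < δ)
    (hφ : |φ| ≤ η) (hη : δ * (Real.pi / 2) + η < Real.pi / 2)
    (hc₀ : c₀ = Real.cos (δ * (Real.pi / 2) + η))
    (hK : ∀ ζ : ℂ, c₀ * ‖ζ‖ ≤ ζ.re → ‖ζ‖ ^ (1 / a) * ‖KK a b ζ‖ ≤ K₁) {r : ℝ} (hr : 0 < r)
    (w : ℝ) {s : ℝ} (hs : 0 < s) (hs1 : s < 1) :
    ‖((r ^ (1 / a) : ℝ) : ℂ) * FC a b δ β ((r : ℂ) * cexp (φ * I)) w s‖ ≤
      AA a b δ β s * (K₁ * ‖cexp (tt w) * (tt w) ^ (-((β - δ / a : ℝ) : ℂ))‖) := by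
  have ha : 0 < a := by linarith
  have hs1' : 0 < 1 - s := by linarith
  set ρ : ℝ := s ^ (a + b) * (1 - s) ^ δ with hρ
  have hρ0 : 0 < ρ := by positivity
  set T : ℝ := ‖tt w‖ with hT
  have hT1 : 1 ≤ T := one_le_norm_tt w
  have hT0 : 0 < T := by linarith
  have hnd : ‖(tt w) ^ (-(δ : ℂ))‖ = T ^ (-δ) := by
    have := norm_tt_cpow w (-δ)
    rw [← this]
    congr 2
    push_cast
    ring
  have hnb : ‖(tt w) ^ (-(β : ℂ))‖ = T ^ (-β) := by
    have := norm_tt_cpow w (-β)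
    rw [← this]
    congr 2
    push_cast
    ring
  have hnx : ‖(tt w) ^ (-((β - δ / a : ℝ) : ℂ))‖ = T ^ (-(β - δ / a)) := by
    have := norm_tt_cpow w (-(β - δ / a))
    rw [← this]
    congr 2
    push_cast
    ring
  set q : ℂ := cexp (φ * I) * (tt w) ^ (-(δ : ℂ)) with hq
  have hnq : ‖q‖ = T ^ (-δ) := by rw [hq, norm_q, hnd]
  set ζ : ℂ := (r : ℂ) * ((ρ : ℂ) * q) with hζ
  have hnζ : ‖ζ‖ = r * (ρ * T ^ (-δ)) := by
    rw [hζ, norm_mul, norm_mul, hnq, Complex.norm_real, Complex.norm_real,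
      Real.norm_of_nonneg hr.le, Real.norm_of_nonneg hρ0.le]
  have hζre : c₀ * ‖ζ‖ ≤ ζ.re := by
    have h1 := re_boundC hδ hφ hη w
    rw [← hc₀, hnd, ← hq] at h1
    rw [hnζ, hζ, Complex.re_ofReal_mul, Complex.re_ofReal_mul]
    calc c₀ * (r * (ρ * T ^ (-δ))) = r * (ρ * (c₀ * T ^ (-δ))) := by ring
      _ ≤ r * (ρ * q.re) := by gcongr
  have h5 := hK ζ hζre
  rw [hnζ, Real.mul_rpow hr.le (by positivity)] at h5
  have hTd : 0 < T ^ (-δ) := by positivity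
  have hρT : 0 < (ρ * T ^ (-δ)) ^ (1 / a) := by positivity
  have h6 : r ^ (1 / a) * ‖KK a b ζ‖ ≤ K₁ * (ρ ^ (-(1 / a)) * T ^ (δ / a)) := by
    have e7 : (ρ * T ^ (-δ)) ^ (1 / a) * (ρ ^ (-(1 / a)) * T ^ (δ / a)) = 1 := by
      rw [Real.mul_rpow hρ0.le hTd.le, ← Real.rpow_mul hT0.le]
      calc ρ ^ (1 / a) * T ^ (-δ * (1 / a)) * (ρ ^ (-(1 / a)) * T ^ (δ / a))
          = (ρ ^ (1 / a) * ρ ^ (-(1 / a))) * (T ^ (-δ * (1 / a)) * T ^ (δ / a)) := by ring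
        _ = 1 := by
          rw [← Real.rpow_add hρ0, ← Real.rpow_add hT0, add_neg_cancel, Real.rpow_zero,
            show -δ * (1 / a) + δ / a = 0 by ring, Real.rpow_zero, one_mul]
    have hpos : 0 < ρ ^ (-(1 / a)) * T ^ (δ / a) := by positivity
    calc r ^ (1 / a) * ‖KK a b ζ‖
        = (r ^ (1 / a) * (ρ * T ^ (-δ)) ^ (1 / a) * ‖KK a b ζ‖) *
            (ρ ^ (-(1 / a)) * T ^ (δ / a)) := by
          calc r ^ (1 / a) * ‖KK a b ζ‖ = r ^ (1 / a) * ‖KK a b ζ‖ * 1 := by ring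
            _ = r ^ (1 / a) * ‖KK a b ζ‖ *
                ((ρ * T ^ (-δ)) ^ (1 / a) * (ρ ^ (-(1 / a)) * T ^ (δ / a))) := by rw [e7]
            _ = _ := by ring
      _ ≤ K₁ * (ρ ^ (-(1 / a)) * T ^ (δ / a)) := mul_le_mul_of_nonneg_right h5 hpos.le
  have hs2 : 0 < s * (1 - s) ^ (β - 1) := by positivity
  have eζ : (r : ℂ) * cexp (φ * I) * (((s ^ (a + b) * (1 - s) ^ δ : ℝ) : ℂ) *
    (tt w) ^ (-(δ : ℂ))) = ζ := by rw [hζ, hq, hρ]; ring
  have e8 : ‖((r ^ (1 / a) : ℝ) : ℂ) * FC a b δ β ((r : ℂ) * cexp (φ * I)) w s‖ =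
      (s * (1 - s) ^ (β - 1)) * (Real.exp 1 * T ^ (-β)) * (r ^ (1 / a) * ‖KK a b ζ‖) := by
    unfold FC
    rw [eζ, norm_mul, norm_mul, norm_mul, norm_mul, hnb, norm_exp_tt, Complex.norm_real,
      Complex.norm_real, Real.norm_of_nonneg (by positivity), Real.norm_of_nonneg hs2.le]
    ring
  rw [e8, norm_mul, hnx, norm_exp_tt, ← algebra1 (b := b) (δ := δ) (β := β) ha hs hs1']
  have e9 : T ^ (-(β - δ / a)) = T ^ (-β) * T ^ (δ / a) := by
    rw [← Real.rpow_add hT0]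
    congr 1
    ring
  rw [e9]
  calc (s * (1 - s) ^ (β - 1)) * (Real.exp 1 * T ^ (-β)) * (r ^ (1 / a) * ‖KK a b ζ‖)
      ≤ (s * (1 - s) ^ (β - 1)) * (Real.exp 1 * T ^ (-β)) *
          (K₁ * (ρ ^ (-(1 / a)) * T ^ (δ / a))) :=
        mul_le_mul_of_nonneg_left h6 (by positivity)
    _ = _ := by ring

/-- the function -/
noncomputable def PP (a b c d : ℝ) (x : ℂ) : ℂ :=
  ∑' k : ℕ, ((Real.Gamma (a * k + 1) * Real.Gamma (b * k + 1) / Real.Gamma (c * k + d + 1) : ℝ) : ℂ) *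
    (x ^ k / (k.factorial : ℂ))

/-- asymptotics in the sector of half-angle `η` about the negative axis -/
def Asy (f : ℂ → ℂ) (σ η : ℝ) (C : ℂ) : Prop :=
  (∃ B : ℝ, ∀ R φ : ℝ, 1 ≤ R → |φ| < η → R ^ σ * ‖f (-((R : ℂ) * cexp (φ * I)))‖ ≤ B) ∧
  (∀ φ : ℝ, |φ| < η → Tendsto (fun R : ℝ => ((R ^ σ : ℝ) : ℂ) * f (-((R : ℂ) * cexp (φ * I)))) atTop
    (𝓝 (C * cexp (-(σ * φ * I)))))

theorem base (hB : S_Brom) (h1 : S_K1) (h2 : S_K2) (hR : S_RepC) {a b δ β η : ℝ} (hb : 0 < b)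
    (hba : b < a) (hδ : 0 < δ) (hδ1 : δ < 1) (hβ : 1 + δ / a < β)
    (hη0 : 0 < η) (hη : δ * (Real.pi / 2) + η < Real.pi / 2) :
    ∃ C : ℂ, C ≠ 0 ∧ Asy (PP a b (a + b + δ) (β + 1)) (1 / a) η C := by
  have ha : 0 < a := by linarith
  have hda : 0 < δ / a := by positivity
  have hβ1 : 1 < β := by linarith
  have hp := Real.pi_pos
  set x : ℝ := β - δ / a with hx
  have hx1 : 1 < x := by linarith
  have hcos : 0 < Real.cos (δ * (Real.pi / 2) + η) := by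
    apply Real.cos_pos_of_mem_Ioo
    constructor
    · have : 0 < δ * (Real.pi / 2) := by positivity
      linarith
    · exact hη
  obtain ⟨K₁, hK⟩ := h1 a b (Real.cos (δ * (Real.pi / 2) + η)) hb hba hcos
  obtain ⟨hBi, hBv⟩ := hB x hx1
  set J : ℝ := ∫ s in (0 : ℝ)..1, AA a b δ β s with hJ
  have hJ0 : 0 < J := AA_pos ha hba hβ
  set G : ℝ := Real.Gamma (1 + 1 / a) with hG
  have hG0 : 0 < G := Real.Gamma_pos_of_pos (by positivity)
  have hrep : ∀ z : ℂ, PP a b (a + b + δ) (β + 1) (-z) =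
      ∫ w : ℝ, ∫ s in (0 : ℝ)..1, FC a b δ β z w s := fun z =>
    hR a b δ β z ha hb hδ hδ1 hβ1
  have hne1 : ∀ᵐ s : ℝ, s ≠ 1 := by
    rw [ae_iff]
    simp
  -- inner bound
  have hinb : ∀ (R φ : ℝ), 0 < R → |φ| < η → ∀ w : ℝ,
      ‖((R ^ (1 / a) : ℝ) : ℂ) * ∫ s in (0 : ℝ)..1, FC a b δ β ((R : ℂ) * cexp (φ * I)) w s‖ ≤
        J * (K₁ * ‖cexp (tt w) * (tt w) ^ (-((x : ℝ) : ℂ))‖) := by
    intro R φ hR0 hφ w
    rw [← intervalIntegral.integral_const_mul]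
    have h7 : ‖∫ s in (0 : ℝ)..1, ((R ^ (1 / a) : ℝ) : ℂ) *
        FC a b δ β ((R : ℂ) * cexp (φ * I)) w s‖ ≤
        ∫ s in (0 : ℝ)..1, AA a b δ β s * (K₁ * ‖cexp (tt w) * (tt w) ^ (-((x : ℝ) : ℂ))‖) := by
      apply intervalIntegral.norm_integral_le_of_norm_le zero_le_one
      · filter_upwards [hne1] with s hs1 hs
        exact pwC_bound hb hba hδ hφ.le hη rfl hK hR0 w hs.1 (lt_of_le_of_ne hs.2 hs1)
      · exact (AA_int ha hba hβ).mul_const _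
    rw [intervalIntegral.integral_mul_const] at h7
    exact h7
  have hcontO : ∀ (R φ : ℝ), Continuous (fun w => ((R ^ (1 / a) : ℝ) : ℂ) *
      ∫ s in (0 : ℝ)..1, FC a b δ β ((R : ℂ) * cexp (φ * I)) w s) := fun R φ =>
    continuous_const.mul
      (intervalIntegral.continuous_parametric_intervalIntegral_of_continuous'
        (FC_cont ha hb hδ hβ1 _) 0 1)
  have hΓx : 0 < Real.Gamma x := Real.Gamma_pos_of_pos (by linarith)
  refine ⟨(J : ℂ) * (((1 / Real.Gamma x : ℝ) : ℂ) * (G : ℂ)), ?_, ?_, ?_⟩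
  · have : (0 : ℝ) < J * (1 / Real.Gamma x * G) := by positivity
    exact_mod_cast this.ne'
  · -- uniform bound
    refine ⟨J * (K₁ * ∫ w : ℝ, ‖cexp (tt w) * (tt w) ^ (-((x : ℝ) : ℂ))‖), fun R φ hR1 hφ => ?_⟩
    have hR0 : 0 < R := by linarith
    have e1 : R ^ (1 / a) * ‖PP a b (a + b + δ) (β + 1) (-((R : ℂ) * cexp (φ * I)))‖ =
        ‖∫ w : ℝ, ((R ^ (1 / a) : ℝ) : ℂ) *
          ∫ s in (0 : ℝ)..1, FC a b δ β ((R : ℂ) * cexp (φ * I)) w s‖ := by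
      rw [integral_const_mul, ← hrep, norm_mul, Complex.norm_real,
        Real.norm_of_nonneg (by positivity)]
    rw [e1]
    refine (norm_integral_le_of_norm_le ((hBi.norm.const_mul K₁).const_mul J)
      (Eventually.of_forall fun w => hinb R φ hR0 hφ w)).trans ?_
    rw [integral_const_mul, integral_const_mul]
  · intro φ hφ
    -- the inner limit
    have hin : ∀ w : ℝ, Tendsto (fun R : ℝ => ((R ^ (1 / a) : ℝ) : ℂ) *
        ∫ s in (0 : ℝ)..1, FC a b δ β ((R : ℂ) * cexp (φ * I)) w s) atTop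
        (𝓝 ((J : ℂ) * (cexp (tt w) * (tt w) ^ (-((x : ℝ) : ℂ)) *
          (((G : ℝ) : ℂ) * cexp (-((1 / a : ℝ) * φ * I)))))) := by
      intro w
      have e1 : (J : ℂ) * (cexp (tt w) * (tt w) ^ (-((x : ℝ) : ℂ)) *
          (((G : ℝ) : ℂ) * cexp (-((1 / a : ℝ) * φ * I)))) =
          ∫ s in (0 : ℝ)..1, ((AA a b δ β s : ℝ) : ℂ) *
            (cexp (tt w) * (tt w) ^ (-((x : ℝ) : ℂ)) *
          (((G : ℝ) : ℂ) * cexp (-((1 / a : ℝ) * φ * I)))) := by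
        rw [intervalIntegral.integral_mul_const, intervalIntegral.integral_ofReal]
      rw [e1]
      have e2 : (fun R : ℝ => ((R ^ (1 / a) : ℝ) : ℂ) *
          ∫ s in (0 : ℝ)..1, FC a b δ β ((R : ℂ) * cexp (φ * I)) w s) =
          fun R : ℝ => ∫ s in (0 : ℝ)..1, ((R ^ (1 / a) : ℝ) : ℂ) *
            FC a b δ β ((R : ℂ) * cexp (φ * I)) w s := by
        funext r
        rw [intervalIntegral.integral_const_mul]
      rw [e2]
      apply intervalIntegral.tendsto_integral_filter_of_dominated_convergence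
        (fun s => AA a b δ β s * (K₁ * ‖cexp (tt w) * (tt w) ^ (-((x : ℝ) : ℂ))‖))
      · refine Eventually.of_forall fun r => ?_
        have hc : Continuous (fun s => ((r ^ (1 / a) : ℝ) : ℂ) *
            FC a b δ β ((r : ℂ) * cexp (φ * I)) w s) :=
          continuous_const.mul ((FC_cont ha hb hδ hβ1 _).comp (Continuous.prodMk_right w))
        exact hc.aestronglyMeasurable
      · filter_upwards [eventually_gt_atTop 0] with r hr
        filter_upwards [hne1] with s hs1 hs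
        rw [Set.uIoc_of_le zero_le_one] at hs
        exact pwC_bound hb hba hδ hφ.le hη rfl hK hr w hs.1 (lt_of_le_of_ne hs.2 hs1)
      · exact (AA_int ha hba hβ).mul_const _
      · filter_upwards [hne1] with s hs1 hs
        rw [Set.uIoc_of_le zero_le_one] at hs
        exact pwC_lim h2 hb hba hδ hφ.le hη w hs.1 (lt_of_le_of_ne hs.2 hs1)
    have e1 : (J : ℂ) * (((1 / Real.Gamma x : ℝ) : ℂ) * (G : ℂ)) * cexp (-((1 / a : ℝ) * φ * I)) =
        ∫ w : ℝ, (J : ℂ) * (cexp (tt w) * (tt w) ^ (-((x : ℝ) : ℂ)) *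
          (((G : ℝ) : ℂ) * cexp (-((1 / a : ℝ) * φ * I)))) := by
      rw [integral_const_mul, integral_mul_const, hBv]
      ring
    rw [e1]
    have e2 : (fun R : ℝ => ((R ^ (1 / a) : ℝ) : ℂ) *
        PP a b (a + b + δ) (β + 1) (-((R : ℂ) * cexp (φ * I)))) =
        fun R : ℝ => ∫ w : ℝ, ((R ^ (1 / a) : ℝ) : ℂ) *
          ∫ s in (0 : ℝ)..1, FC a b δ β ((R : ℂ) * cexp (φ * I)) w s := by
      funext R
      rw [integral_const_mul, hrep]
    rw [e2]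
    apply tendsto_integral_filter_of_dominated_convergence
      (fun w => J * (K₁ * ‖cexp (tt w) * (tt w) ^ (-((x : ℝ) : ℂ))‖))
    · exact Eventually.of_forall fun r => (hcontO r φ).aestronglyMeasurable
    · filter_upwards [eventually_gt_atTop 0] with r hr
      exact Eventually.of_forall fun w => hinb r φ hr hφ w
    · exact ((hBi.norm.const_mul K₁).const_mul J)
    · exact Eventually.of_forall fun w => hin w

end Pool.Agent.H637W.MB.F
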