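import Mathlib

set_option autoImplicit false

/-! Elementary bounds for quotients of gamma values. -/

namespace Pool.Agent.H637W

open Filter Topology

theorem log_gamma_succ {y : ℝ} (hy : 0 < y) :
    (Real.log ∘ Real.Gamma) (y + 1) - (Real.log ∘ Real.Gamma) y = Real.log y := by
  simp only [Function.comp_apply]
  rw [Real.Gamma_add_one hy.ne', Real.log_mul hy.ne' (Real.Gamma_pos_of_pos hy).ne']
  ring

theorem gup {x s : ℝ} (hx : 0 < x) (hs : 0 < s) :
    Real.Gamma (x + s) ≤ Real.Gamma x * (x + s) ^ s := by
  have h := Real.convexOn_log_Gamma.slope_mono_adjacent (x := x) (y := x + s) (z := x + s + 1)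
    hx (show 0 < x + s + 1 by linarith) (by linarith) (by linarith)
  rw [show x + s + 1 - (x + s) = 1 by ring, div_one, log_gamma_succ (by linarith),
    show x + s - x = s by ring, div_le_iff₀ hs] at h
  simp only [Function.comp_apply] at h
  have hg := Real.Gamma_pos_of_pos hx
  have hg2 := Real.Gamma_pos_of_pos (show 0 < x + s by linarith)
  rw [← Real.log_le_log_iff hg2 (by positivity), Real.log_mul hg.ne' (by positivity),
    Real.log_rpow (by linarith)]
  linarith

theorem glow {x s : ℝ} (hx : 1 < x) (hs : 0 < s) :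
    Real.Gamma x * (x - 1) ^ s ≤ Real.Gamma (x + s) := by
  have h := Real.convexOn_log_Gamma.slope_mono_adjacent (x := x - 1) (y := x) (z := x + s)
    (show 0 < x - 1 by linarith) (show 0 < x + s by linarith) (by linarith) (by linarith)
  have h2 := log_gamma_succ (show 0 < x - 1 by linarith)
  rw [sub_add_cancel] at h2
  rw [show x - (x - 1) = 1 by ring, div_one, h2,
    show x + s - x = s by ring, le_div_iff₀ hs] at h
  simp only [Function.comp_apply] at h
  have hg := Real.Gamma_pos_of_pos (show 0 < x by linarith)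
  have hg2 := Real.Gamma_pos_of_pos (show 0 < x + s by linarith)
  have hx1 : 0 < x - 1 := by linarith
  rw [← Real.log_le_log_iff (by positivity) hg2, Real.log_mul hg.ne' (by positivity),
    Real.log_rpow hx1]
  linarith

/-- `Γ(a + 1) ^ 2 < Γ(2 a + 1)` -/
theorem gamma_sq_lt {a : ℝ} (ha : 0 < a) : Real.Gamma (a + 1) ^ 2 < Real.Gamma (2 * a + 1) := by
  set m : ℝ := Real.Gamma (a + 1) with hm
  have hmpos : 0 < m := Real.Gamma_pos_of_pos (by linarith)
  have i1 : MeasureTheory.IntegrableOn (fun t : ℝ => Real.exp (-t) * t ^ (2 * a + 1 - 1))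
      (Set.Ioi 0) := Real.GammaIntegral_convergent (by linarith)
  have i2 : MeasureTheory.IntegrableOn (fun t : ℝ => Real.exp (-t) * t ^ (a + 1 - 1))
      (Set.Ioi 0) := Real.GammaIntegral_convergent (by linarith)
  have i3 : MeasureTheory.IntegrableOn (fun t : ℝ => Real.exp (-t) * t ^ ((1 : ℝ) - 1))
      (Set.Ioi 0) := Real.GammaIntegral_convergent (by norm_num)
  have e : ∫ t in Set.Ioi (0 : ℝ), Real.exp (-t) * (t ^ a - m) ^ 2 =
      Real.Gamma (2 * a + 1) - m ^ 2 := by
    have h1 : ∫ t in Set.Ioi (0 : ℝ), Real.exp (-t) * (t ^ a - m) ^ 2 =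
        ∫ t in Set.Ioi (0 : ℝ), (Real.exp (-t) * t ^ (2 * a + 1 - 1) -
          (2 * m) * (Real.exp (-t) * t ^ (a + 1 - 1)) +
          m ^ 2 * (Real.exp (-t) * t ^ ((1 : ℝ) - 1))) := by
      apply MeasureTheory.setIntegral_congr_fun measurableSet_Ioi
      intro t ht
      have ht0 : (0 : ℝ) < t := ht
      simp only [add_sub_cancel_right, sub_self, Real.rpow_zero, mul_one]
      rw [show 2 * a = a + a by ring, Real.rpow_add ht0]
      ring
    have i12 : MeasureTheory.IntegrableOn (fun t : ℝ => Real.exp (-t) * t ^ (2 * a + 1 - 1) -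
          (2 * m) * (Real.exp (-t) * t ^ (a + 1 - 1))) (Set.Ioi 0) := i1.sub (i2.const_mul (2 * m))
    have i33 : MeasureTheory.IntegrableOn (fun t : ℝ =>
          m ^ 2 * (Real.exp (-t) * t ^ ((1 : ℝ) - 1))) (Set.Ioi 0) := i3.const_mul (m ^ 2)
    have i22 : MeasureTheory.IntegrableOn (fun t : ℝ =>
          (2 * m) * (Real.exp (-t) * t ^ (a + 1 - 1))) (Set.Ioi 0) := i2.const_mul (2 * m)
    rw [h1, MeasureTheory.integral_add i12 i33,
      MeasureTheory.integral_sub i1 i22, MeasureTheory.integral_const_mul,
      MeasureTheory.integral_const_mul, ← Real.Gamma_eq_integral (by linarith),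
      ← Real.Gamma_eq_integral (by linarith), ← Real.Gamma_eq_integral (by norm_num),
      Real.Gamma_one, ← hm]
    ring
  have hpos : 0 < ∫ t in Set.Ioi (0 : ℝ), Real.exp (-t) * (t ^ a - m) ^ 2 := by
    have hint : MeasureTheory.IntegrableOn (fun t : ℝ => Real.exp (-t) * (t ^ a - m) ^ 2)
        (Set.Ioi 0) := by
      have h2 := (i1.sub (i2.const_mul (2 * m))).add (i3.const_mul (m ^ 2))
      refine h2.congr_fun ?_ measurableSet_Ioi
      intro t ht
      have ht0 : (0 : ℝ) < t := ht
      simp only [add_sub_cancel_right, sub_self, Real.rpow_zero, mul_one, Pi.add_apply,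
        Pi.sub_apply]
      rw [show 2 * a = a + a by ring, Real.rpow_add ht0]
      ring
    rw [MeasureTheory.setIntegral_pos_iff_support_of_nonneg_ae]
    · -- the support contains an interval
      set T : ℝ := (m + 1) ^ (1 / a) with hT
      have hTpos : 0 < T := by positivity
      have hsub : Set.Ioo T (T + 1) ⊆
          Function.support (fun t : ℝ => Real.exp (-t) * (t ^ a - m) ^ 2) ∩ Set.Ioi 0 := by
        intro t ht
        have ht0 : 0 < t := lt_trans hTpos ht.1
        refine ⟨?_, ht0⟩
        have h3 : T ^ a < t ^ a := Real.rpow_lt_rpow hTpos.le ht.1 ha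
        have h4 : T ^ a = m + 1 := by
          rw [hT, ← Real.rpow_mul (by positivity)]
          rw [one_div_mul_cancel ha.ne', Real.rpow_one]
        have h5 : t ^ a - m ≠ 0 := by
          rw [h4] at h3
          intro h6
          linarith
        simp only [Function.mem_support]
        positivity
      refine lt_of_lt_of_le ?_ (MeasureTheory.measure_mono hsub)
      simp
    · exact Filter.Eventually.of_forall fun t => by positivity
    · exact hint
  linarith

end Pool.Agent.H637W
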