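import Pool.Agent.H24R2.JP.Had
import Pool.Agent.H24R2.JP.Der

set_option autoImplicit false

/-!
Entire functions of growth `exp (o (|x|))`, real on the real line, are locally uniform limits of
real polynomials whose zeros are zeros of the function; Laguerre's inequality for the Taylor
coefficients when all zeros are real.
-/

namespace Pool.Agent.H637W

open Complex Filter Topology Polynomial Metric Pool.Agent.H24R2.JP

theorem had_min (f : ℂ → ℂ) (hf : Differentiable ℂ f) (h0 : f 0 ≠ 0)
    (hsym : ∀ x, f ((starRingEnd ℂ) x) = (starRingEnd ℂ) (f x))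
    (hb : ∀ ε : ℝ, 0 < ε → ∃ C : ℝ, ∀ x, ‖f x‖ ≤ C * Real.exp (ε * ‖x‖)) :
    ∃ P : ℕ → ℝ[X], (∀ (N : ℕ) (x : ℂ), aeval x (P N) = 0 → f x = 0) ∧
      TendstoLocallyUniformly (fun (N : ℕ) (x : ℂ) => aeval x (P N)) f atTop := by
  have h00 : ((f 0).re : ℂ) = f 0 := by
    apply Complex.conj_eq_iff_re.1
    rw [← hsym, map_zero]
  have hre0 : (f 0).re ≠ 0 := by
    intro h
    apply h0
    rw [← h00, h]
    simp
  have hn0 : 0 < ‖f 0‖ := norm_pos_iff.2 h0
  -- maximum points
  have hmax : ∀ N : ℕ, ∃ w : ℂ, ‖w‖ ≤ 2 * ((N : ℝ) + 1) ∧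
      ∀ z : ℂ, ‖z‖ ≤ 2 * ((N : ℝ) + 1) → ‖f z‖ ≤ ‖f w‖ := by
    intro N
    obtain ⟨w, hw, hm⟩ := (isCompact_closedBall (0 : ℂ) (2 * ((N : ℝ) + 1))).exists_isMaxOn
      ⟨0, by simp; positivity⟩ (hf.continuous.norm.continuousOn)
    exact ⟨w, by simpa using hw, fun z hz => hm (by simpa using hz)⟩
  choose W hW1 hW2 using hmax
  have hWpos : ∀ N, 0 < ‖f (W N)‖ := fun N => lt_of_lt_of_le hn0 (hW2 N 0 (by simp; positivity))
  set M : ℕ → ℝ := fun N => Real.log ‖f (W N)‖ with hM
  have hexpM : ∀ N, Real.exp (M N) = ‖f (W N)‖ := fun N => Real.exp_log (hWpos N)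
  have main : ∀ N : ℕ, ∃ (P : ℝ[X]) (L : ℂ → ℂ), (∀ w, aeval w P = 0 → f w = 0) ∧
      0 ≤ M N - Real.log ‖f 0‖ ∧
      ∀ w : ℂ, ‖w‖ < (N : ℝ) + 1 → f w = aeval w P * cexp (L w) ∧
        ‖L w‖ ≤ 2 * (M N - Real.log ‖f 0‖) * (‖w‖ / (((N : ℝ) + 1) - ‖w‖)) := by
    intro N
    have hρ : 0 < (N : ℝ) + 1 := by positivity
    obtain ⟨n, hn⟩ := exists_nat_ge
      (∑ᶠ u, (MeromorphicOn.divisor f (closedBall 0 ((N : ℝ) + 1)) u : ℝ) * 1)
    obtain ⟨P, G, hG, hG0, hGb, hFG, hnz⟩ := had_split (M := M N) hρ n f hf h0 hsym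
      (fun w hw => by rw [hexpM]; exact hW2 N w (by simpa using hw)) hn
    obtain ⟨L, hA, hL⟩ := had_base hG hρ (fun u hu => hnz u (ball_subset_closedBall hu))
      (fun w hw => hGb w (ball_subset_closedBall (ball_subset_ball (by linarith) hw)))
    refine ⟨Polynomial.C (f 0).re * P, L, ?_, by rw [hG0] at hA; exact hA, ?_⟩
    · intro w hw
      rw [map_mul, aeval_C, Complex.coe_algebraMap] at hw
      rw [hFG w]
      rcases mul_eq_zero.1 hw with h | h
      · exact absurd (by exact_mod_cast h) hre0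
      · rw [h, zero_mul]
    · intro w hw
      obtain ⟨h1, h2⟩ := hL w hw
      constructor
      · rw [hFG w, h1, hG0, map_mul, aeval_C, Complex.coe_algebraMap, h00]
        ring
      · rw [hG0] at h2
        exact h2
  choose P L h1 hA h2 using main
  -- the growth
  have hlim : ∀ r : ℝ, 0 < r → ∀ δ : ℝ, 0 < δ → ∀ᶠ N : ℕ in atTop, r < (N : ℝ) + 1 ∧
      2 * (M N - Real.log ‖f 0‖) * (r / (((N : ℝ) + 1) - r)) < δ := by
    intro r hr δ hδ
    set ε : ℝ := δ / (16 * r) with hε
    have hε0 : 0 < ε := by positivity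
    obtain ⟨C, hC⟩ := hb ε hε0
    have hC0 : 0 < C := by
      have := hC 0
      simp only [norm_zero, mul_zero, Real.exp_zero, mul_one] at this
      linarith
    have hMb : ∀ N : ℕ, M N ≤ Real.log C + 2 * ε * ((N : ℝ) + 1) := by
      intro N
      have h3 := hC (W N)
      have h4 : ‖f (W N)‖ ≤ C * Real.exp (ε * (2 * ((N : ℝ) + 1))) := by
        refine h3.trans (mul_le_mul_of_nonneg_left (Real.exp_le_exp.2 ?_) hC0.le)
        exact mul_le_mul_of_nonneg_left (hW1 N) hε0.le
      have h5 := Real.log_le_log (hWpos N) h4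
      rw [Real.log_mul hC0.ne' (Real.exp_pos _).ne', Real.log_exp] at h5
      have : ε * (2 * ((N : ℝ) + 1)) = 2 * ε * ((N : ℝ) + 1) := by ring
      rw [this] at h5
      exact h5
    set D : ℝ := |Real.log C - Real.log ‖f 0‖| with hD
    have t1 : Tendsto (fun N : ℕ => (N : ℝ) + 1) atTop atTop :=
      tendsto_atTop_add_const_right _ _ tendsto_natCast_atTop_atTop
    filter_upwards [t1.eventually_ge_atTop (2 * r), t1.eventually_gt_atTop r,
      t1.eventually_gt_atTop (16 * r * (D + 1) / δ)] with N e1 e2 e3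
    refine ⟨e2, ?_⟩
    set m : ℝ := (N : ℝ) + 1 with hm
    have hm0 : 0 < m := by linarith
    have hq : r / (m - r) ≤ 2 * r / m := by
      rw [div_le_div_iff₀ (by linarith) hm0]
      nlinarith
    have hA' : M N - Real.log ‖f 0‖ ≤ D + 2 * ε * m := by
      have := hMb N
      have h6 := le_abs_self (Real.log C - Real.log ‖f 0‖)
      linarith
    have hDnn : 0 ≤ D := abs_nonneg _
    have e3' : 16 * r * (D + 1) < δ * m := by
      rw [div_lt_iff₀ hδ] at e3
      linarith
    calc 2 * (M N - Real.log ‖f 0‖) * (r / (m - r))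
        ≤ 2 * (D + 2 * ε * m) * (2 * r / m) := by
          apply mul_le_mul _ hq (div_nonneg hr.le (by linarith)) (by positivity)
          linarith
      _ = 4 * r * D / m + 8 * r * ε := by field_simp; ring
      _ < δ := by
          have h7 : 8 * r * ε = δ / 2 := by rw [hε]; field_simp; ring
          have h8 : 4 * r * D / m < δ / 2 := by
            rw [div_lt_iff₀ hm0]
            nlinarith
          linarith
  refine ⟨P, h1, ?_⟩
  rw [Metric.tendstoLocallyUniformly_iff]
  intro ε hε x
  set r : ℝ := ‖x‖ + 1 with hr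
  have hr0 : 0 < r := by positivity
  obtain ⟨B, hB0, hB⟩ : ∃ B : ℝ, 0 < B ∧ ∀ y : ℂ, ‖y‖ ≤ r → ‖f y‖ ≤ B := by
    obtain ⟨w, hw, hm⟩ := (isCompact_closedBall (0 : ℂ) r).exists_isMaxOn
      ⟨0, by simp; positivity⟩ (hf.continuous.norm.continuousOn)
    refine ⟨‖f w‖ + 1, by positivity, fun y hy => ?_⟩
    have h9 : ‖f y‖ ≤ ‖f w‖ := hm (show y ∈ closedBall (0 : ℂ) r by simpa using hy)
    linarith
  refine ⟨ball 0 r, ?_, ?_⟩
  · apply isOpen_ball.mem_nhds
    simp [hr]
  have hδ : 0 < min 1 (ε / (2 * B)) := by positivity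
  filter_upwards [hlim r hr0 _ hδ] with N hN
  intro y hy
  have hyr : ‖y‖ < r := by simpa using hy
  obtain ⟨hN1, hN2⟩ := hN
  obtain ⟨h3, h4⟩ := h2 N y (hyr.trans hN1)
  have h5 : ‖y‖ / (((N : ℝ) + 1) - ‖y‖) ≤ r / (((N : ℝ) + 1) - r) := by
    apply div_le_div₀ hr0.le hyr.le (by linarith) (by linarith)
  have h6 : 0 ≤ 2 * (M N - Real.log ‖f 0‖) := by linarith [hA N]
  have h7 : ‖L N y‖ < min 1 (ε / (2 * B)) :=
    lt_of_le_of_lt (h4.trans (mul_le_mul_of_nonneg_left h5 h6)) hN2
  have h8 : ‖L N y‖ < 1 := h7.trans_le (min_le_left _ _)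
  have h9 : ‖L N y‖ < ε / (2 * B) := h7.trans_le (min_le_right _ _)
  have h10 : aeval y (P N) = f y * cexp (-(L N y)) := by
    rw [h3, mul_assoc, ← Complex.exp_add]
    simp
  rw [dist_eq_norm, h10]
  have h11 : f y - f y * cexp (-(L N y)) = -(f y * (cexp (-(L N y)) - 1)) := by ring
  rw [h11, norm_neg, norm_mul]
  have h12 : ‖cexp (-(L N y)) - 1‖ ≤ 2 * ‖-(L N y)‖ :=
    Complex.norm_exp_sub_one_le (by rw [norm_neg]; exact h8.le)
  rw [norm_neg] at h12
  have h13 : ‖f y‖ ≤ B := hB y hyr.le
  calc ‖f y‖ * ‖cexp (-(L N y)) - 1‖ ≤ B * (2 * ‖L N y‖) :=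
        mul_le_mul h13 h12 (norm_nonneg _) hB0.le
    _ < B * (2 * (ε / (2 * B))) := by
        apply mul_lt_mul_of_pos_left _ hB0
        linarith
    _ = ε := by field_simp

/-! ### Real-rooted polynomials -/

theorem laguerre_prod (R : Multiset ℝ) (x : ℝ) :
    0 ≤ ((derivative (R.map (fun r => X - C r)).prod).eval x) ^ 2 -
      ((R.map (fun r => X - C r)).prod).eval x *
        (derivative (derivative (R.map (fun r => X - C r)).prod)).eval x := by
  induction R using Multiset.induction_on with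
  | empty => simp
  | cons r R ih =>
    rw [Multiset.map_cons, Multiset.prod_cons]
    set g := (R.map (fun r => X - C r)).prod with hg
    have h1 : (derivative ((X - C r) * g)).eval x = g.eval x + (x - r) * (derivative g).eval x := by
      simp
    have h2 : (derivative (derivative ((X - C r) * g))).eval x =
        2 * (derivative g).eval x + (x - r) * (derivative (derivative g)).eval x := by
      simp
      ring
    have h3 : ((X - C r) * g).eval x = (x - r) * g.eval x := by simp
    rw [h1, h2, h3]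
    have : (eval x g + (x - r) * eval x (derivative g)) ^ 2 -
        (x - r) * eval x g * (2 * eval x (derivative g) +
          (x - r) * eval x (derivative (derivative g))) =
        (g.eval x) ^ 2 + (x - r) ^ 2 * ((derivative g).eval x ^ 2 -
          g.eval x * (derivative (derivative g)).eval x) := by ring
    rw [this]
    positivity

theorem splits_derivative {f : ℝ[X]} (hf : f.Splits) : f.derivative.Splits := by
  rcases Nat.eq_zero_or_pos f.natDegree with h0 | h0
  · rw [derivative_of_natDegree_zero h0]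
    exact Splits.zero
  · rw [splits_iff_card_roots] at hf ⊢
    have h1 := card_roots_le_derivative f
    have h2 := card_roots' f.derivative
    have h3 := natDegree_derivative_lt h0.ne'
    omega

theorem splits_iterate {f : ℝ[X]} (hf : f.Splits) (k : ℕ) : (derivative^[k] f).Splits := by
  induction k with
  | zero => exact hf
  | succ k ih =>
    rw [Function.iterate_succ_apply']
    exact splits_derivative ih

theorem laguerre {p : ℝ[X]} (hp : p.Splits) (x : ℝ) :
    0 ≤ ((derivative p).eval x) ^ 2 - p.eval x * (derivative (derivative p)).eval x := by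
  have h := laguerre_prod p.roots x
  rw [hp.eq_prod_roots]
  simp only [derivative_mul, derivative_C, zero_mul, zero_add, eval_mul, eval_C]
  have e : (p.leadingCoeff * eval x (derivative (p.roots.map (fun r => X - C r)).prod)) ^ 2 -
      p.leadingCoeff * eval x (p.roots.map (fun r => X - C r)).prod *
        (p.leadingCoeff * eval x (derivative (derivative (p.roots.map (fun r => X - C r)).prod))) =
      p.leadingCoeff ^ 2 * ((eval x (derivative (p.roots.map (fun r => X - C r)).prod)) ^ 2 -
        eval x (p.roots.map (fun r => X - C r)).prod *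
          eval x (derivative (derivative (p.roots.map (fun r => X - C r)).prod))) := by ring
  rw [e]
  positivity

/-- a real polynomial with only real complex zeros splits -/
theorem splits_of_real (p : ℝ[X]) (h : ∀ z : ℂ, aeval z p = 0 → z.im = 0) : p.Splits := by
  rcases eq_or_ne p 0 with rfl | hp
  · exact Splits.zero
  set q := p.map (algebraMap ℝ ℂ) with hq
  have hq0 : q ≠ 0 := by
    rw [hq, Ne, Polynomial.map_eq_zero]
    exact hp
  have hsplit : q = C q.leadingCoeff * (q.roots.map (fun r => X - C r)).prod :=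
    (IsAlgClosed.splits q).eq_prod_roots
  have hreal : ∀ r ∈ q.roots, ((r.re : ℝ) : ℂ) = r := by
    intro r hr
    have h1 : q.eval r = 0 := (mem_roots hq0).1 hr
    have h2 : r.im = 0 := by
      apply h
      rw [hq, eval_map_algebraMap] at h1
      exact h1
    apply Complex.ext
    · simp
    · simp [h2]
  have hlc : q.leadingCoeff = ((p.leadingCoeff : ℝ) : ℂ) := by
    rw [hq, leadingCoeff_map]
    rfl
  set R : Multiset ℝ := q.roots.map Complex.re with hR
  have hroots : (q.roots.map (fun r => X - C r)).prod =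
      ((R.map (fun r => X - C r)).prod).map (algebraMap ℝ ℂ) := by
    rw [Polynomial.map_multiset_prod, hR, Multiset.map_map, Multiset.map_map]
    congr 1
    apply Multiset.map_congr rfl
    intro r hr
    simp only [Function.comp_apply, Polynomial.map_sub, Polynomial.map_X, Polynomial.map_C]
    congr 2
    exact (hreal r hr).symm
  have hpp : p = C p.leadingCoeff * (R.map (fun r => X - C r)).prod := by
    apply Polynomial.map_injective (algebraMap ℝ ℂ) (algebraMap ℝ ℂ).injective
    rw [Polynomial.map_mul, ← hroots, Polynomial.map_C]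
    rw [← hq]
    conv_lhs => rw [hsplit]
    rw [hlc]
    rfl
  rw [hpp]
  refine (Splits.C _).mul ?_
  apply Splits.multisetProd
  intro g hg
  obtain ⟨r, -, rfl⟩ := Multiset.mem_map.1 hg
  exact Splits.X_sub_C r

/-- Turán's inequalities for the Taylor coefficients. -/
theorem turan (f : ℂ → ℂ) (hf : Differentiable ℂ f) (g : ℕ → ℝ) (hg0 : g 0 ≠ 0)
    (hg : ∀ n, iteratedDeriv n f 0 = ((g n : ℝ) : ℂ))
    (hsym : ∀ x, f ((starRingEnd ℂ) x) = (starRingEnd ℂ) (f x))
    (hb : ∀ ε : ℝ, 0 < ε → ∃ C : ℝ, ∀ x, ‖f x‖ ≤ C * Real.exp (ε * ‖x‖))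
    (hz : ∀ x, f x = 0 → x.im = 0) (k : ℕ) : g k * g (k + 2) ≤ g (k + 1) ^ 2 := by
  have h0 : f 0 ≠ 0 := by
    have := hg 0
    rw [iteratedDeriv_zero] at this
    rw [this]
    exact_mod_cast hg0
  obtain ⟨P, hP1, hP2⟩ := had_min f hf h0 hsym hb
  have hsp : ∀ N, (P N).Splits := fun N => splits_of_real _ fun z hz' => hz z (hP1 N z hz')
  have hlim : ∀ n, Tendsto (fun N => (derivative^[n] (P N)).eval 0) atTop (𝓝 (g n)) := by
    intro n
    have h1 := (tendstoLocallyUniformlyOn_univ.2 (Der.der1 f P hP2 n)).tendsto_at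
      (Set.mem_univ (0 : ℂ))
    rw [hg n] at h1
    have h2 : (fun N => aeval (0 : ℂ) (derivative^[n] (P N))) =
        fun N => (((derivative^[n] (P N)).eval 0 : ℝ) : ℂ) := by
      funext N
      have := Polynomial.aeval_algebraMap_apply ℂ (0 : ℝ) (derivative^[n] (P N))
      rw [map_zero] at this
      rw [this, Polynomial.coe_aeval_eq_eval]
      rfl
    rw [h2] at h1
    have h3 := (Complex.continuous_re.tendsto _).comp h1
    exact h3
  have h4 : ∀ N, 0 ≤ ((derivative^[k + 1] (P N)).eval 0) ^ 2 -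
      (derivative^[k] (P N)).eval 0 * (derivative^[k + 2] (P N)).eval 0 := by
    intro N
    have := laguerre (splits_iterate (hsp N) k) 0
    rw [← Function.iterate_succ_apply' derivative, ← Function.iterate_succ_apply' derivative] at this
    exact this
  have h5 : Tendsto (fun N => ((derivative^[k + 1] (P N)).eval 0) ^ 2 -
      (derivative^[k] (P N)).eval 0 * (derivative^[k + 2] (P N)).eval 0) atTop
      (𝓝 (g (k + 1) ^ 2 - g k * g (k + 2))) :=
    ((hlim (k + 1)).pow 2).sub ((hlim k).mul (hlim (k + 2)))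
  have := ge_of_tendsto' h5 h4
  linarith

end Pool.Agent.H637W
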