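import Pool.Agent.H637W.Spec
import Pool.Agent.H637W.Had

set_option autoImplicit false

/-!
An entire function of minimal exponential type with positive Taylor coefficients and only real
negative zeros has infinitely many zeros.
-/

namespace Pool.Agent.H637W.MB

open Complex Filter Topology MeasureTheory Polynomial Metric Pool.Agent.H24R2.JP

theorem inf_iter (n : ℕ) : ∀ p : ℂ[X], iteratedDeriv n (fun x : ℂ => p.eval x) =
    fun x => (derivative^[n] p).eval x := by
  induction n with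
  | zero => intro p; rfl
  | succ n ih =>
    intro p
    rw [iteratedDeriv_succ', Function.iterate_succ_apply]
    have h : deriv (fun x : ℂ => p.eval x) = fun x => (derivative p).eval x := by
      funext x
      exact p.deriv
    rw [h, ih]

theorem inf_lower (P : ℂ[X]) (hP : P ≠ 0) :
    ∃ c : ℝ, 0 < c ∧ ∃ R₁ : ℝ, ∀ x : ℂ, R₁ ≤ ‖x‖ → c ≤ ‖P.eval x‖ := by
  by_cases hd : 0 < P.degree
  · have h1 : Tendsto (fun x : ℂ => ‖P.eval x‖) (cocompact ℂ) atTop :=
      P.tendsto_norm_atTop hd tendsto_norm_cocompact_atTop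
    have h2 : ∀ᶠ x in cocompact ℂ, (1 : ℝ) ≤ ‖P.eval x‖ := h1.eventually_ge_atTop 1
    obtain ⟨K, hK, hK2⟩ := mem_cocompact.1 h2
    obtain ⟨R, hR⟩ := hK.isBounded.exists_norm_le
    refine ⟨1, one_pos, R + 1, fun x hx => ?_⟩
    apply hK2
    intro hxK
    have := hR x hxK
    linarith
  · have h1 : P = C (P.coeff 0) := eq_C_of_degree_le_zero (not_lt.1 hd)
    have h2 : P.coeff 0 ≠ 0 := by
      intro h
      apply hP
      rw [h1, h, C_0]
    refine ⟨‖P.coeff 0‖, norm_pos_iff.2 h2, 0, fun x _ => ?_⟩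
    rw [h1]
    simp

theorem t_Inf : S_Inf := by
  intro f g hf hg hgf hsym hb hz R
  by_contra hcon
  push Not at hcon
  have hf0 : f 0 ≠ 0 := by
    have h1 := hgf 0
    rw [iteratedDeriv_zero] at h1
    rw [h1]
    exact_mod_cast (hg 0).ne'
  set ρ : ℝ := |R| + 1 with hρ
  have hρ0 : 0 < ρ := by positivity
  have hzb : ∀ x, f x = 0 → ‖x‖ < ρ := by
    intro x hx
    obtain ⟨h1, h2⟩ := hz x hx
    have h3 : x = -(((-x.re : ℝ)) : ℂ) := by
      apply Complex.ext <;> simp [h1]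
    have h4 : ¬ R < -x.re := by
      intro h5
      apply hcon (-x.re) h5
      rw [← h3]
      exact hx
    have h5 : ‖x‖ = -x.re := by
      rw [h3, norm_neg, Complex.norm_real, Real.norm_eq_abs, abs_of_pos (by linarith)]
      simp
    rw [h5]
    have := le_abs_self R
    linarith
  -- splitting
  obtain ⟨M, hM⟩ : ∃ M : ℝ, ∀ w ∈ closedBall (0 : ℂ) (2 * ρ), ‖f w‖ ≤ Real.exp M := by
    obtain ⟨C, hC⟩ := (isCompact_closedBall (0 : ℂ) (2 * ρ)).exists_bound_of_continuousOn
      hf.continuous.continuousOn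
    refine ⟨C, fun w hw => (hC w hw).trans ?_⟩
    have := Real.add_one_le_exp C
    linarith
  obtain ⟨n, hn⟩ := exists_nat_ge
    (∑ᶠ u, (MeromorphicOn.divisor f (closedBall 0 ρ) u : ℝ) * 1)
  obtain ⟨P, G, hG, hG0, hGb, hFG, hnz⟩ := had_split (M := M) hρ0 n f hf hf0 hsym hM hn
  have hGnz : ∀ u, G u ≠ 0 := by
    intro u hu
    have h1 : f u = 0 := by rw [hFG u, hu, mul_zero]
    exact hnz u (by simpa using (hzb u h1).le) hu
  have hP0 : P ≠ 0 := by
    intro h
    apply hf0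
    rw [hFG 0, h]
    simp
  have hev : ∀ w : ℂ, aeval w P = (P.map (algebraMap ℝ ℂ)).eval w := by
    intro w
    rw [eval_map, aeval_def]
  have hPC : P.map (algebraMap ℝ ℂ) ≠ 0 := by
    rw [Ne, Polynomial.map_eq_zero]
    exact hP0
  have hGsym : ∀ x, G ((starRingEnd ℂ) x) = (starRingEnd ℂ) (G x) := by
    refine had_symm (q := fun w => aeval w P) hG.continuous hFG hsym (fun x => ?_) ?_
    · exact Polynomial.aeval_conj P x
    · have h1 : {w : ℂ | aeval w P ≠ 0} = ((P.map (algebraMap ℝ ℂ)).roots.toFinset : Set ℂ)ᶜ := by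
        ext w
        simp only [Set.mem_compl_iff, Finset.mem_coe, Multiset.mem_toFinset]
        rw [mem_roots hPC, IsRoot.def, ← hev]
        rfl
      show Dense {w : ℂ | aeval w P ≠ 0}
      rw [h1]
      exact (Finset.countable_toSet _).dense_compl ℝ
  -- growth of `G`
  have hGgr : ∀ ε : ℝ, 0 < ε → ∃ C : ℝ, ∀ x, ‖G x‖ ≤ C * Real.exp (ε * ‖x‖) := by
    intro ε hε
    obtain ⟨C, hC⟩ := hb ε hε
    obtain ⟨c, hc, R₁, hR₁⟩ := inf_lower _ hPC
    obtain ⟨C₁, hC₁⟩ := (isCompact_closedBall (0 : ℂ) R₁).exists_bound_of_continuousOn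
      hG.continuous.continuousOn
    refine ⟨max |C₁| (C / c), fun x => ?_⟩
    have he : 1 ≤ Real.exp (ε * ‖x‖) := Real.one_le_exp (by positivity)
    by_cases hx : R₁ ≤ ‖x‖
    · have h1 := hR₁ x hx
      rw [← hev] at h1
      have h2 : ‖f x‖ = ‖aeval x P‖ * ‖G x‖ := by rw [hFG x, norm_mul]
      have h3 : c * ‖G x‖ ≤ C * Real.exp (ε * ‖x‖) := by
        calc c * ‖G x‖ ≤ ‖aeval x P‖ * ‖G x‖ := mul_le_mul_of_nonneg_right h1 (norm_nonneg _)
          _ = ‖f x‖ := h2.symm
          _ ≤ _ := hC x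
      have h4 : ‖G x‖ ≤ C / c * Real.exp (ε * ‖x‖) := by
        rw [div_mul_eq_mul_div, le_div_iff₀ hc]
        linarith
      exact h4.trans (mul_le_mul_of_nonneg_right (le_max_right _ _) (Real.exp_pos _).le)
    · have h1 : ‖G x‖ ≤ C₁ := hC₁ x (by simpa using (not_le.1 hx).le)
      calc ‖G x‖ ≤ |C₁| := h1.trans (le_abs_self _)
        _ ≤ max |C₁| (C / c) := le_max_left _ _
        _ = max |C₁| (C / c) * 1 := (mul_one _).symm
        _ ≤ _ := mul_le_mul_of_nonneg_left he ((abs_nonneg _).trans (le_max_left _ _))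
  obtain ⟨Q, hQ1, hQ2⟩ := had_min G hG (hGnz 0) hGsym hGgr
  have hQc : ∀ (N : ℕ) (x : ℂ), aeval x (Q N) = aeval (0 : ℂ) (Q N) := by
    intro N x
    have hev2 : ∀ w : ℂ, aeval w (Q N) = ((Q N).map (algebraMap ℝ ℂ)).eval w := by
      intro w
      rw [eval_map, aeval_def]
    by_cases hd : 0 < ((Q N).map (algebraMap ℝ ℂ)).degree
    · exfalso
      obtain ⟨z, hz1⟩ := Complex.exists_root hd
      apply hGnz z
      apply hQ1 N z
      rw [hev2]
      exact hz1
    · rw [hev2, hev2, eq_C_of_degree_le_zero (not_lt.1 hd)]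
      simp
  have hGc : ∀ x, G x = G 0 := by
    intro x
    have h1 : Tendsto (fun N => aeval x (Q N)) atTop (𝓝 (G x)) := (tendstoLocallyUniformlyOn_univ.2 hQ2).tendsto_at (Set.mem_univ x)
    have h2 : Tendsto (fun N => aeval (0 : ℂ) (Q N)) atTop (𝓝 (G 0)) := (tendstoLocallyUniformlyOn_univ.2 hQ2).tendsto_at (Set.mem_univ 0)
    have h3 : (fun N => aeval x (Q N)) = fun N => aeval (0 : ℂ) (Q N) := by
      funext N
      exact hQc N x
    rw [h3] at h1
    exact tendsto_nhds_unique h1 h2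
  -- `f` is a polynomial
  set S : ℂ[X] := P.map (algebraMap ℝ ℂ) * C (G 0) with hS
  have hfS : f = fun x => S.eval x := by
    funext x
    rw [hFG x, hGc x, hev, hS, eval_mul, eval_C]
  have h1 := hgf (S.natDegree + 1)
  rw [hfS, inf_iter, iterate_derivative_eq_zero (Nat.lt_succ_self _)] at h1
  simp only [eval_zero] at h1
  have h2 : g (S.natDegree + 1) = 0 := by exact_mod_cast h1.symm
  exact (hg _).ne' h2

end Pool.Agent.H637W.MB
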