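import Pool.Agent.H637W.Spec

set_option autoImplicit false

/-! Task K1 of project MB: the uniform bound for `KK`. -/

namespace Pool.Agent.H637W.MB

open Complex Filter Topology MeasureTheory

theorem K1_J (s A : ℝ) (hs : 0 < s) (hA : 0 < A) :
    ∫ q in (0 : ℝ)..1, Real.exp (-(A * q ^ s)) ≤ A ^ (-1 / s) * Real.Gamma (1 / s + 1) := by
  have h := integral_exp_neg_mul_rpow hs hA
  have hne : ∫ x in Set.Ioi (0 : ℝ), Real.exp (-A * x ^ s) ≠ 0 := by
    rw [h]
    have h1 : 0 < Real.Gamma (1 / s + 1) := Real.Gamma_pos_of_pos (by positivity)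
    positivity
  have hint : IntegrableOn (fun x : ℝ => Real.exp (-A * x ^ s)) (Set.Ioi 0) := by
    by_contra hcon
    exact hne (integral_undef hcon)
  rw [intervalIntegral.integral_of_le zero_le_one, ← h]
  have e : (fun q : ℝ => Real.exp (-(A * q ^ s))) = fun q : ℝ => Real.exp (-A * q ^ s) := by
    funext q; congr 1; ring
  rw [e]
  apply setIntegral_mono_set hint
  · exact Eventually.of_forall fun x => (Real.exp_pos _).le
  · exact (Set.Ioc_subset_Ioi_self).eventuallyLE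

theorem K1_J1 (s A : ℝ) (hs : 0 < s) (hA : 0 ≤ A) :
    ∫ q in (0 : ℝ)..1, Real.exp (-(A * q ^ s)) ≤ 1 := by
  have hc : Continuous (fun q : ℝ => Real.exp (-(A * q ^ s))) :=
    Real.continuous_exp.comp (continuous_const.mul (Real.continuous_rpow_const hs.le)).neg
  have h := intervalIntegral.integral_mono_on (a := (0:ℝ)) (b := 1) (μ := volume)
    (f := fun q : ℝ => Real.exp (-(A * q ^ s))) (g := fun _ => (1:ℝ)) zero_le_one
    (hc.intervalIntegrable _ _) (continuous_const.intervalIntegrable _ _)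
    (fun q hq => by
      apply Real.exp_le_one_iff.2
      have : 0 ≤ q ^ s := Real.rpow_nonneg hq.1 s
      have := mul_nonneg hA this
      linarith)
  simpa using h

theorem K1_norm (a b c₀ : ℝ) (ha : 0 < a) (hb : 0 < b) (hc : 0 < c₀) (ζ : ℂ)
    (hζ : c₀ * ‖ζ‖ ≤ ζ.re) :
    ‖KK a b ζ‖ ≤ (∫ q in (0 : ℝ)..1, Real.exp (-((c₀ * ‖ζ‖ * (1 / 2) ^ b) * q ^ a))) +
      ∫ q in (0 : ℝ)..1, Real.exp (-((c₀ * ‖ζ‖ * (1 / 2) ^ a) * q ^ b)) := by
  set A : ℝ := c₀ * ‖ζ‖ * (1 / 2) ^ b with hA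
  set B : ℝ := c₀ * ‖ζ‖ * (1 / 2) ^ a with hB
  have hx : 0 ≤ c₀ * ‖ζ‖ := by positivity
  have hre : 0 ≤ ζ.re := hx.trans hζ
  have hpa : Continuous (fun p : ℝ => p ^ a) := Real.continuous_rpow_const ha.le
  have hpb : Continuous (fun p : ℝ => (1 - p) ^ b) :=
    (Real.continuous_rpow_const hb.le).comp (continuous_const.sub continuous_id)
  have hc0 : Continuous (fun p : ℝ => cexp (-(ζ * ((p ^ a * (1 - p) ^ b : ℝ) : ℂ)))) :=
    Complex.continuous_exp.comp
      (continuous_const.mul (Complex.continuous_ofReal.comp (hpa.mul hpb))).neg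
  have hc1 : Continuous (fun p : ℝ => Real.exp (-(A * p ^ a))) :=
    Real.continuous_exp.comp (continuous_const.mul hpa).neg
  have hc2 : Continuous (fun p : ℝ => Real.exp (-(B * (1 - p) ^ b))) :=
    Real.continuous_exp.comp (continuous_const.mul hpb).neg
  have h1 : ‖KK a b ζ‖ ≤
      ∫ p in (0 : ℝ)..1, ‖cexp (-(ζ * ((p ^ a * (1 - p) ^ b : ℝ) : ℂ)))‖ :=
    intervalIntegral.norm_integral_le_integral_norm zero_le_one
  have h2 : ∫ p in (0 : ℝ)..1, ‖cexp (-(ζ * ((p ^ a * (1 - p) ^ b : ℝ) : ℂ)))‖ ≤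
      ∫ p in (0 : ℝ)..1, (Real.exp (-(A * p ^ a)) + Real.exp (-(B * (1 - p) ^ b))) := by
    apply intervalIntegral.integral_mono_on zero_le_one
    · exact hc0.norm.intervalIntegrable _ _
    · exact (hc1.add hc2).intervalIntegrable _ _
    · intro p hp
      have hp0 : 0 ≤ p := hp.1
      have hp1 : 0 ≤ 1 - p := by linarith [hp.2]
      have ea : 0 ≤ p ^ a := Real.rpow_nonneg hp0 a
      have eb : 0 ≤ (1 - p) ^ b := Real.rpow_nonneg hp1 b
      rw [Complex.norm_exp]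
      have e1 : (-(ζ * ((p ^ a * (1 - p) ^ b : ℝ) : ℂ))).re = -(ζ.re * (p ^ a * (1 - p) ^ b)) := by
        rw [Complex.neg_re, Complex.re_mul_ofReal]
      rw [e1]
      have e2 : c₀ * ‖ζ‖ * (p ^ a * (1 - p) ^ b) ≤ ζ.re * (p ^ a * (1 - p) ^ b) :=
        mul_le_mul_of_nonneg_right hζ (mul_nonneg ea eb)
      rcases le_total p (1 / 2) with h | h
      · have e3 : (1 / 2 : ℝ) ^ b ≤ (1 - p) ^ b :=
          Real.rpow_le_rpow (by norm_num) (by linarith) hb.le
        have e4 : A * p ^ a ≤ c₀ * ‖ζ‖ * (p ^ a * (1 - p) ^ b) := by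
          rw [hA]
          calc c₀ * ‖ζ‖ * (1 / 2) ^ b * p ^ a = (c₀ * ‖ζ‖ * p ^ a) * (1 / 2) ^ b := by ring
            _ ≤ (c₀ * ‖ζ‖ * p ^ a) * (1 - p) ^ b :=
                mul_le_mul_of_nonneg_left e3 (mul_nonneg hx ea)
            _ = c₀ * ‖ζ‖ * (p ^ a * (1 - p) ^ b) := by ring
        have e5 : Real.exp (-(ζ.re * (p ^ a * (1 - p) ^ b))) ≤ Real.exp (-(A * p ^ a)) :=
          Real.exp_le_exp.2 (by linarith)
        have e6 := (Real.exp_pos (-(B * (1 - p) ^ b))).le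
        linarith
      · have e3 : (1 / 2 : ℝ) ^ a ≤ p ^ a :=
          Real.rpow_le_rpow (by norm_num) h ha.le
        have e4 : B * (1 - p) ^ b ≤ c₀ * ‖ζ‖ * (p ^ a * (1 - p) ^ b) := by
          rw [hB]
          calc c₀ * ‖ζ‖ * (1 / 2) ^ a * (1 - p) ^ b = (c₀ * ‖ζ‖ * (1 - p) ^ b) * (1 / 2) ^ a := by
                ring
            _ ≤ (c₀ * ‖ζ‖ * (1 - p) ^ b) * p ^ a :=
                mul_le_mul_of_nonneg_left e3 (mul_nonneg hx eb)
            _ = c₀ * ‖ζ‖ * (p ^ a * (1 - p) ^ b) := by ring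
        have e5 : Real.exp (-(ζ.re * (p ^ a * (1 - p) ^ b))) ≤ Real.exp (-(B * (1 - p) ^ b)) :=
          Real.exp_le_exp.2 (by linarith)
        have e6 := (Real.exp_pos (-(A * p ^ a))).le
        linarith
  have h3 : ∫ p in (0 : ℝ)..1, (Real.exp (-(A * p ^ a)) + Real.exp (-(B * (1 - p) ^ b))) =
      (∫ q in (0 : ℝ)..1, Real.exp (-(A * q ^ a))) +
      ∫ q in (0 : ℝ)..1, Real.exp (-(B * q ^ b)) := by
    rw [intervalIntegral.integral_add (hc1.intervalIntegrable _ _) (hc2.intervalIntegrable _ _)]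
    congr 1
    have := intervalIntegral.integral_comp_sub_left (a := (0:ℝ)) (b := 1)
      (fun q : ℝ => Real.exp (-(B * q ^ b))) 1
    simpa using this
  rw [← h3]
  exact h1.trans h2

theorem t_K1 : S_K1 := by
  intro a b c₀ hb hab hc
  have ha : 0 < a := hb.trans hab
  have hGa : 0 < Real.Gamma (1 / a + 1) := Real.Gamma_pos_of_pos (by positivity)
  have hGb : 0 < Real.Gamma (1 / b + 1) := Real.Gamma_pos_of_pos (by positivity)
  refine ⟨((c₀ * (1 / 2) ^ b)⁻¹) ^ (1 / a) * Real.Gamma (1 / a + 1) +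
    ((c₀ * (1 / 2) ^ a)⁻¹) ^ (1 / a) * (1 + Real.Gamma (1 / b + 1)), ?_⟩
  intro ζ hζ
  have hK0 : 0 ≤ ((c₀ * (1 / 2) ^ b)⁻¹) ^ (1 / a) * Real.Gamma (1 / a + 1) +
    ((c₀ * (1 / 2) ^ a)⁻¹) ^ (1 / a) * (1 + Real.Gamma (1 / b + 1)) := by positivity
  rcases eq_or_lt_of_le (norm_nonneg ζ) with h0 | h0
  · rw [← h0, Real.zero_rpow (by positivity), zero_mul]
    exact hK0
  have hn := K1_norm a b c₀ ha hb hc ζ hζ
  set A : ℝ := c₀ * ‖ζ‖ * (1 / 2) ^ b with hA
  set B : ℝ := c₀ * ‖ζ‖ * (1 / 2) ^ a with hB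
  have hA0 : 0 < A := by positivity
  have hB0 : 0 < B := by positivity
  have hm1 : ‖ζ‖ ^ (1 / a) = ((c₀ * (1 / 2) ^ b)⁻¹) ^ (1 / a) * A ^ (1 / a) := by
    rw [← Real.mul_rpow (by positivity) hA0.le]
    congr 1
    rw [hA]
    field_simp
  have hm2 : ‖ζ‖ ^ (1 / a) = ((c₀ * (1 / 2) ^ a)⁻¹) ^ (1 / a) * B ^ (1 / a) := by
    rw [← Real.mul_rpow (by positivity) hB0.le]
    congr 1
    rw [hB]
    field_simp
  have f1 : A ^ (1 / a) * (∫ q in (0 : ℝ)..1, Real.exp (-(A * q ^ a))) ≤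
      Real.Gamma (1 / a + 1) := by
    calc A ^ (1 / a) * (∫ q in (0 : ℝ)..1, Real.exp (-(A * q ^ a)))
        ≤ A ^ (1 / a) * (A ^ (-1 / a) * Real.Gamma (1 / a + 1)) :=
          mul_le_mul_of_nonneg_left (K1_J a A ha hA0) (by positivity)
      _ = Real.Gamma (1 / a + 1) := by
          rw [← mul_assoc, ← Real.rpow_add hA0]
          have : 1 / a + -1 / a = 0 := by ring
          rw [this, Real.rpow_zero, one_mul]
  have f2 : B ^ (1 / a) * (∫ q in (0 : ℝ)..1, Real.exp (-(B * q ^ b))) ≤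
      1 + Real.Gamma (1 / b + 1) := by
    have hI0 : 0 ≤ ∫ q in (0 : ℝ)..1, Real.exp (-(B * q ^ b)) :=
      intervalIntegral.integral_nonneg zero_le_one (fun q _ => (Real.exp_pos _).le)
    rcases le_total B 1 with h1 | h1
    · have g1 : B ^ (1 / a) ≤ 1 := Real.rpow_le_one hB0.le h1 (by positivity)
      have g2 := K1_J1 b B hb hB0.le
      calc B ^ (1 / a) * (∫ q in (0 : ℝ)..1, Real.exp (-(B * q ^ b))) ≤ 1 * 1 :=
            mul_le_mul g1 g2 hI0 zero_le_one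
        _ ≤ 1 + Real.Gamma (1 / b + 1) := by linarith
    · have g2 := K1_J b B hb hB0
      calc B ^ (1 / a) * (∫ q in (0 : ℝ)..1, Real.exp (-(B * q ^ b)))
          ≤ B ^ (1 / a) * (B ^ (-1 / b) * Real.Gamma (1 / b + 1)) :=
            mul_le_mul_of_nonneg_left g2 (by positivity)
        _ = B ^ (1 / a + -1 / b) * Real.Gamma (1 / b + 1) := by
            rw [← mul_assoc, ← Real.rpow_add hB0]
        _ ≤ 1 * Real.Gamma (1 / b + 1) := by
            apply mul_le_mul_of_nonneg_right _ hGb.le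
            apply Real.rpow_le_one_of_one_le_of_nonpos h1
            have : 1 / a ≤ 1 / b := one_div_le_one_div_of_le hb hab.le
            have e : -1 / b = -(1 / b) := by ring
            rw [e]
            linarith
        _ ≤ 1 + Real.Gamma (1 / b + 1) := by linarith
  calc ‖ζ‖ ^ (1 / a) * ‖KK a b ζ‖
      ≤ ‖ζ‖ ^ (1 / a) * ((∫ q in (0 : ℝ)..1, Real.exp (-(A * q ^ a))) +
          ∫ q in (0 : ℝ)..1, Real.exp (-(B * q ^ b))) :=
        mul_le_mul_of_nonneg_left hn (by positivity)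
    _ = ((c₀ * (1 / 2) ^ b)⁻¹) ^ (1 / a) *
          (A ^ (1 / a) * ∫ q in (0 : ℝ)..1, Real.exp (-(A * q ^ a))) +
        ((c₀ * (1 / 2) ^ a)⁻¹) ^ (1 / a) *
          (B ^ (1 / a) * ∫ q in (0 : ℝ)..1, Real.exp (-(B * q ^ b))) := by
        rw [mul_add]
        nth_rewrite 1 [hm1]
        rw [hm2]
        ring
    _ ≤ _ := by
        apply add_le_add
        · exact mul_le_mul_of_nonneg_left f1 (by positivity)
        · exact mul_le_mul_of_nonneg_left f2 (by positivity)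

end Pool.Agent.H637W.MB
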