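import Pool.Agent.H637W.K1

set_option autoImplicit false

/-! Task K2 of project MB: the limit of `r ^ (1/a) * KK a b (r ζ)`.  The rotation lemmas
(`K2_rot_formula`) are copied from `Pool.Agent.Helper242.KK.Gam1`. -/

namespace Pool.Agent.H637W.MB

open Complex Filter Topology MeasureTheory

open Set in
private lemma K2_int_rpow_exp {s b : ℝ} (hs : -1 < s) (hb : 0 < b) :
    IntegrableOn (fun x : ℝ => x ^ s * Real.exp (-(b * x))) (Ioi 0) := by
  have h := integrableOn_rpow_mul_exp_neg_mul_rpow hs one_pos hb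
  refine h.congr_fun (fun x _ => ?_) measurableSet_Ioi
  simp only [Real.rpow_one, neg_mul]

open Set in
private lemma K2_cpow_exp_meas (a r : ℂ) :
    AEStronglyMeasurable (fun t : ℝ => (t : ℂ) ^ (a - 1) * Complex.exp (-(r * t)))
      (volume.restrict (Ioi 0)) := by
  refine ContinuousOn.aestronglyMeasurable ?_ measurableSet_Ioi
  refine ContinuousOn.mul ?_ (by fun_prop)
  intro t ht
  exact (Complex.continuousAt_ofReal_cpow_const t (a - 1) (Or.inr (ne_of_gt ht))).continuousWithinAt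

open Set in
private lemma K2_rot_deriv {a r : ℂ} (ha : 0 < a.re) (hr : 0 < r.re) :
    HasDerivAt (fun r : ℂ => ∫ t : ℝ in Ioi 0, (t : ℂ) ^ (a - 1) * Complex.exp (-(r * t)))
      (∫ t : ℝ in Ioi 0, (t : ℂ) ^ (a - 1) * (Complex.exp (-(r * t)) * (-(1 * t)))) r := by
  have hpos : 0 < r.re / 2 := by positivity
  refine (hasDerivAt_integral_of_dominated_loc_of_deriv_le (μ := volume.restrict (Ioi (0:ℝ)))
    (F := fun (r : ℂ) (t : ℝ) => (t : ℂ) ^ (a - 1) * Complex.exp (-(r * t)))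
    (F' := fun (r : ℂ) (t : ℝ) => (t : ℂ) ^ (a - 1) * (Complex.exp (-(r * t)) * (-(1 * t))))
    (s := Metric.ball r (r.re / 2)) (bound := fun t : ℝ => t ^ a.re * Real.exp (-(r.re / 2 * t)))
    (Metric.ball_mem_nhds r hpos) ?_ ?_ ?_ ?_ ?_ ?_).2
  · exact Eventually.of_forall fun r => K2_cpow_exp_meas a r
  · refine Integrable.mono' (K2_int_rpow_exp (s := a.re - 1) (b := r.re) (by linarith) hr)
      (K2_cpow_exp_meas a r) ?_
    refine (ae_restrict_iff' measurableSet_Ioi).2 (Eventually.of_forall fun t ht => ?_)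
    have ht0 : (0:ℝ) < t := ht
    rw [norm_mul, Complex.norm_cpow_eq_rpow_re_of_pos ht0, Complex.norm_exp]
    simp
  · have h := (K2_cpow_exp_meas a r).mul (f := fun t : ℝ => (t : ℂ) ^ (a - 1) * Complex.exp (-(r * t)))
      (g := fun t : ℝ => (-(1 * (t : ℂ)))) (by fun_prop)
    refine h.congr (Eventually.of_forall fun t => ?_)
    simp only [Pi.mul_apply]
    ring
  · refine (ae_restrict_iff' measurableSet_Ioi).2 (Eventually.of_forall fun t ht z hz => ?_)
    have ht0 : (0:ℝ) < t := ht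
    have hz' : r.re / 2 ≤ z.re := by
      have h1 : ‖z - r‖ < r.re / 2 := by simpa [dist_eq_norm] using hz
      have h2 := (abs_le.1 ((Complex.abs_re_le_norm (z - r)).trans h1.le)).1
      rw [Complex.sub_re] at h2
      linarith
    rw [norm_mul, Complex.norm_cpow_eq_rpow_re_of_pos ht0, norm_mul, Complex.norm_exp]
    have e1 : ‖(-(1 * (t : ℂ)))‖ = t := by
      rw [one_mul, norm_neg, Complex.norm_real, Real.norm_of_nonneg ht0.le]
    have e2 : (a - 1).re = a.re - 1 := by simp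
    have e3 : (-(z * (t : ℂ))).re = -(z.re * t) := by simp
    rw [e1, e2, e3]
    have e4 : t ^ a.re = t ^ (a.re - 1) * t := by
      rw [← Real.rpow_add_one ht0.ne']; congr 1; ring
    rw [e4]
    have h5 : Real.exp (-(z.re * t)) ≤ Real.exp (-(r.re / 2 * t)) :=
      Real.exp_le_exp.2 (neg_le_neg (mul_le_mul_of_nonneg_right hz' ht0.le))
    have h6 : 0 ≤ t ^ (a.re - 1) * t := by positivity
    calc t ^ (a.re - 1) * (Real.exp (-(z.re * t)) * t) =
        t ^ (a.re - 1) * t * Real.exp (-(z.re * t)) := by ring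
      _ ≤ _ := mul_le_mul_of_nonneg_left h5 h6
  · exact K2_int_rpow_exp (by linarith) hpos
  · refine Eventually.of_forall fun t z _ => ?_
    exact ((((hasDerivAt_id z).mul_const (t : ℂ)).neg).cexp).const_mul _

open Set in
private lemma K2_rot_formula {a r : ℂ} (ha : 0 < a.re) (hr : 0 < r.re) :
    ∫ t : ℝ in Ioi 0, (t : ℂ) ^ (a - 1) * Complex.exp (-(r * t)) = (1 / r) ^ a * Complex.Gamma a := by
  have hU : IsOpen {z : ℂ | 0 < z.re} := isOpen_lt continuous_const Complex.continuous_re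
  have hpre : IsPreconnected {z : ℂ | 0 < z.re} := (convex_halfSpace_re_gt 0).isPreconnected
  have h1 : AnalyticOnNhd ℂ (fun r : ℂ => ∫ t : ℝ in Ioi 0, (t : ℂ) ^ (a - 1) * Complex.exp (-(r * t)))
      {z : ℂ | 0 < z.re} := by
    refine DifferentiableOn.analyticOnNhd (fun z hz => ?_) hU
    exact (K2_rot_deriv ha hz).differentiableAt.differentiableWithinAt
  have h2 : AnalyticOnNhd ℂ (fun r : ℂ => (1 / r) ^ a * Complex.Gamma a) {z : ℂ | 0 < z.re} := by
    refine DifferentiableOn.analyticOnNhd (fun z hz => ?_) hU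
    have hz0 : z ≠ 0 := by
      rintro rfl
      simp at hz
    have hz1 : 0 < (1 / z).re := by
      rw [one_div, Complex.inv_re]
      exact div_pos hz (Complex.normSq_pos.2 hz0)
    have h3 : DifferentiableAt ℂ (fun r : ℂ => 1 / r) z := by
      simp only [one_div]
      exact differentiableAt_inv hz0
    exact ((h3.cpow_const (Or.inl hz1)).mul_const _).differentiableWithinAt
  refine h1.eqOn_of_preconnected_of_frequently_eq h2 hpre (z₀ := 1) (by simp) ?_ hr
  have ht : Tendsto (fun x : ℝ => (x : ℂ)) (𝓝[≠] 1) (𝓝[≠] (1 : ℂ)) := by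
    refine tendsto_nhdsWithin_iff.2 ⟨?_, ?_⟩
    · exact (Complex.continuous_ofReal.tendsto' (1:ℝ) (1:ℂ) (by simp)).mono_left nhdsWithin_le_nhds
    · filter_upwards [self_mem_nhdsWithin] with x hx
      simp only [mem_compl_iff, mem_singleton_iff] at hx ⊢
      exact_mod_cast hx
  refine ht.frequently (Eventually.frequently ?_)
  have h0 : ∀ᶠ x : ℝ in 𝓝[≠] 1, 0 < x := nhdsWithin_le_nhds (lt_mem_nhds one_pos)
  filter_upwards [h0] with x hx
  exact Complex.integral_cpow_mul_exp_neg_mul_Ioi ha hx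

theorem K2_gam (a : ℝ) (ha : 0 < a) (ζ : ℂ) (hζ : 0 < ζ.re) :
    ∫ x in Set.Ioi (0:ℝ), cexp (-(ζ * ((x ^ a : ℝ) : ℂ))) =
      ζ ^ (((-(1 / a) : ℝ)) : ℂ) * ((Real.Gamma (1 + 1 / a) : ℝ) : ℂ) := by
  have hz0 : ζ ≠ 0 := by rintro rfl; simp at hζ
  have h1 := K2_rot_formula (a := ((1 / a : ℝ) : ℂ)) (r := ζ)
    (by rw [Complex.ofReal_re]; positivity) hζ
  have h2 := integral_comp_rpow_Ioi_of_pos
    (g := fun t : ℝ => (t : ℂ) ^ (((1 / a : ℝ) : ℂ) - 1) * cexp (-(ζ * t))) ha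
  rw [h1] at h2
  have h3 : ∫ x in Set.Ioi (0:ℝ), (a * x ^ (a - 1)) •
      ((fun t : ℝ => (t : ℂ) ^ (((1 / a : ℝ) : ℂ) - 1) * cexp (-(ζ * t))) (x ^ a)) =
      ∫ x in Set.Ioi (0:ℝ), (a : ℂ) * cexp (-(ζ * ((x ^ a : ℝ) : ℂ))) := by
    refine setIntegral_congr_fun measurableSet_Ioi fun x hx => ?_
    have hx0 : (0:ℝ) < x := hx
    have e1 : ((x ^ a : ℝ) : ℂ) ^ (((1 / a : ℝ) : ℂ) - 1) = ((x ^ (1 - a) : ℝ) : ℂ) := by
      have : (((1 / a : ℝ) : ℂ) - 1) = ((1 / a - 1 : ℝ) : ℂ) := by push_cast; ring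
      rw [this, ← Complex.ofReal_cpow (Real.rpow_nonneg hx0.le _), ← Real.rpow_mul hx0.le]
      congr 2
      field_simp
    simp only [Complex.real_smul]
    rw [e1, ← mul_assoc, ← Complex.ofReal_mul]
    congr 1
    have e2 : a * x ^ (a - 1) * x ^ (1 - a) = a := by
      rw [mul_assoc, ← Real.rpow_add hx0]; simp
    rw [e2]
  rw [h3, integral_const_mul] at h2
  have h4 : (1 / ζ) ^ ((1 / a : ℝ) : ℂ) = ζ ^ (((-(1 / a) : ℝ)) : ℂ) := by
    have harg : ζ.arg ≠ Real.pi := by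
      intro h
      have := Complex.arg_eq_pi_iff.1 h
      linarith [this.1]
    rw [one_div, Complex.inv_cpow _ _ harg, Complex.ofReal_neg, Complex.cpow_neg]
  have h5 : ((Real.Gamma (1 + 1 / a) : ℝ) : ℂ) = (1 / (a : ℂ)) * Complex.Gamma ((1 / a : ℝ) : ℂ) := by
    rw [add_comm, Real.Gamma_add_one (by positivity), Complex.ofReal_mul, Complex.Gamma_ofReal]
    push_cast; ring
  have ha0 : (a : ℂ) ≠ 0 := by exact_mod_cast ha.ne'
  rw [h5, ← h4]
  have h6 : ∫ x in Set.Ioi (0:ℝ), cexp (-(ζ * ((x ^ a : ℝ) : ℂ))) =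
      (1 / (a : ℂ)) * ((a : ℂ) * ∫ x in Set.Ioi (0:ℝ), cexp (-(ζ * ((x ^ a : ℝ) : ℂ)))) := by
    rw [← mul_assoc, one_div_mul_cancel ha0, one_mul]
  rw [h6, h2]
  ring

theorem K2_part1 (a b : ℝ) (ha : 0 < a) (hb : 0 < b) (ζ : ℂ) (hζ : 0 < ζ.re) :
    Tendsto (fun r : ℝ => ((r ^ (1 / a) : ℝ) : ℂ) * ∫ p in (0 : ℝ)..(1 / 2),
      cexp (-(((r : ℂ) * ζ) * ((p ^ a * (1 - p) ^ b : ℝ) : ℂ)))) atTop
      (𝓝 (∫ x in Set.Ioi (0:ℝ), cexp (-(ζ * ((x ^ a : ℝ) : ℂ))))) := by
  set F : ℝ → ℝ → ℂ := fun r x => (Set.Iic (r ^ (1 / a) / 2)).indicator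
    (fun x => cexp (-(ζ * ((x ^ a * (1 - x / r ^ (1 / a)) ^ b : ℝ) : ℂ)))) x with hF
  have hs : Tendsto (fun r : ℝ => r ^ (1 / a)) atTop atTop := tendsto_rpow_atTop (by positivity)
  have hlim : Tendsto (fun r : ℝ => ∫ x in Set.Ioi (0:ℝ), F r x) atTop
      (𝓝 (∫ x in Set.Ioi (0:ℝ), cexp (-(ζ * ((x ^ a : ℝ) : ℂ))))) := by
    refine tendsto_integral_filter_of_dominated_convergence
      (fun x => Real.exp (-(ζ.re * (1 / 2) ^ b) * x ^ a)) ?_ ?_ ?_ ?_
    · refine Eventually.of_forall fun r => ?_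
      refine AEStronglyMeasurable.indicator ?_ measurableSet_Iic
      refine Continuous.aestronglyMeasurable ?_
      have h1 : Continuous fun x : ℝ => x ^ a := Real.continuous_rpow_const ha.le
      have h2 : Continuous fun x : ℝ => (1 - x / r ^ (1 / a)) ^ b :=
        (Real.continuous_rpow_const hb.le).comp (by fun_prop)
      exact Complex.continuous_exp.comp
        (continuous_const.mul (Complex.continuous_ofReal.comp (h1.mul h2))).neg
    · filter_upwards [eventually_gt_atTop 0] with r hr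
      refine (ae_restrict_iff' measurableSet_Ioi).2 (Eventually.of_forall fun x hx => ?_)
      have hx0 : (0:ℝ) < x := hx
      have hs0 : 0 < r ^ (1 / a) := Real.rpow_pos_of_pos hr _
      simp only [hF]
      by_cases hxs : x ∈ Set.Iic (r ^ (1 / a) / 2)
      · rw [Set.indicator_of_mem hxs, Complex.norm_exp]
        apply Real.exp_le_exp.2
        rw [Complex.neg_re, Complex.re_mul_ofReal]
        have h1 : (1 / 2 : ℝ) ≤ 1 - x / r ^ (1 / a) := by
          have : x / r ^ (1 / a) ≤ 1 / 2 := by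
            rw [div_le_iff₀ hs0]
            have := hxs
            simp only [Set.mem_Iic] at this
            linarith
          linarith
        have h2 : (1 / 2 : ℝ) ^ b ≤ (1 - x / r ^ (1 / a)) ^ b :=
          Real.rpow_le_rpow (by norm_num) h1 hb.le
        have h3 : 0 ≤ x ^ a := Real.rpow_nonneg hx0.le _
        have h4 : ζ.re * x ^ a * (1 / 2) ^ b ≤ ζ.re * x ^ a * (1 - x / r ^ (1 / a)) ^ b :=
          mul_le_mul_of_nonneg_left h2 (mul_nonneg hζ.le h3)
        calc -(ζ.re * (x ^ a * (1 - x / r ^ (1 / a)) ^ b))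
            = -(ζ.re * x ^ a * (1 - x / r ^ (1 / a)) ^ b) := by ring
          _ ≤ -(ζ.re * x ^ a * (1 / 2) ^ b) := neg_le_neg h4
          _ = -(ζ.re * (1 / 2) ^ b) * x ^ a := by ring
      · rw [Set.indicator_of_notMem hxs, norm_zero]
        exact (Real.exp_pos _).le
    · have h := integrableOn_rpow_mul_exp_neg_mul_rpow (p := a) (s := 0)
        (b := ζ.re * (1 / 2) ^ b) (by norm_num) ha (by positivity)
      refine h.congr_fun (fun x _ => ?_) measurableSet_Ioi
      simp only [Real.rpow_zero, one_mul]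
    · refine (ae_restrict_iff' measurableSet_Ioi).2 (Eventually.of_forall fun x hx => ?_)
      have hx0 : (0:ℝ) < x := hx
      have h1 : Tendsto (fun r : ℝ => cexp (-(ζ * ((x ^ a * (1 - x / r ^ (1 / a)) ^ b : ℝ) : ℂ))))
          atTop (𝓝 (cexp (-(ζ * ((x ^ a : ℝ) : ℂ))))) := by
        have h2 : Tendsto (fun r : ℝ => 1 - x / r ^ (1 / a)) atTop (𝓝 1) := by
          have h0 : Tendsto (fun r : ℝ => x / r ^ (1 / a)) atTop (𝓝 0) :=
            Filter.Tendsto.const_div_atTop hs x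
          simpa using (tendsto_const_nhds (x := (1:ℝ))).sub h0
        have h3 : Tendsto (fun r : ℝ => x ^ a * (1 - x / r ^ (1 / a)) ^ b) atTop (𝓝 (x ^ a)) := by
          have h4 := ((Real.continuous_rpow_const hb.le).tendsto 1).comp h2
          rw [Real.one_rpow] at h4
          have h5 := (tendsto_const_nhds (x := x ^ a)).mul h4
          rw [mul_one] at h5
          exact h5
        have h5 : Continuous (fun y : ℝ => cexp (-(ζ * (y : ℂ)))) := by fun_prop
        exact (h5.tendsto (x ^ a)).comp h3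
      refine h1.congr' ?_
      filter_upwards [hs.eventually_ge_atTop (2 * x)] with r hr
      simp only [hF]
      rw [Set.indicator_of_mem]
      simp only [Set.mem_Iic]
      linarith
  refine hlim.congr' ?_
  filter_upwards [eventually_gt_atTop 0] with r hr
  have hs0 : 0 < r ^ (1 / a) := Real.rpow_pos_of_pos hr _
  have e1 : ∫ x in Set.Ioi (0:ℝ), F r x = ∫ x in (0:ℝ)..(r ^ (1 / a) / 2),
      cexp (-(ζ * ((x ^ a * (1 - x / r ^ (1 / a)) ^ b : ℝ) : ℂ))) := by
    rw [intervalIntegral.integral_of_le (by positivity)]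
    simp only [hF]
    rw [setIntegral_indicator measurableSet_Iic, Set.Ioi_inter_Iic]
  have e5 : r ^ (1 / a) / 2 / r ^ (1 / a) = 1 / 2 := by field_simp
  have e2 := intervalIntegral.integral_comp_div (a := (0:ℝ)) (b := r ^ (1 / a) / 2)
    (fun p : ℝ => cexp (-(((r : ℂ) * ζ) * ((p ^ a * (1 - p) ^ b : ℝ) : ℂ)))) hs0.ne'
  rw [e5, zero_div] at e2
  have e3 : ∫ x in (0:ℝ)..(r ^ (1 / a) / 2),
      cexp (-(ζ * ((x ^ a * (1 - x / r ^ (1 / a)) ^ b : ℝ) : ℂ))) =
      ∫ x in (0:ℝ)..(r ^ (1 / a) / 2),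
      (fun p : ℝ => cexp (-(((r : ℂ) * ζ) * ((p ^ a * (1 - p) ^ b : ℝ) : ℂ)))) (x / r ^ (1 / a)) := by
    refine intervalIntegral.integral_congr fun x hx => ?_
    rw [Set.uIcc_of_le (by positivity)] at hx
    have hx0 : 0 ≤ x := hx.1
    simp only
    have e4 : (x / r ^ (1 / a)) ^ a = x ^ a / r := by
      rw [Real.div_rpow hx0 hs0.le, ← Real.rpow_mul hr.le, one_div_mul_cancel ha.ne', Real.rpow_one]
    rw [e4]
    congr 2
    have hrc : (r : ℂ) ≠ 0 := by exact_mod_cast hr.ne'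
    push_cast
    field_simp
  rw [e1, e3, e2, Complex.real_smul]

theorem K2_part2 (a b : ℝ) (hb : 0 < b) (hab : b < a) (ζ : ℂ) (hζ : 0 < ζ.re) :
    Tendsto (fun r : ℝ => ((r ^ (1 / a) : ℝ) : ℂ) * ∫ p in (1 / 2 : ℝ)..1,
      cexp (-(((r : ℂ) * ζ) * ((p ^ a * (1 - p) ^ b : ℝ) : ℂ)))) atTop (𝓝 0) := by
  have ha : 0 < a := hb.trans hab
  have hC : 0 < ζ.re * (1 / 2) ^ a := by positivity
  have hlt : 0 < 1 / b - 1 / a := by
    have := one_div_lt_one_div_of_lt hb hab
    linarith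
  have ht : Tendsto (fun r : ℝ => r ^ (-(1 / b - 1 / a)) *
      ((ζ.re * (1 / 2) ^ a) ^ (-1 / b) * Real.Gamma (1 / b + 1))) atTop (𝓝 0) := by
    have := (tendsto_rpow_neg_atTop hlt).mul_const
      ((ζ.re * (1 / 2) ^ a) ^ (-1 / b) * Real.Gamma (1 / b + 1))
    rwa [zero_mul] at this
  refine squeeze_zero_norm' ?_ ht
  filter_upwards [eventually_gt_atTop 0] with r hr
  have hs0 : 0 < r ^ (1 / a) := Real.rpow_pos_of_pos hr _
  set A : ℝ := r * (ζ.re * (1 / 2) ^ a) with hA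
  have hA0 : 0 < A := by positivity
  have hpa : Continuous (fun p : ℝ => p ^ a) := Real.continuous_rpow_const ha.le
  have hpb : Continuous (fun p : ℝ => (1 - p) ^ b) :=
    (Real.continuous_rpow_const hb.le).comp (continuous_const.sub continuous_id)
  have hc0 : Continuous (fun p : ℝ => cexp (-(((r : ℂ) * ζ) * ((p ^ a * (1 - p) ^ b : ℝ) : ℂ)))) :=
    Complex.continuous_exp.comp
      (continuous_const.mul (Complex.continuous_ofReal.comp (hpa.mul hpb))).neg
  have hc2 : Continuous (fun p : ℝ => Real.exp (-(A * (1 - p) ^ b))) :=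
    Real.continuous_exp.comp (continuous_const.mul hpb).neg
  have h1 : ‖∫ p in (1 / 2 : ℝ)..1, cexp (-(((r : ℂ) * ζ) * ((p ^ a * (1 - p) ^ b : ℝ) : ℂ)))‖ ≤
      ∫ p in (1 / 2 : ℝ)..1, ‖cexp (-(((r : ℂ) * ζ) * ((p ^ a * (1 - p) ^ b : ℝ) : ℂ)))‖ :=
    intervalIntegral.norm_integral_le_integral_norm (by norm_num)
  have h2 : ∫ p in (1 / 2 : ℝ)..1, ‖cexp (-(((r : ℂ) * ζ) * ((p ^ a * (1 - p) ^ b : ℝ) : ℂ)))‖ ≤
      ∫ p in (1 / 2 : ℝ)..1, Real.exp (-(A * (1 - p) ^ b)) := by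
    apply intervalIntegral.integral_mono_on (by norm_num)
    · exact hc0.norm.intervalIntegrable _ _
    · exact hc2.intervalIntegrable _ _
    · intro p hp
      have hp0 : (1 / 2 : ℝ) ≤ p := hp.1
      have hp1 : 0 ≤ 1 - p := by linarith [hp.2]
      rw [Complex.norm_exp]
      apply Real.exp_le_exp.2
      rw [Complex.neg_re, Complex.re_mul_ofReal, Complex.re_ofReal_mul]
      have e3 : (1 / 2 : ℝ) ^ a ≤ p ^ a := Real.rpow_le_rpow (by norm_num) hp0 ha.le
      have eb : 0 ≤ (1 - p) ^ b := Real.rpow_nonneg hp1 b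
      have e4 : (r * ζ.re * (1 - p) ^ b) * (1 / 2) ^ a ≤ (r * ζ.re * (1 - p) ^ b) * p ^ a :=
        mul_le_mul_of_nonneg_left e3 (by positivity)
      rw [hA]
      calc -(r * ζ.re * (p ^ a * (1 - p) ^ b)) = -((r * ζ.re * (1 - p) ^ b) * p ^ a) := by ring
        _ ≤ -((r * ζ.re * (1 - p) ^ b) * (1 / 2) ^ a) := neg_le_neg e4
        _ = -(r * (ζ.re * (1 / 2) ^ a) * (1 - p) ^ b) := by ring
  have h3 : ∫ p in (1 / 2 : ℝ)..1, Real.exp (-(A * (1 - p) ^ b)) ≤
      ∫ p in (0 : ℝ)..1, Real.exp (-(A * (1 - p) ^ b)) := by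
    apply intervalIntegral.integral_mono_interval (by norm_num) (by norm_num) le_rfl
    · exact Eventually.of_forall fun p => (Real.exp_pos _).le
    · exact hc2.intervalIntegrable _ _
  have h4 : ∫ p in (0 : ℝ)..1, Real.exp (-(A * (1 - p) ^ b)) =
      ∫ q in (0 : ℝ)..1, Real.exp (-(A * q ^ b)) := by
    have := intervalIntegral.integral_comp_sub_left (a := (0:ℝ)) (b := 1)
      (fun q : ℝ => Real.exp (-(A * q ^ b))) 1
    simpa using this
  have h5 := K1_J b A hb hA0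
  have h6 : A ^ (-1 / b) = r ^ (-1 / b) * (ζ.re * (1 / 2) ^ a) ^ (-1 / b) := by
    rw [hA, Real.mul_rpow hr.le hC.le]
  have h7 : r ^ (-(1 / b - 1 / a)) = r ^ (1 / a) * r ^ (-1 / b) := by
    rw [← Real.rpow_add hr]; congr 1; ring
  rw [norm_mul, Complex.norm_real, Real.norm_of_nonneg hs0.le, h7, mul_assoc]
  apply mul_le_mul_of_nonneg_left _ hs0.le
  calc _ ≤ _ := h1
    _ ≤ _ := h2
    _ ≤ _ := h3
    _ = _ := h4
    _ ≤ _ := h5
    _ = _ := by rw [h6, mul_assoc]

theorem t_K2 : S_K2 := by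
  intro a b hb hab ζ hζ
  have ha : 0 < a := hb.trans hab
  have h1 := (K2_part1 a b ha hb ζ hζ).add (K2_part2 a b hb hab ζ hζ)
  rw [add_zero, K2_gam a ha ζ hζ] at h1
  refine h1.congr fun r => ?_
  have hpa : Continuous (fun p : ℝ => p ^ a) := Real.continuous_rpow_const ha.le
  have hpb : Continuous (fun p : ℝ => (1 - p) ^ b) :=
    (Real.continuous_rpow_const hb.le).comp (continuous_const.sub continuous_id)
  have hc0 : Continuous (fun p : ℝ => cexp (-(((r : ℂ) * ζ) * ((p ^ a * (1 - p) ^ b : ℝ) : ℂ)))) :=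
    Complex.continuous_exp.comp
      (continuous_const.mul (Complex.continuous_ofReal.comp (hpa.mul hpb))).neg
  rw [← mul_add, intervalIntegral.integral_add_adjacent_intervals
    (hc0.intervalIntegrable _ _) (hc0.intervalIntegrable _ _)]
  rfl

end Pool.Agent.H637W.MB
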