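import Mathlib

set_option autoImplicit false

/-!
Project MB: `Φ(-r) ≠ 0` for large `r` when `c < a + b + 1`.  Each task is one `Prop` below.
-/

namespace Pool.Agent.H637W.MB

open Complex Filter Topology MeasureTheory

/-- the point `1 + 2πiw` of the vertical line -/
noncomputable def tt (w : ℝ) : ℂ := 1 + ((2 * Real.pi * w : ℝ) : ℂ) * I

/-- `∫_0^1 exp(-ζ p^a (1-p)^b) dp` -/
noncomputable def KK (a b : ℝ) (ζ : ℂ) : ℂ :=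
  ∫ p in (0 : ℝ)..1, cexp (-(ζ * ((p ^ a * (1 - p) ^ b : ℝ) : ℂ)))

/-- Task BROM: Bromwich formula (Fourier inversion of `x^(x-1) e^{-x}` on `x > 0`, at the point `1`). -/
def S_Brom : Prop := ∀ x : ℝ, 1 < x →
  Integrable (fun w : ℝ => cexp (tt w) * (tt w) ^ (-(x : ℂ))) ∧
  ∫ w : ℝ, cexp (tt w) * (tt w) ^ (-(x : ℂ)) = ((1 / Real.Gamma x : ℝ) : ℂ)

/-- Task K1: uniform bound. -/
def S_K1 : Prop := ∀ a b c₀ : ℝ, 0 < b → b < a → 0 < c₀ →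
  ∃ K₁ : ℝ, ∀ ζ : ℂ, c₀ * ‖ζ‖ ≤ ζ.re → ‖ζ‖ ^ (1 / a) * ‖KK a b ζ‖ ≤ K₁

/-- Task K2: the limit. -/
def S_K2 : Prop := ∀ a b : ℝ, 0 < b → b < a → ∀ ζ : ℂ, 0 < ζ.re →
  Tendsto (fun r : ℝ => ((r ^ (1 / a) : ℝ) : ℂ) * KK a b ((r : ℂ) * ζ)) atTop
    (𝓝 (ζ ^ (((-(1 / a) : ℝ)) : ℂ) * ((Real.Gamma (1 + 1 / a) : ℝ) : ℂ)))

/-- Task REP (from BROM): the integral representation. -/
def S_Rep : Prop := ∀ a b δ β r : ℝ, 0 < a → 0 < b → 0 < δ → δ < 1 → 1 < β → 0 ≤ r →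
  (∑' k : ℕ, ((Real.Gamma (a * k + 1) * Real.Gamma (b * k + 1) /
      Real.Gamma ((a + b + δ) * k + (β + 1) + 1) : ℝ) : ℂ) *
      ((-(r : ℂ)) ^ k / (k.factorial : ℂ))) =
    ∫ w : ℝ, ∫ s in (0 : ℝ)..1, ((s * (1 - s) ^ (β - 1) : ℝ) : ℂ) *
      (cexp (tt w) * (tt w) ^ (-(β : ℂ))) *
      KK a b ((r : ℂ) * (((s ^ (a + b) * (1 - s) ^ δ : ℝ) : ℂ) * (tt w) ^ (-(δ : ℂ))))

/-- Task INF: infinitely many zeros. -/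
def S_Inf : Prop := ∀ (f : ℂ → ℂ) (g : ℕ → ℝ), Differentiable ℂ f → (∀ n, 0 < g n) →
  (∀ n, iteratedDeriv n f 0 = ((g n : ℝ) : ℂ)) →
  (∀ x, f ((starRingEnd ℂ) x) = (starRingEnd ℂ) (f x)) →
  (∀ ε : ℝ, 0 < ε → ∃ C : ℝ, ∀ x, ‖f x‖ ≤ C * Real.exp (ε * ‖x‖)) →
  (∀ x, f x = 0 → x.im = 0 ∧ x.re < 0) →
  ∀ R : ℝ, ∃ r : ℝ, R < r ∧ f (-(r : ℂ)) = 0

end Pool.Agent.H637W.MB
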