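import Mathlib
import Pool.Agent.H637W.Spec

set_option autoImplicit false

/-!
Project MB, task REP: the integral representation, from the Bromwich formula.
-/

namespace Pool.Agent.H637W.MB

open Complex Filter Topology MeasureTheory

theorem sum_swap {α : Type*} [MeasurableSpace α] {μ : Measure α} (g u : α → ℂ)
    (hg : Integrable g μ) (hu : AEStronglyMeasurable u μ) (hu1 : ∀ᵐ x ∂μ, ‖u x‖ ≤ 1)
    (d : ℕ → ℂ) (hd : Summable (fun k => ‖d k‖)) :
    ∫ x, g x * (∑' k : ℕ, d k * u x ^ k) ∂μ = ∑' k : ℕ, d k * ∫ x, g x * u x ^ k ∂μ := by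
  have hle : ∀ k : ℕ, ∀ᵐ x ∂μ, ‖g x * u x ^ k‖ ≤ ‖g x‖ := by
    intro k
    filter_upwards [hu1] with x hx
    rw [norm_mul, norm_pow]
    exact mul_le_of_le_one_right (norm_nonneg _) (pow_le_one₀ (norm_nonneg _) hx)
  have hint : ∀ k : ℕ, Integrable (fun x => g x * u x ^ k) μ := fun k =>
    hg.mono (hg.aestronglyMeasurable.mul (hu.pow k)) (hle k)
  have hint2 : ∀ k : ℕ, Integrable (fun x => d k * (g x * u x ^ k)) μ := fun k =>
    (hint k).const_mul _
  have hs : Summable (fun k : ℕ => ∫ x, ‖d k * (g x * u x ^ k)‖ ∂μ) := by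
    refine Summable.of_nonneg_of_le (fun k => integral_nonneg fun x => norm_nonneg _) ?_
      (hd.mul_right (∫ x, ‖g x‖ ∂μ))
    intro k
    rw [← integral_const_mul]
    refine integral_mono_ae (hint2 k).norm (hg.norm.const_mul _) ?_
    filter_upwards [hle k] with x hx
    rw [norm_mul]
    exact mul_le_mul_of_nonneg_left hx (norm_nonneg _)
  have h := (hasSum_integral_of_summable_integral_norm hint2 hs).tsum_eq
  have h1 : ∀ k : ℕ, ∫ x, d k * (g x * u x ^ k) ∂μ = d k * ∫ x, g x * u x ^ k ∂μ := fun k =>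
    integral_const_mul _ _
  simp only [h1] at h
  rw [h]
  congr 1
  funext x
  rw [← tsum_mul_left]
  congr 1
  funext k
  ring

theorem beta_int (u v : ℝ) (hu : 0 < u) (hv : 0 < v) :
    ∫ x in (0 : ℝ)..1, ((x ^ (u - 1) * (1 - x) ^ (v - 1) : ℝ) : ℂ) =
      ((Real.Gamma u * Real.Gamma v / Real.Gamma (u + v) : ℝ) : ℂ) := by
  have h := Complex.Gamma_mul_Gamma_eq_betaIntegral (s := (u : ℂ)) (t := (v : ℂ))
    (by simpa using hu) (by simpa using hv)
  have h2 : Complex.betaIntegral u v =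
      ∫ x in (0 : ℝ)..1, ((x ^ (u - 1) * (1 - x) ^ (v - 1) : ℝ) : ℂ) := by
    unfold Complex.betaIntegral
    apply intervalIntegral.integral_congr
    intro x hx
    rw [Set.uIcc_of_le zero_le_one] at hx
    simp only
    rw [Complex.ofReal_mul, Complex.ofReal_cpow hx.1, Complex.ofReal_cpow (by linarith [hx.2])]
    push_cast
    rfl
  rw [← h2]
  rw [← Complex.ofReal_add, Complex.Gamma_ofReal, Complex.Gamma_ofReal, Complex.Gamma_ofReal] at h
  have h3 : (Real.Gamma (u + v) : ℂ) ≠ 0 := by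
    exact_mod_cast (Real.Gamma_pos_of_pos (by linarith)).ne'
  push_cast
  rw [h]
  field_simp

theorem one_le_norm_tt (w : ℝ) : 1 ≤ ‖tt w‖ := by
  have h := Complex.abs_re_le_norm (tt w)
  have h2 : (tt w).re = 1 := by simp [tt]
  rw [h2, abs_one] at h
  exact h

theorem tt_ne (w : ℝ) : tt w ≠ 0 := by
  intro h
  have := one_le_norm_tt w
  rw [h, norm_zero] at this
  linarith

theorem continuous_tt : Continuous tt := by
  unfold tt
  fun_prop

theorem continuous_tt_cpow (z : ℂ) : Continuous (fun w => tt w ^ z) := by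
  rw [continuous_iff_continuousAt]
  intro w
  refine ContinuousAt.cpow continuous_tt.continuousAt continuousAt_const ?_
  left
  simp [tt]

theorem norm_tt_cpow (δ : ℝ) (hδ : 0 < δ) (w : ℝ) : ‖tt w ^ (-(δ : ℂ))‖ ≤ 1 := by
  have h : (-(δ : ℂ)) = ((-δ : ℝ) : ℂ) := by push_cast; rfl
  rw [h, Complex.norm_cpow_real]
  exact Real.rpow_le_one_of_one_le_of_nonpos (one_le_norm_tt w) (by linarith)

theorem sum_swap_unit (g u : ℝ → ℂ) (hg : Continuous g) (hu : Continuous u)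
    (hu1 : ∀ x ∈ Set.Icc (0 : ℝ) 1, ‖u x‖ ≤ 1) (d : ℕ → ℂ) (hd : Summable (fun k => ‖d k‖)) :
    ∫ x in (0 : ℝ)..1, g x * (∑' k : ℕ, d k * u x ^ k) =
      ∑' k : ℕ, d k * ∫ x in (0 : ℝ)..1, g x * u x ^ k := by
  simp only [intervalIntegral.integral_of_le (zero_le_one (α := ℝ))]
  apply sum_swap
  · exact (hg.integrableOn_Icc).mono_set Set.Ioc_subset_Icc_self
  · exact hu.aestronglyMeasurable
  · rw [ae_restrict_iff' measurableSet_Ioc]
    exact ae_of_all _ fun x hx => hu1 x ⟨hx.1.le, hx.2⟩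
  · exact hd

/-- `p^a (1-p)^b` as a complex number -/
noncomputable def uu (a b : ℝ) (x : ℝ) : ℂ := ((x ^ a * (1 - x) ^ b : ℝ) : ℂ)

theorem continuous_uu (a b : ℝ) (ha : 0 ≤ a) (hb : 0 ≤ b) : Continuous (uu a b) := by
  unfold uu
  refine Complex.continuous_ofReal.comp (Continuous.mul ?_ ?_)
  · exact continuous_id.rpow_const fun x => Or.inr ha
  · exact (continuous_const.sub continuous_id).rpow_const fun x => Or.inr hb

theorem norm_uu_le (a b : ℝ) (ha : 0 ≤ a) (hb : 0 ≤ b) (x : ℝ) (hx : x ∈ Set.Icc (0 : ℝ) 1) :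
    ‖uu a b x‖ ≤ 1 := by
  have h1 : 0 ≤ 1 - x := by linarith [hx.2]
  unfold uu
  rw [Complex.norm_real, Real.norm_of_nonneg
    (mul_nonneg (Real.rpow_nonneg hx.1 _) (Real.rpow_nonneg h1 _))]
  exact mul_le_one₀ (Real.rpow_le_one hx.1 hx.2 ha) (Real.rpow_nonneg h1 _)
    (Real.rpow_le_one h1 (by linarith [hx.1]) hb)

theorem summable_exp_coeff (z : ℂ) : Summable (fun k : ℕ => ‖z ^ k / (k.factorial : ℂ)‖) := by
  have h := Real.summable_pow_div_factorial ‖z‖
  refine h.congr fun k => ?_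
  rw [norm_div, norm_pow, Complex.norm_natCast]

theorem exp_tsum (z : ℂ) : cexp z = ∑' n : ℕ, z ^ n / (n.factorial : ℂ) := by
  rw [Complex.exp_eq_exp_ℂ, NormedSpace.exp_eq_tsum_div]

/-- the moments of `p^a (1-p)^b` -/
noncomputable def ck (a b : ℝ) (k : ℕ) : ℂ := ∫ x in (0 : ℝ)..1, uu a b x ^ k

theorem KK_tsum (a b : ℝ) (ha : 0 ≤ a) (hb : 0 ≤ b) (ζ : ℂ) :
    KK a b ζ = ∑' k : ℕ, ((-ζ) ^ k / (k.factorial : ℂ)) * ck a b k := by
  have h := sum_swap_unit (fun _ => 1) (uu a b) continuous_const (continuous_uu a b ha hb)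
    (norm_uu_le a b ha hb) (fun k => (-ζ) ^ k / (k.factorial : ℂ)) (summable_exp_coeff (-ζ))
  simp only [one_mul] at h
  unfold KK ck
  rw [← h]
  congr 1
  funext p
  rw [exp_tsum]
  congr 1
  funext k
  unfold uu
  rw [show -(ζ * ((p ^ a * (1 - p) ^ b : ℝ) : ℂ)) = (-ζ) * ((p ^ a * (1 - p) ^ b : ℝ) : ℂ) by ring,
    mul_pow]
  ring

theorem norm_ck_le (a b : ℝ) (ha : 0 ≤ a) (hb : 0 ≤ b) (k : ℕ) : ‖ck a b k‖ ≤ 1 := by
  unfold ck
  have h := intervalIntegral.norm_integral_le_of_norm_le_const (a := (0 : ℝ)) (b := 1)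
    (C := 1) (f := fun x => uu a b x ^ k) (by
      intro x hx
      rw [Set.uIoc_of_le zero_le_one] at hx
      rw [norm_pow]
      exact pow_le_one₀ (norm_nonneg _) (norm_uu_le a b ha hb x ⟨hx.1.le, hx.2⟩))
  simpa using h

theorem ck_eq (a b : ℝ) (ha : 0 < a) (hb : 0 < b) (k : ℕ) :
    ck a b k = ((Real.Gamma (a * k + 1) * Real.Gamma (b * k + 1) /
      Real.Gamma ((a + b) * k + 2) : ℝ) : ℂ) := by
  have hk : (0 : ℝ) ≤ k := Nat.cast_nonneg k
  have h := beta_int (a * k + 1) (b * k + 1) (by positivity) (by positivity)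
  rw [show a * k + 1 + (b * k + 1) = (a + b) * k + 2 by ring] at h
  rw [← h]
  unfold ck
  apply intervalIntegral.integral_congr
  intro x hx
  rw [Set.uIcc_of_le zero_le_one] at hx
  simp only [uu]
  rw [← Complex.ofReal_pow, mul_pow, ← Real.rpow_mul_natCast hx.1,
    ← Real.rpow_mul_natCast (by linarith [hx.2])]
  simp only [add_sub_cancel_right]

/-- the moments of `s^(a+b) (1-s)^δ` with weight `s (1-s)^(β-1)` -/
noncomputable def bk (e δ β : ℝ) (k : ℕ) : ℂ :=
  ∫ s in (0 : ℝ)..1, uu 1 (β - 1) s * uu e δ s ^ k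

theorem norm_bk_le (e δ β : ℝ) (he : 0 ≤ e) (hδ : 0 ≤ δ) (hβ : 1 ≤ β) (k : ℕ) :
    ‖bk e δ β k‖ ≤ 1 := by
  unfold bk
  have h := intervalIntegral.norm_integral_le_of_norm_le_const (a := (0 : ℝ)) (b := 1)
    (C := 1) (f := fun s => uu 1 (β - 1) s * uu e δ s ^ k) (by
      intro x hx
      rw [Set.uIoc_of_le zero_le_one] at hx
      rw [norm_mul, norm_pow]
      exact mul_le_one₀ (norm_uu_le 1 (β - 1) zero_le_one (by linarith) x ⟨hx.1.le, hx.2⟩)
        (pow_nonneg (norm_nonneg _) _)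
        (pow_le_one₀ (norm_nonneg _) (norm_uu_le e δ he hδ x ⟨hx.1.le, hx.2⟩)))
  simpa using h

theorem bk_eq (e δ β : ℝ) (he : 0 < e) (hδ : 0 < δ) (hβ : 1 < β) (k : ℕ) :
    bk e δ β k = ((Real.Gamma (e * k + 2) * Real.Gamma (δ * k + β) /
      Real.Gamma ((e + δ) * k + (β + 1) + 1) : ℝ) : ℂ) := by
  have hk : (0 : ℝ) ≤ k := Nat.cast_nonneg k
  have h := beta_int (e * k + 2) (δ * k + β) (by positivity) (by positivity)
  rw [show e * k + 2 + (δ * k + β) = (e + δ) * k + (β + 1) + 1 by ring] at h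
  rw [← h]
  unfold bk
  apply intervalIntegral.integral_congr
  intro x hx
  rw [Set.uIcc_of_le zero_le_one] at hx
  have hx1 : 0 ≤ 1 - x := by linarith [hx.2]
  simp only [uu]
  rw [← Complex.ofReal_pow, ← Complex.ofReal_mul, mul_pow, ← Real.rpow_mul_natCast hx.1,
    ← Real.rpow_mul_natCast hx1]
  congr 1
  rw [Real.rpow_one, show e * k + 2 - 1 = e * k + 1 by ring,
    Real.rpow_add_one' hx.1 (by positivity), show δ * k + β - 1 = (β - 1) + δ * k by ring,
    Real.rpow_add_of_nonneg hx1 (by linarith) (by positivity)]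
  ring

theorem t_Rep : S_Brom → S_Rep := by
  intro hB a b δ β r ha hb hδ hδ1 hβ hr
  have hab : 0 < a + b := by linarith
  -- the coefficients
  set D : ℕ → ℂ := fun k => ((-(r : ℂ)) ^ k / (k.factorial : ℂ)) * ck a b k with hD
  have hDs : Summable (fun k => ‖D k‖) := by
    refine Summable.of_nonneg_of_le (fun k => norm_nonneg _) (fun k => ?_)
      (summable_exp_coeff (-(r : ℂ)))
    rw [hD]
    simp only
    rw [norm_mul]
    exact mul_le_of_le_one_right (norm_nonneg _) (norm_ck_le a b ha.le hb.le k)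
  -- inner integral
  have hin : ∀ w : ℝ, (∫ s in (0 : ℝ)..1, ((s * (1 - s) ^ (β - 1) : ℝ) : ℂ) *
      (cexp (tt w) * (tt w) ^ (-(β : ℂ))) *
      KK a b ((r : ℂ) * (((s ^ (a + b) * (1 - s) ^ δ : ℝ) : ℂ) * (tt w) ^ (-(δ : ℂ))))) =
      (cexp (tt w) * (tt w) ^ (-(β : ℂ))) *
        ∑' k : ℕ, (D k * bk (a + b) δ β k) * ((tt w) ^ (-(δ : ℂ))) ^ k := by
    intro w
    set V : ℂ := (tt w) ^ (-(δ : ℂ)) with hV
    set E : ℂ := cexp (tt w) * (tt w) ^ (-(β : ℂ)) with hE
    have hV1 : ‖V‖ ≤ 1 := norm_tt_cpow δ hδ w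
    have h := sum_swap_unit (fun s => uu 1 (β - 1) s * E) (uu (a + b) δ)
      ((continuous_uu 1 (β - 1) zero_le_one (by linarith)).mul continuous_const)
      (continuous_uu (a + b) δ hab.le hδ.le) (norm_uu_le (a + b) δ hab.le hδ.le)
      (fun k => D k * V ^ k) (by
        refine Summable.of_nonneg_of_le (fun k => norm_nonneg _) (fun k => ?_) hDs
        rw [norm_mul, norm_pow]
        exact mul_le_of_le_one_right (norm_nonneg _) (pow_le_one₀ (norm_nonneg _) hV1))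
    have h2 : (∫ s in (0 : ℝ)..1, ((s * (1 - s) ^ (β - 1) : ℝ) : ℂ) * E *
        KK a b ((r : ℂ) * (((s ^ (a + b) * (1 - s) ^ δ : ℝ) : ℂ) * V))) =
        ∫ s in (0 : ℝ)..1, (uu 1 (β - 1) s * E) *
          ∑' k : ℕ, (D k * V ^ k) * uu (a + b) δ s ^ k := by
      congr 1
      funext s
      rw [KK_tsum a b ha.le hb.le]
      have h3 : ∀ k : ℕ, (-((r : ℂ) * (((s ^ (a + b) * (1 - s) ^ δ : ℝ) : ℂ) * V))) ^ k /
          (k.factorial : ℂ) * ck a b k = (D k * V ^ k) * uu (a + b) δ s ^ k := by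
        intro k
        rw [hD]
        simp only [uu]
        rw [show -((r : ℂ) * (((s ^ (a + b) * (1 - s) ^ δ : ℝ) : ℂ) * V)) =
          (-(r : ℂ)) * (V * ((s ^ (a + b) * (1 - s) ^ δ : ℝ) : ℂ)) by ring, mul_pow, mul_pow]
        ring
      simp only [h3]
      unfold uu
      rw [Real.rpow_one]
    rw [h2, h, ← tsum_mul_left]
    congr 1
    funext k
    have h4 : (∫ x in (0 : ℝ)..1, uu 1 (β - 1) x * E * uu (a + b) δ x ^ k) =
        E * bk (a + b) δ β k := by
      unfold bk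
      rw [← intervalIntegral.integral_const_mul]
      congr 1
      funext x
      ring
    rw [h4]
    ring
  simp only [hin]
  have hout := sum_swap (μ := (volume : Measure ℝ))
    (fun w => cexp (tt w) * (tt w) ^ (-(β : ℂ))) (fun w => (tt w) ^ (-(δ : ℂ)))
    (hB β hβ).1 (continuous_tt_cpow _).aestronglyMeasurable
    (ae_of_all _ fun w => norm_tt_cpow δ hδ w)
    (fun k => D k * bk (a + b) δ β k) (by
      refine Summable.of_nonneg_of_le (fun k => norm_nonneg _) (fun k => ?_) hDs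
      rw [norm_mul]
      exact mul_le_of_le_one_right (norm_nonneg _) (norm_bk_le _ _ _ hab.le hδ.le hβ.le k))
  rw [hout]
  congr 1
  funext k
  have hk : (0 : ℝ) ≤ k := Nat.cast_nonneg k
  have hx : 1 < δ * k + β := by nlinarith
  have h5 : (∫ w : ℝ, cexp (tt w) * (tt w) ^ (-(β : ℂ)) * ((tt w) ^ (-(δ : ℂ))) ^ k) =
      ((1 / Real.Gamma (δ * k + β) : ℝ) : ℂ) := by
    rw [← (hB (δ * k + β) hx).2]
    congr 1
    funext w
    rw [mul_assoc, ← Complex.cpow_mul_nat, ← Complex.cpow_add _ _ (tt_ne w)]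
    congr 2
    push_cast
    ring
  rw [h5, hD]
  simp only
  rw [ck_eq a b ha hb k, bk_eq (a + b) δ β hab hδ hβ k]
  have g1 : Real.Gamma ((a + b) * k + 2) ≠ 0 := (Real.Gamma_pos_of_pos (by positivity)).ne'
  have g2 : Real.Gamma (δ * k + β) ≠ 0 := (Real.Gamma_pos_of_pos (by linarith)).ne'
  have h6 : (Real.Gamma (a * k + 1) * Real.Gamma (b * k + 1) /
      Real.Gamma ((a + b + δ) * k + (β + 1) + 1) : ℝ) =
      (Real.Gamma (a * k + 1) * Real.Gamma (b * k + 1) / Real.Gamma ((a + b) * k + 2)) *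
      (Real.Gamma ((a + b) * k + 2) * Real.Gamma (δ * k + β) /
        Real.Gamma ((a + b + δ) * k + (β + 1) + 1)) * (1 / Real.Gamma (δ * k + β)) := by
    field_simp
  rw [h6, Complex.ofReal_mul, Complex.ofReal_mul]
  ring

end Pool.Agent.H637W.MB
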