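import Pool.Agent.H637W.Spec

set_option autoImplicit false

/-! Project MB, complex version. -/

namespace Pool.Agent.H637W.MB

open Complex Filter Topology MeasureTheory

/-- Task REPC (from BROM): the integral representation at a complex point. -/
def S_RepC : Prop := ∀ (a b δ β : ℝ) (z : ℂ), 0 < a → 0 < b → 0 < δ → δ < 1 → 1 < β →
  (∑' k : ℕ, ((Real.Gamma (a * k + 1) * Real.Gamma (b * k + 1) /
      Real.Gamma ((a + b + δ) * k + (β + 1) + 1) : ℝ) : ℂ) *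
      ((-z) ^ k / (k.factorial : ℂ))) =
    ∫ w : ℝ, ∫ s in (0 : ℝ)..1, ((s * (1 - s) ^ (β - 1) : ℝ) : ℂ) *
      (cexp (tt w) * (tt w) ^ (-(β : ℂ))) *
      KK a b (z * (((s ^ (a + b) * (1 - s) ^ δ : ℝ) : ℂ) * (tt w) ^ (-(δ : ℂ))))

/-- Task STEP: an asymptotic relation in sectors may be differentiated.  `f` is the function,
`σ > 0` the exponent: if `R^σ f(-R e^{iφ}) → C e^{-iσφ}` for `|φ| < η`, boundedly, then the same for
`x f'(x)` at `x = -R e^{iφ}` with the constant `-σ C`, in every smaller sector. -/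
def S_Step : Prop := ∀ (f : ℂ → ℂ) (σ η η' : ℝ) (C : ℂ), Differentiable ℂ f → 0 < η' → η' < η →
  η < Real.pi / 2 →
  (∃ B : ℝ, ∀ R φ : ℝ, 1 ≤ R → |φ| < η → R ^ σ * ‖f (-((R : ℂ) * cexp (φ * I)))‖ ≤ B) →
  (∀ φ : ℝ, |φ| < η → Tendsto (fun R : ℝ => ((R ^ σ : ℝ) : ℂ) * f (-((R : ℂ) * cexp (φ * I)))) atTop
    (𝓝 (C * cexp (-(σ * φ * I))))) →
  (∃ B : ℝ, ∀ R φ : ℝ, 1 ≤ R → |φ| < η' →
    R ^ σ * ‖-((R : ℂ) * cexp (φ * I)) * deriv f (-((R : ℂ) * cexp (φ * I)))‖ ≤ B) ∧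
  (∀ φ : ℝ, |φ| < η' → Tendsto (fun R : ℝ => ((R ^ σ : ℝ) : ℂ) *
      (-((R : ℂ) * cexp (φ * I)) * deriv f (-((R : ℂ) * cexp (φ * I))))) atTop
    (𝓝 (-(σ : ℂ) * C * cexp (-(σ * φ * I)))))

end Pool.Agent.H637W.MB
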