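import Pool.Agent.H637W.Rep
import Pool.Agent.H637W.Spec2

set_option autoImplicit false

/-!
Project MB, task REPC: the integral representation at a complex point, from the Bromwich formula.
-/

namespace Pool.Agent.H637W.MB

open Complex Filter Topology MeasureTheory

theorem t_RepC : S_Brom → S_RepC := by
  intro hB a b δ β z ha hb hδ hδ1 hβ
  have hab : 0 < a + b := by linarith
  -- the coefficients
  set D : ℕ → ℂ := fun k => ((-z) ^ k / (k.factorial : ℂ)) * ck a b k with hD
  have hDs : Summable (fun k => ‖D k‖) := by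
    refine Summable.of_nonneg_of_le (fun k => norm_nonneg _) (fun k => ?_)
      (summable_exp_coeff (-z))
    rw [hD]
    simp only
    rw [norm_mul]
    exact mul_le_of_le_one_right (norm_nonneg _) (norm_ck_le a b ha.le hb.le k)
  -- inner integral
  have hin : ∀ w : ℝ, (∫ s in (0 : ℝ)..1, ((s * (1 - s) ^ (β - 1) : ℝ) : ℂ) *
      (cexp (tt w) * (tt w) ^ (-(β : ℂ))) *
      KK a b (z * (((s ^ (a + b) * (1 - s) ^ δ : ℝ) : ℂ) * (tt w) ^ (-(δ : ℂ))))) =
      (cexp (tt w) * (tt w) ^ (-(β : ℂ))) *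
        ∑' k : ℕ, (D k * bk (a + b) δ β k) * ((tt w) ^ (-(δ : ℂ))) ^ k := by
    intro w
    set V : ℂ := (tt w) ^ (-(δ : ℂ)) with hV
    set E : ℂ := cexp (tt w) * (tt w) ^ (-(β : ℂ)) with hE
    have hV1 : ‖V‖ ≤ 1 := norm_tt_cpow δ hδ w
    have h := sum_swap_unit (fun s => uu 1 (β - 1) s * E) (uu (a + b) δ)
      ((continuous_uu 1 (β - 1) zero_le_one (by linarith)).mul continuous_const)
      (continuous_uu (a + b) δ hab.le hδ.le) (norm_uu_le (a + b) δ hab.le hδ.le)
      (fun k => D k * V ^ k) (by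
        refine Summable.of_nonneg_of_le (fun k => norm_nonneg _) (fun k => ?_) hDs
        rw [norm_mul, norm_pow]
        exact mul_le_of_le_one_right (norm_nonneg _) (pow_le_one₀ (norm_nonneg _) hV1))
    have h2 : (∫ s in (0 : ℝ)..1, ((s * (1 - s) ^ (β - 1) : ℝ) : ℂ) * E *
        KK a b (z * (((s ^ (a + b) * (1 - s) ^ δ : ℝ) : ℂ) * V))) =
        ∫ s in (0 : ℝ)..1, (uu 1 (β - 1) s * E) *
          ∑' k : ℕ, (D k * V ^ k) * uu (a + b) δ s ^ k := by
      congr 1
      funext s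
      rw [KK_tsum a b ha.le hb.le]
      have h3 : ∀ k : ℕ, (-(z * (((s ^ (a + b) * (1 - s) ^ δ : ℝ) : ℂ) * V))) ^ k /
          (k.factorial : ℂ) * ck a b k = (D k * V ^ k) * uu (a + b) δ s ^ k := by
        intro k
        rw [hD]
        simp only [uu]
        rw [show -(z * (((s ^ (a + b) * (1 - s) ^ δ : ℝ) : ℂ) * V)) =
          (-z) * (V * ((s ^ (a + b) * (1 - s) ^ δ : ℝ) : ℂ)) by ring, mul_pow, mul_pow]
        ring
      simp only [h3]
      unfold uu
      rw [Real.rpow_one]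
    rw [h2, h, ← tsum_mul_left]
    congr 1
    funext k
    have h4 : (∫ x in (0 : ℝ)..1, uu 1 (β - 1) x * E * uu (a + b) δ x ^ k) =
        E * bk (a + b) δ β k := by
      unfold bk
      rw [← intervalIntegral.integral_const_mul]
      congr 1
      funext x
      ring
    rw [h4]
    ring
  simp only [hin]
  have hout := sum_swap (μ := (volume : Measure ℝ))
    (fun w => cexp (tt w) * (tt w) ^ (-(β : ℂ))) (fun w => (tt w) ^ (-(δ : ℂ)))
    (hB β hβ).1 (continuous_tt_cpow _).aestronglyMeasurable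
    (ae_of_all _ fun w => norm_tt_cpow δ hδ w)
    (fun k => D k * bk (a + b) δ β k) (by
      refine Summable.of_nonneg_of_le (fun k => norm_nonneg _) (fun k => ?_) hDs
      rw [norm_mul]
      exact mul_le_of_le_one_right (norm_nonneg _) (norm_bk_le _ _ _ hab.le hδ.le hβ.le k))
  rw [hout]
  congr 1
  funext k
  have hk : (0 : ℝ) ≤ k := Nat.cast_nonneg k
  have hx : 1 < δ * k + β := by nlinarith
  have h5 : (∫ w : ℝ, cexp (tt w) * (tt w) ^ (-(β : ℂ)) * ((tt w) ^ (-(δ : ℂ))) ^ k) =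
      ((1 / Real.Gamma (δ * k + β) : ℝ) : ℂ) := by
    rw [← (hB (δ * k + β) hx).2]
    congr 1
    funext w
    rw [mul_assoc, ← Complex.cpow_mul_nat, ← Complex.cpow_add _ _ (tt_ne w)]
    congr 2
    push_cast
    ring
  rw [h5, hD]
  simp only
  rw [ck_eq a b ha hb k, bk_eq (a + b) δ β hab hδ hβ k]
  have g1 : Real.Gamma ((a + b) * k + 2) ≠ 0 := (Real.Gamma_pos_of_pos (by positivity)).ne'
  have g2 : Real.Gamma (δ * k + β) ≠ 0 := (Real.Gamma_pos_of_pos (by linarith)).ne'
  have h6 : (Real.Gamma (a * k + 1) * Real.Gamma (b * k + 1) /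
      Real.Gamma ((a + b + δ) * k + (β + 1) + 1) : ℝ) =
      (Real.Gamma (a * k + 1) * Real.Gamma (b * k + 1) / Real.Gamma ((a + b) * k + 2)) *
      (Real.Gamma ((a + b) * k + 2) * Real.Gamma (δ * k + β) /
        Real.Gamma ((a + b + δ) * k + (β + 1) + 1)) * (1 / Real.Gamma (δ * k + β)) := by
    field_simp
  rw [h6, Complex.ofReal_mul, Complex.ofReal_mul]
  ring

end Pool.Agent.H637W.MB
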