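import Pool.Agent.H637W.Spec2

set_option autoImplicit false

/-! Task STEP of project MB: an asymptotic relation in sectors may be differentiated. -/

namespace Pool.Agent.H637W.MB

open Complex Filter Topology MeasureTheory

theorem step_polar (R φ : ℝ) (z : ℂ) :
    -((R:ℂ) * cexp (φ * I)) * z
      = -(((R * ‖z‖ : ℝ) : ℂ) * cexp (((φ + arg z : ℝ) : ℂ) * I)) := by
  conv_lhs => rw [← Complex.norm_mul_exp_arg_mul_I z]
  push_cast
  rw [add_mul, Complex.exp_add]
  ring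

theorem step_cpow (σ : ℝ) (z : ℂ) (hz : z ≠ 0) :
    z ^ (-(σ:ℂ)) = ((‖z‖ ^ (-σ) : ℝ) : ℂ) * cexp (-(σ * (arg z) * I)) := by
  rw [Complex.cpow_def_of_ne_zero hz, Real.rpow_def_of_pos (norm_pos_iff.mpr hz),
    Complex.ofReal_exp, ← Complex.exp_add]
  congr 1
  rw [Complex.log]
  push_cast
  ring

theorem step_exists_t (ε : ℝ) (hε : 0 < ε) :
    ∃ t : ℝ, 0 < t ∧ t ≤ 1/2 ∧ ∀ z : ℂ, ‖z - 1‖ ≤ t → |arg z| < ε := by
  have h := Complex.continuousAt_arg (x := 1) (by simp [Complex.slitPlane])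
  rw [Metric.continuousAt_iff] at h
  obtain ⟨δ, hδ, h⟩ := h ε hε
  refine ⟨min (δ/2) (1/2), by positivity, min_le_right _ _, fun z hz => ?_⟩
  have h1 : dist z 1 < δ := by
    rw [dist_eq_norm]
    exact lt_of_le_of_lt hz (lt_of_le_of_lt (min_le_left _ _) (by linarith))
  have h2 := h h1
  simpa [Real.dist_eq] using h2

theorem step_cauchy (f : ℂ → ℂ) (hf : Differentiable ℂ f) (x : ℂ) (t : ℝ) (ht : 0 < t) :
    (∮ z in C(1, t), (1 / (z - 1) ^ 2) • f (x * z))
      = (2 * Real.pi * I) * (x * deriv f x) := by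
  have hd : Differentiable ℂ (fun z => f (x * z)) := hf.comp (by fun_prop)
  have h := (hd.diffContOnCl (s := Metric.ball 1 t)).deriv_eq_smul_circleIntegral ht
  have hderiv : deriv (fun z => f (x*z)) 1 = x * deriv f x := by
    have h1 : HasDerivAt f (deriv f x) (x * 1) := by
      rw [mul_one]; exact (hf x).hasDerivAt
    have h2 : HasDerivAt (fun z : ℂ => x * z) x 1 := by
      simpa using (hasDerivAt_id (1:ℂ)).const_mul x
    have h3 : HasDerivAt (fun z => f (x * z)) (deriv f x * x) 1 := h1.comp (1:ℂ) h2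
    rw [h3.deriv]; ring
  rw [h, hderiv, smul_eq_mul]

theorem step_slit (t : ℝ) (ht : t ≤ 1/2) (z : ℂ) (hz : ‖z - 1‖ ≤ t) :
    z ∈ slitPlane ∧ 1/2 ≤ ‖z‖ ∧ ‖z‖ ≤ 3/2 := by
  have h1 : |(z - 1).re| ≤ 1/2 := (Complex.abs_re_le_norm _).trans (hz.trans ht)
  have h2 : 1/2 ≤ z.re := by
    have := (abs_le.mp h1).1
    simp at this
    linarith
  refine ⟨Or.inl (by linarith), h2.trans (Complex.re_le_norm z), ?_⟩
  calc ‖z‖ = ‖(z - 1) + 1‖ := by ring_nf
    _ ≤ ‖z - 1‖ + ‖(1:ℂ)‖ := norm_add_le _ _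
    _ ≤ 3/2 := by rw [norm_one]; linarith

theorem step_cauchy_pow (σ : ℝ) (t : ℝ) (ht : 0 < t) (ht2 : t ≤ 1/2) :
    (∮ z in C(1, t), (1 / (z - 1) ^ 2) • (z ^ (-(σ:ℂ))))
      = (2 * Real.pi * I) * (-(σ:ℂ)) := by
  have hd : DifferentiableOn ℂ (fun z : ℂ => z ^ (-(σ:ℂ))) (Metric.closedBall 1 t) := by
    intro z hz
    have hz' : ‖z - 1‖ ≤ t := by rwa [← dist_eq_norm]
    have := (step_slit t ht2 z hz').1
    exact (DifferentiableAt.cpow_const differentiableAt_id this).differentiableWithinAt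
  have h := hd.deriv_eq_smul_circleIntegral ht
  rw [h, smul_eq_mul]
  congr 1
  have h1 : HasDerivAt (fun z : ℂ => z ^ (-(σ:ℂ))) (-(σ:ℂ) * (1:ℂ) ^ (-(σ:ℂ) - 1) * 1) 1 :=
    HasDerivAt.cpow_const (hasDerivAt_id (1:ℂ)) (by simp [Complex.slitPlane])
  rw [h1.deriv]
  simp

theorem step_rpow (σ R r : ℝ) (hR : 0 < R) (hr : 0 < r) :
    R ^ σ = r ^ (-σ) * (R * r) ^ σ := by
  rw [Real.mul_rpow hR.le hr.le, Real.rpow_neg hr.le]
  have : r ^ σ ≠ 0 := (Real.rpow_pos_of_pos hr _).ne'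
  field_simp

theorem step_pt_bound (f : ℂ → ℂ) (σ η η' t B M : ℝ)
    (hB : ∀ R φ : ℝ, 1 ≤ R → |φ| < η → R ^ σ * ‖f (-((R : ℂ) * cexp (φ * I)))‖ ≤ B)
    (hM : ∀ r ∈ Set.Icc (1/2:ℝ) (3/2), ‖r ^ (-σ)‖ ≤ M)
    (ht2 : t ≤ 1/2) (harg : ∀ z : ℂ, ‖z - 1‖ ≤ t → |arg z| < η - η')
    (R φ : ℝ) (hR : 2 ≤ R) (hφ : |φ| < η') (z : ℂ) (hz : ‖z - 1‖ ≤ t) :
    ‖((R ^ σ : ℝ) : ℂ) * f (-((R:ℂ) * cexp (φ * I)) * z)‖ ≤ M * B := by
  obtain ⟨-, h1, h2⟩ := step_slit t ht2 z hz
  have hz0 : 0 < ‖z‖ := by linarith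
  have hR0 : 0 < R := by linarith
  have hsum : |φ + arg z| < η := by
    calc |φ + arg z| ≤ |φ| + |arg z| := abs_add_le _ _
      _ < η := by linarith [harg z hz]
  have hb := hB (R * ‖z‖) (φ + arg z) (by nlinarith) hsum
  rw [step_polar]
  have e := step_rpow σ R ‖z‖ hR0 hz0
  rw [norm_mul, Complex.norm_real, Real.norm_of_nonneg (Real.rpow_nonneg hR0.le _), e, mul_assoc]
  have hm := hM ‖z‖ ⟨h1, h2⟩
  rw [Real.norm_of_nonneg (Real.rpow_nonneg hz0.le _)] at hm
  have h3 : 0 ≤ (R * ‖z‖) ^ σ *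
      ‖f (-(((R * ‖z‖ : ℝ) : ℂ) * cexp (((φ + arg z : ℝ) : ℂ) * I)))‖ := by positivity
  exact (mul_le_mul_of_nonneg_right hm h3).trans
    (mul_le_mul_of_nonneg_left hb (le_trans (Real.rpow_nonneg hz0.le _) hm))

theorem step_pt_lim (f : ℂ → ℂ) (σ η η' t : ℝ) (C : ℂ)
    (hL : ∀ φ : ℝ, |φ| < η →
      Tendsto (fun R : ℝ => ((R ^ σ : ℝ) : ℂ) * f (-((R : ℂ) * cexp (φ * I)))) atTop
      (𝓝 (C * cexp (-(σ * φ * I)))))
    (ht2 : t ≤ 1/2) (harg : ∀ z : ℂ, ‖z - 1‖ ≤ t → |arg z| < η - η')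
    (φ : ℝ) (hφ : |φ| < η') (z : ℂ) (hz : ‖z - 1‖ ≤ t) :
    Tendsto (fun R : ℝ => ((R ^ σ : ℝ) : ℂ) * f (-((R:ℂ) * cexp (φ * I)) * z)) atTop
      (𝓝 (C * cexp (-(σ * φ * I)) * z ^ (-(σ:ℂ)))) := by
  obtain ⟨-, h1, h2⟩ := step_slit t ht2 z hz
  have hz0 : 0 < ‖z‖ := by linarith
  have hsum : |φ + arg z| < η := by
    calc |φ + arg z| ≤ |φ| + |arg z| := abs_add_le _ _
      _ < η := by linarith [harg z hz]
  have h3 := hL (φ + arg z) hsum
  have h4 : Tendsto (fun R : ℝ => R * ‖z‖) atTop atTop := tendsto_id.atTop_mul_const hz0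
  have h5 := (h3.comp h4).const_mul ((‖z‖ ^ (-σ) : ℝ) : ℂ)
  have e2 : ((‖z‖ ^ (-σ) : ℝ) : ℂ) * (C * cexp (-(σ * ((φ + arg z : ℝ) : ℂ) * I)))
      = C * cexp (-(σ * φ * I)) * z ^ (-(σ:ℂ)) := by
    rw [step_cpow σ z (norm_pos_iff.mp hz0)]
    have : cexp (-(σ * ((φ + arg z : ℝ) : ℂ) * I))
        = cexp (-(σ * φ * I)) * cexp (-(σ * (arg z) * I)) := by
      rw [← Complex.exp_add]; congr 1; push_cast; ring
    rw [this]; ring
  rw [e2] at h5
  refine h5.congr' ?_
  filter_upwards [eventually_gt_atTop (0:ℝ)] with R hR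
  simp only [Function.comp]
  rw [step_polar, step_rpow σ R ‖z‖ hR hz0]
  push_cast
  ring

theorem t_Step : S_Step := by
  intro f σ η η' C hf hη' hηη hηπ hBB hL
  obtain ⟨B, hB⟩ := hBB
  obtain ⟨t, ht0, ht2, harg⟩ := step_exists_t (η - η') (by linarith)
  have hB0 : 0 ≤ B := le_trans (by positivity)
    (hB 1 0 le_rfl (by simpa using hη'.trans hηη))
  obtain ⟨M, hM⟩ := (isCompact_Icc (a := (1/2:ℝ)) (b := 3/2)).exists_bound_of_continuousOn
    (f := fun r : ℝ => r ^ (-σ)) (fun r hr =>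
      (Real.continuousAt_rpow_const r (-σ) (Or.inl (by linarith [hr.1]))).continuousWithinAt)
  have hcau : ∀ R φ : ℝ, (∮ z in C(1, t), (1 / (z - 1) ^ 2) •
      (((R ^ σ : ℝ) : ℂ) * f (-((R:ℂ) * cexp (φ * I)) * z)))
      = (2 * Real.pi * I) * (((R ^ σ : ℝ) : ℂ) *
        (-((R:ℂ) * cexp (φ * I)) * deriv f (-((R:ℂ) * cexp (φ * I))))) := by
    intro R φ
    have h := step_cauchy (fun w => ((R ^ σ : ℝ) : ℂ) * f w) (hf.const_mul _)
      (-((R:ℂ) * cexp (φ * I))) t ht0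
    have h' : deriv (fun w => ((R ^ σ : ℝ) : ℂ) * f w) (-((R:ℂ) * cexp (φ * I)))
        = ((R ^ σ : ℝ) : ℂ) * deriv f (-((R:ℂ) * cexp (φ * I))) :=
      (((hf _).hasDerivAt).const_mul _).deriv
    rw [h'] at h
    rw [h]; ring
  constructor
  · have hc : Continuous (deriv f) := by
      have h1 : ContDiff ℂ 1 f := hf.contDiff
      exact h1.continuous_deriv le_rfl
    have hcont : ContinuousOn (fun p : ℝ × ℝ =>
        p.1 ^ σ * ‖-((p.1 : ℂ) * cexp (p.2 * I)) * deriv f (-((p.1 : ℂ) * cexp (p.2 * I)))‖)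
        (Set.Icc (1:ℝ) 2 ×ˢ Set.Icc (-η') η') := by
      apply ContinuousOn.mul
      · intro p hp
        have hp1 : p.1 ≠ 0 := by
          have := hp.1.1
          intro h0
          rw [h0] at this
          norm_num at this
        exact ((Real.continuousAt_rpow_const p.1 σ (Or.inl hp1)).comp
          continuousAt_fst).continuousWithinAt
      · have hx : Continuous (fun p : ℝ × ℝ => -((p.1 : ℂ) * cexp (p.2 * I))) := by fun_prop
        exact ((hx.mul (hc.comp hx)).norm).continuousOn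
    obtain ⟨B2, hB2⟩ := ((isCompact_Icc (a := (1:ℝ)) (b := 2)).prod
      (isCompact_Icc (a := -η') (b := η'))).exists_bound_of_continuousOn hcont
    refine ⟨max B2 (M * B / t), fun R φ hR hφ => ?_⟩
    rcases le_total R 2 with h2 | h2
    · refine le_trans ?_ (le_max_left _ _)
      have := hB2 (R, φ) ⟨⟨hR, h2⟩, ⟨(abs_lt.mp hφ).1.le, (abs_lt.mp hφ).2.le⟩⟩
      exact (le_abs_self _).trans this
    · refine le_trans ?_ (le_max_right _ _)
      have h := circleIntegral.norm_integral_le_of_norm_le_const (c := 1) (R := t)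
        (f := fun z => (1 / (z - 1) ^ 2) • (((R ^ σ : ℝ) : ℂ) * f (-((R:ℂ) * cexp (φ * I)) * z)))
        (C := (1/t^2) * (M*B)) ht0.le (fun z hz => by
          have hz' : ‖z - 1‖ = t := by simpa using hz
          rw [norm_smul, norm_div, norm_pow, hz', norm_one]
          exact mul_le_mul_of_nonneg_left
            (step_pt_bound f σ η η' t B M hB hM ht2 harg R φ h2 hφ z hz'.le) (by positivity))
      rw [hcau, norm_mul] at h
      have hn : ‖(2 * Real.pi * I : ℂ)‖ = 2 * Real.pi := by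
        simp [abs_of_pos Real.pi_pos]
      rw [hn, norm_mul, Complex.norm_real,
        Real.norm_of_nonneg (Real.rpow_nonneg (by linarith : (0:ℝ) ≤ R) _)] at h
      have h3 : 2 * Real.pi * t * (1 / t ^ 2 * (M * B)) = 2 * Real.pi * (M * B / t) := by
        field_simp
      rw [h3] at h
      exact le_of_mul_le_mul_left h (by positivity)
  · intro φ hφ
    have hne : ∀ θ : ℝ, circleMap 1 t θ - 1 ≠ 0 := by
      intro θ
      simp [circleMap, ht0.ne']
    have hnorm : ∀ θ : ℝ, ‖circleMap 1 t θ - 1‖ = t := by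
      intro θ
      simp [circleMap, abs_of_pos ht0]
    have hlim : Tendsto (fun R : ℝ => (∮ z in C(1, t), (1 / (z - 1) ^ 2) •
        (((R ^ σ : ℝ) : ℂ) * f (-((R:ℂ) * cexp (φ * I)) * z)))) atTop
        (𝓝 (∮ z in C(1, t), (1 / (z - 1) ^ 2) •
          (C * cexp (-(σ * φ * I)) * z ^ (-(σ:ℂ))))) := by
      unfold circleIntegral
      refine intervalIntegral.tendsto_integral_filter_of_dominated_convergence
        (fun _ => t * (1/t^2 * (M * B))) ?_ ?_ ?_ ?_
      · refine Filter.Eventually.of_forall fun R => Continuous.aestronglyMeasurable ?_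
        have h1 : Continuous (fun θ : ℝ => circleMap 1 t θ) := continuous_circleMap 1 t
        have h2 : Continuous (fun θ : ℝ => deriv (circleMap 1 t) θ) := by
          have : (fun θ : ℝ => deriv (circleMap 1 t) θ) = fun θ => circleMap 0 t θ * I := by
            ext θ; rw [deriv_circleMap]
          rw [this]
          exact (continuous_circleMap 0 t).mul continuous_const
        have h3 : Continuous (fun θ : ℝ => 1 / (circleMap 1 t θ - 1) ^ 2) :=
          continuous_const.div ((h1.sub continuous_const).pow 2)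
            (fun θ => pow_ne_zero 2 (hne θ))
        exact h2.smul (h3.smul (continuous_const.mul
          (hf.continuous.comp (continuous_const.mul h1))))
      · filter_upwards [eventually_ge_atTop (2:ℝ)] with R hR
        refine Filter.Eventually.of_forall fun θ _ => ?_
        rw [norm_smul, norm_smul, norm_div, norm_pow, hnorm, norm_one, deriv_circleMap]
        have h1 : ‖circleMap 0 t θ * I‖ = t := by
          simp [circleMap, abs_of_pos ht0]
        rw [h1]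
        exact mul_le_mul_of_nonneg_left (mul_le_mul_of_nonneg_left
            (step_pt_bound f σ η η' t B M hB hM ht2 harg R φ hR hφ _ (hnorm θ).le)
            (by positivity)) ht0.le
      · exact intervalIntegrable_const
      · refine Filter.Eventually.of_forall fun θ _ => ?_
        exact ((step_pt_lim f σ η η' t C hL ht2 harg φ hφ _ (hnorm θ).le).const_smul _).const_smul _
    have hval : (∮ z in C(1, t), (1 / (z - 1) ^ 2) •
          (C * cexp (-(σ * φ * I)) * z ^ (-(σ:ℂ))))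
        = (C * cexp (-(σ * φ * I))) * ((2 * Real.pi * I) * (-(σ:ℂ))) := by
      rw [← step_cauchy_pow σ t ht0 ht2]
      have h7 := circleIntegral.integral_smul (C * cexp (-(σ * φ * I)))
        (fun z : ℂ => (1 / (z - 1) ^ 2) • (z ^ (-(σ:ℂ)))) 1 t
      refine Eq.trans ?_ h7
      congr 1
      ext z
      simp only [smul_eq_mul]
      ring
    rw [hval] at hlim
    have h6 := hlim.const_mul ((2 * Real.pi * I : ℂ)⁻¹)
    have hpi : (2 * Real.pi * I : ℂ) ≠ 0 := by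
      simp [Real.pi_ne_zero]
    have e3 : (2 * Real.pi * I : ℂ)⁻¹ *
        ((C * cexp (-(σ * φ * I))) * ((2 * Real.pi * I) * (-(σ:ℂ))))
        = -(σ : ℂ) * C * cexp (-(σ * φ * I)) := by
      field_simp
    rw [e3] at h6
    refine h6.congr fun R => ?_
    rw [hcau, ← mul_assoc, inv_mul_cancel₀ hpi, one_mul]

end Pool.Agent.H637W.MB
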